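import Pool.Agent.H26.RG.Avg
import Pool.Agent.Archive.MP_fa2474_nt.AntidiagonalAverage

/-!
The coefficients of low frequency vanish in an expansion of the error.
-/

namespace Pool.Agent.H26

open Complex Finset MeasureTheory Filter Asymptotics Topology

variable {k : ℕ}

lemma mono_exp (ω L : ℝ) : mono ω (Real.exp L) = (Real.exp L : ℂ) * cexp (-(I * ω * L)) := by
  rw [mono_eq (Real.exp_pos L), Real.log_exp]

lemma abs_apply_le_sum (γ : Ix k → ℝ) (i : Ix k) : |γ i| ≤ ∑ i, |γ i| :=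
  Finset.single_le_sum (f := fun i => |γ i|) (fun _ _ => abs_nonneg _) (Finset.mem_univ i)

/-- Polynomial bounds for the error. -/
lemma exists_Er_poly (k : ℕ) : ∃ C : ℝ, 0 ≤ C ∧ ∀ (γ : Ix k → ℝ) (B T : ℝ), 0 ≤ B → 1 ≤ T →
    (∀ i, |γ i| ≤ B) → ‖Er γ T‖ ≤ C * (1 + B) ^ NK k * T ^ (2 * k + 1) := by
  obtain ⟨CQ, hCQ0, hCQ⟩ := exists_norm_Qsum_le k (ρ := 1 / 8) (by norm_num)
  set C : ℝ := (6 * 2) ^ (2 * k) + CQ * 2 ^ (2 * k) with hC
  have hC0 : 0 ≤ C := by positivity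
  have hinj : ∀ (γ : Ix k → ℝ), Function.Injective γ → ∀ B T : ℝ, 0 ≤ B → 1 ≤ T →
      (∀ i, |γ i| ≤ B) → ‖Er γ T‖ ≤ C * (1 + B) ^ NK k * T ^ (2 * k + 1) := by
    intro γ hinj B T hB hT hγ
    have hT0 : 0 ≤ T := by linarith
    rw [Er_eq_integral hinj]
    have h := intervalIntegral.norm_integral_le_of_norm_le_const (a := (0:ℝ)) (b := T)
      (C := C * (1 + B) ^ NK k * T ^ (2 * k))
      (f := fun t : ℝ => Zc (fun i => (γ i : ℂ)) t - Qsum (fun i => (γ i : ℂ)) t) ?_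
    · refine h.trans (le_of_eq ?_)
      rw [sub_zero, abs_of_nonneg hT0]
      ring
    · intro t ht
      rw [Set.uIoc_of_le hT0] at ht
      have htT : 1 + |t| ≤ 2 * T := by
        rw [abs_of_pos ht.1]
        linarith [ht.2]
      have h1 := norm_Zc_le (γ := fun i => (γ i : ℂ)) (ofReal_mem_tube γ) (t := t) hB
        (fun i => by simpa using hγ i)
      have h2 := hCQ (fun i => (γ i : ℂ)) (injective_ofReal_comp hinj) (fun i => by simp) B hB
        (fun i => by simpa using hγ i) t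
      refine (norm_sub_le _ _).trans ((add_le_add h1 h2).trans ?_)
      have h3 : ((6 + 3 * B) * (1 + |t|)) ^ (2 * k) ≤
          (6 * 2) ^ (2 * k) * (1 + B) ^ NK k * T ^ (2 * k) := by
        calc ((6 + 3 * B) * (1 + |t|)) ^ (2 * k)
            ≤ ((6 * (1 + B)) * (2 * T)) ^ (2 * k) := by
              gcongr
              linarith
          _ = (6 * 2) ^ (2 * k) * (1 + B) ^ (2 * k) * T ^ (2 * k) := by
              rw [← mul_pow, ← mul_pow]; ring
          _ ≤ _ := by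
              have h4 : (1 + B) ^ (2 * k) ≤ (1 + B) ^ NK k :=
                pow_le_pow_right₀ (by linarith) (by unfold NK; omega)
              gcongr
      have h4 : CQ * (1 + B) ^ NK k * (1 + |t|) ^ (2 * k) ≤
          CQ * 2 ^ (2 * k) * (1 + B) ^ NK k * T ^ (2 * k) := by
        calc CQ * (1 + B) ^ NK k * (1 + |t|) ^ (2 * k)
            ≤ CQ * (1 + B) ^ NK k * (2 * T) ^ (2 * k) := by gcongr
          _ = _ := by rw [mul_pow]; ring
      calc _ ≤ _ := add_le_add h3 h4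
        _ = _ := by rw [hC]; ring
  refine ⟨C * 2 ^ NK k, by positivity, fun γ B T hB hT hγ => ?_⟩
  obtain ⟨u, hu1, hu2⟩ := exists_seq_injective γ
  have h1 : Tendsto (fun n => ‖Er (u n) T‖) atTop (𝓝 ‖Er γ T‖) :=
    (((continuous_Er T).tendsto γ).comp hu2).norm
  refine le_of_tendsto h1 ?_
  filter_upwards [eventually_abs_le hu2 hγ] with n hn
  refine (hinj (u n) (hu1 n) (B + 1) T (by linarith) hT hn).trans ?_
  have hT0 : 0 ≤ T := by linarith
  have h2 : (1 + (B + 1)) ^ NK k ≤ 2 ^ NK k * (1 + B) ^ NK k := by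
    rw [← mul_pow]
    gcongr
    linarith
  calc C * (1 + (B + 1)) ^ NK k * T ^ (2 * k + 1)
      ≤ C * (2 ^ NK k * (1 + B) ^ NK k) * T ^ (2 * k + 1) := by gcongr
    _ = _ := by ring

/-- From `O(T^(1+ε))` on compact sets and a polynomial bound to a bound on a line. -/
lemma line_bound {F : (Ix k → ℝ) → ℝ → ℂ} (h1 : OneEps F) {K P : ℕ} {C : ℝ} (hC : 0 ≤ C)
    (h2 : ∀ (γ : Ix k → ℝ) (B T : ℝ), 0 ≤ B → 1 ≤ T → (∀ i, |γ i| ≤ B) →
      ‖F γ T‖ ≤ C * (1 + B) ^ K * T ^ P) {g : ℝ → Ix k → ℝ} (hg : Continuous g) {B₀ : ℝ}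
    (hB₀ : 0 ≤ B₀) (hgB : ∀ x i, |g x i| ≤ B₀ + |x|) {ε κ' : ℝ} (hε : 0 < ε) (hκ : 0 < κ') :
    ∃ C' : ℝ, ∀ x L : ℝ, 1 ≤ L → ‖F (g x) (Real.exp L)‖ ≤
      C' * (1 + |x|) ^ K * Real.exp ((1 + ε + κ' * x ^ 2) * L) := by
  set R : ℝ := P / κ' + 1 with hR
  have hR1 : 1 ≤ R := by
    have : 0 ≤ (P : ℝ) / κ' := by positivity
    linarith
  have hRP : (P : ℝ) ≤ κ' * R ^ 2 := by
    have h3 : R ≤ R ^ 2 := by nlinarith
    have h4 : (P : ℝ) ≤ κ' * R := by
      rw [hR, mul_add, mul_div_cancel₀ _ hκ.ne']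
      linarith
    nlinarith
  obtain ⟨C₁, hC₁⟩ := h1 ε hε (g '' Set.Icc (-R) R) (isCompact_Icc.image hg)
  have hC₁0 : 0 ≤ max C₁ 0 := le_max_right _ _
  refine ⟨max C₁ 0 + C * (1 + B₀) ^ K, fun x L hL => ?_⟩
  have hT1 : 1 ≤ Real.exp L := Real.one_le_exp (by linarith)
  have hx0 := abs_nonneg x
  have hx1 : 1 ≤ (1 + |x|) ^ K := one_le_pow₀ (by linarith)
  have hkx : 0 ≤ κ' * x ^ 2 := by positivity
  by_cases hx : |x| ≤ R
  · have h3 := hC₁ (g x) ⟨x, abs_le.1 hx, rfl⟩ (Real.exp L) hT1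
    refine h3.trans ?_
    have h4 : Real.exp L ^ (1 + ε) ≤ Real.exp ((1 + ε + κ' * x ^ 2) * L) := by
      rw [← Real.exp_mul]
      refine Real.exp_le_exp.2 ?_
      nlinarith [mul_nonneg hkx (by linarith : (0:ℝ) ≤ L)]
    calc C₁ * Real.exp L ^ (1 + ε) ≤ max C₁ 0 * Real.exp L ^ (1 + ε) := by
          gcongr; exact le_max_left _ _
      _ ≤ max C₁ 0 * Real.exp ((1 + ε + κ' * x ^ 2) * L) := by gcongr
      _ = (max C₁ 0 + 0) * 1 * Real.exp ((1 + ε + κ' * x ^ 2) * L) := by ring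
      _ ≤ (max C₁ 0 + C * (1 + B₀) ^ K) * (1 + |x|) ^ K *
          Real.exp ((1 + ε + κ' * x ^ 2) * L) := by
          gcongr
          positivity
  · push Not at hx
    have h3 := h2 (g x) (B₀ + |x|) (Real.exp L) (by positivity) hT1 (hgB x)
    refine h3.trans ?_
    have h4 : Real.exp L ^ P ≤ Real.exp ((1 + ε + κ' * x ^ 2) * L) := by
      rw [← Real.exp_nat_mul]
      refine Real.exp_le_exp.2 ?_
      have h5 : R ^ 2 ≤ x ^ 2 := by
        rw [← sq_abs x]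
        gcongr
      have h6 : (P : ℝ) ≤ κ' * x ^ 2 := hRP.trans (by gcongr)
      have h7 : (P : ℝ) * L ≤ (1 + ε + κ' * x ^ 2) * L := by
        gcongr
        linarith
      exact h7
    have h5 : (1 + (B₀ + |x|)) ^ K ≤ (1 + B₀) ^ K * (1 + |x|) ^ K := by
      rw [← mul_pow]
      gcongr
      nlinarith
    calc C * (1 + (B₀ + |x|)) ^ K * Real.exp L ^ P
        ≤ C * ((1 + B₀) ^ K * (1 + |x|) ^ K) * Real.exp ((1 + ε + κ' * x ^ 2) * L) := by
          gcongr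
      _ = (0 + C * (1 + B₀) ^ K) * (1 + |x|) ^ K * Real.exp ((1 + ε + κ' * x ^ 2) * L) := by ring
      _ ≤ _ := by gcongr

lemma pairing_gr (θ γ₀ : Ix k → ℝ) (x : ℝ) :
    pairing θ (gr (fun j => γ₀ (Sum.inl j)) (fun j => γ₀ (Sum.inr j)) x) =
      pairing θ γ₀ + x * ∑ i, θ i := by
  unfold pairing
  rw [Fintype.sum_sum_type]
  have e1 : ∑ j, θ (Sum.inl j) * gr (fun j => γ₀ (Sum.inl j)) (fun j => γ₀ (Sum.inr j)) x
      (Sum.inl j) = ∑ j, θ (Sum.inl j) * γ₀ (Sum.inl j) + x * ∑ j, θ (Sum.inl j) := by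
    rw [Finset.mul_sum, ← Finset.sum_add_distrib]
    refine Finset.sum_congr rfl fun j _ => ?_
    show θ (Sum.inl j) * (γ₀ (Sum.inl j) + x) = _
    ring
  have e2 : ∑ j, θ (Sum.inr j) * gr (fun j => γ₀ (Sum.inl j)) (fun j => γ₀ (Sum.inr j)) x
      (Sum.inr j) = ∑ j, θ (Sum.inr j) * γ₀ (Sum.inr j) - x * ∑ j, θ (Sum.inr j) := by
    rw [Finset.mul_sum, ← Finset.sum_sub_distrib]
    refine Finset.sum_congr rfl fun j _ => ?_
    show θ (Sum.inr j) * (γ₀ (Sum.inr j) - x) = _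
    ring
  rw [e1, e2]
  ring

lemma dist_gr_lt (γ₀ : Ix k → ℝ) {x r : ℝ} (hx : |x| < r) :
    gr (fun j => γ₀ (Sum.inl j)) (fun j => γ₀ (Sum.inr j)) x ∈ Metric.ball γ₀ r := by
  have hr : 0 < r := (abs_nonneg x).trans_lt hx
  rw [Metric.mem_ball, dist_pi_lt_iff hr]
  intro i
  rcases i with j | j
  · show dist (γ₀ (Sum.inl j) + x) (γ₀ (Sum.inl j)) < r
    rw [Real.dist_eq]
    simpa using hx
  · show dist (γ₀ (Sum.inr j) - x) (γ₀ (Sum.inr j)) < r
    rw [Real.dist_eq]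
    simpa using hx

lemma tendsto_mul_exp_neg {c : ℝ} (hc : 0 < c) :
    Tendsto (fun L : ℝ => L * Real.exp (-(c * L))) atTop (𝓝 0) := by
  have h4 := Real.tendsto_pow_mul_exp_neg_atTop_nhds_zero 1
  have h5 := (h4.comp (tendsto_id.const_mul_atTop hc)).const_mul c⁻¹
  rw [mul_zero] at h5
  refine h5.congr fun L => ?_
  simp only [Function.comp_def, id, pow_one]
  field_simp

/-- The coefficients of low frequency vanish. -/
theorem chart {γ₀ : Ix k → ℝ} {Λ : Finset (Ix k → ℝ)} {b : (Ix k → ℝ) → (Ix k → ℝ) → ℂ}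
    (hb : LExpn Λ γ₀ b (Er (k := k))) (h1 : OneEps (Er (k := k))) (hg : Gen Λ γ₀) :
    ∀ θ ∈ Λ, ∑ i, θ i < 2 → b θ γ₀ = 0 := by
  classical
  intro θ₀ hθ₀ hs
  set s₀ : ℝ := ∑ i, θ₀ i with hs₀
  set d : ℝ := 2 - s₀ with hd
  have hd0 : 0 < d := by linarith
  set δ : ℝ := min (d / 3) 1 with hδ
  have hδ0 : 0 < δ := by positivity
  have hδ1 : δ ≤ 1 := min_le_right _ _
  have hδd : δ ≤ d / 3 := min_le_left _ _
  obtain ⟨V, φ, CV, hCV, hVd, hVb, hVi, hφ0, -, hVf⟩ := exists_kernel (ρ := d / 3) (by positivity)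
  obtain ⟨r, hr0, a, ha, C, hbc, hexp⟩ := hb
  set a0 : Fin k → ℝ := fun j => γ₀ (Sum.inl j) with ha0
  set b0 : Fin k → ℝ := fun j => γ₀ (Sum.inr j) with hb0
  set B₀ : ℝ := ∑ i, |γ₀ i| with hB₀
  have hB₀0 : 0 ≤ B₀ := Finset.sum_nonneg fun _ _ => abs_nonneg _
  have haB : ∀ j, |a0 j| ≤ B₀ := fun j => abs_apply_le_sum γ₀ (Sum.inl j)
  have hbB : ∀ j, |b0 j| ≤ B₀ := fun j => abs_apply_le_sum γ₀ (Sum.inr j)
  have hgr0 : gr a0 b0 0 = γ₀ := by
    funext i
    rcases i with j | j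
    · show γ₀ (Sum.inl j) + 0 = _
      ring
    · show γ₀ (Sum.inr j) - 0 = _
      ring
  obtain ⟨CE, hCE0, hCE⟩ := exists_Er_poly k
  have key := avg_limit (κ := Ix k → ℝ) (Λ := Λ) (N := fun θ => ∑ i, θ i)
    (ω := fun θ => pairing θ γ₀) (s₀ := s₀) (ρ := d / 3) (A := d / 3) hg.injOn (by positivity)
    hCV hVd hVb hVi hφ0 hVf (f := fun L x => Er (gr a0 b0 x) (Real.exp L))
    (fun L _ => (continuous_Er _).comp (continuous_gr a0 b0)) (r := r) (a := a) hr0 ha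
    (b := fun θ x => b θ (gr a0 b0 x)) (C := C) ?_ ?_ (K := NK k) ?_ ?_ θ₀ hθ₀ rfl
  · have key' : b θ₀ (gr a0 b0 0) = 0 := key
    rwa [hgr0] at key'
  · intro θ hθ
    refine (hbc θ hθ).comp (continuous_gr a0 b0).continuousOn fun x hx => ?_
    exact dist_gr_lt γ₀ (abs_lt.2 ⟨hx.1, hx.2⟩)
  · intro x hx L hL
    have hT1 : 1 ≤ Real.exp L := Real.one_le_exp (by linarith)
    have h3 := hexp _ (dist_gr_lt γ₀ hx) (Real.exp L) hT1
    rw [← Real.exp_mul, mul_comm L a] at h3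
    refine le_trans (le_of_eq ?_) h3
    congr 2
    refine Finset.sum_congr rfl fun θ _ => ?_
    rw [mono_exp, pairing_gr]
  · intro ε hε κ' hκ'
    exact line_bound h1 hCE0 hCE (continuous_gr a0 b0) hB₀0 (abs_gr_le haB hbB) hε hκ'
  · obtain ⟨C₁, hC₁⟩ := Pool.Agent.Archive.MP_fa2474_nt.AntidiagonalAverage.result k
      (B := B₀) (δ := δ) (ε := δ / 16) hB₀0 hδ0 (by linarith) (by positivity)
    set n : ℕ := 4 * k ^ 2 + 4 * k + 4 with hn
    set Cn : ℝ := Real.exp ((n:ℝ) ^ 2 / (2 * (d / 3))) with hCn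
    have hCn0 : 0 < Cn := Real.exp_pos _
    have hbd : ∀ L : ℝ, 1 ≤ L → ‖(Real.exp (-L) : ℂ) * ∫ x : ℝ, wk V (d / 3) s₀ L x *
        Er (gr a0 b0 x) (Real.exp L)‖ ≤
        (|C₁| * CV * Cn) * (L * Real.exp (-(δ / 16 * L))) := by
      intro L hL
      have hL0 : 0 ≤ L := by linarith
      have hT1 : 1 ≤ Real.exp L := Real.one_le_exp hL0
      have h3 := (hC₁ a0 b0 haB hbB (Real.exp L) hT1 (L * CV * Cn) (wk V (d / 3) s₀ L)
        (differentiable_wk hVd _ _ _).differentiableOn ?_).2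
      · have h4 : ‖∫ x : ℝ, wk V (d / 3) s₀ L x * Er (gr a0 b0 x) (Real.exp L)‖ ≤
            C₁ * (L * CV * Cn) * Real.exp L ^ (1 - δ / 8 + δ / 16) := h3
        rw [norm_mul, Complex.norm_real, Real.norm_of_nonneg (Real.exp_pos _).le]
        calc Real.exp (-L) * ‖∫ x : ℝ, wk V (d / 3) s₀ L x * Er (gr a0 b0 x) (Real.exp L)‖
            ≤ Real.exp (-L) * (C₁ * (L * CV * Cn) * Real.exp L ^ (1 - δ / 8 + δ / 16)) := by
              gcongr
          _ ≤ Real.exp (-L) * (|C₁| * (L * CV * Cn) * Real.exp L ^ (1 - δ / 8 + δ / 16)) := by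
              gcongr
              exact le_abs_self _
          _ = (|C₁| * CV * Cn) * (L * (Real.exp (-L) * Real.exp L ^ (1 - δ / 8 + δ / 16))) := by
              ring
          _ = _ := by
              rw [← Real.exp_mul, ← Real.exp_add]
              congr 3
              ring
      · intro z hz1 hz2
        have hy1 : |z.im| ≤ 1 := by
          rw [abs_of_nonpos hz2]; linarith
        have hy0 := abs_nonneg z.im
        have h4 := norm_wk_le hVb (d / 3) s₀ hL0 z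
        have h5 := pow_mul_exp_le n (c := d / 3) (by positivity) z.re
        have h6 : Real.exp (-(d / 3 / 2 * z.re ^ 2)) ≤ 1 := Real.exp_le_one_iff.2 (by
          have : 0 ≤ d / 3 / 2 * z.re ^ 2 := by positivity
          linarith)
        have h7 : (1 + |z.re|) ^ n * Real.exp (-(d / 3 * z.re ^ 2)) ≤ Cn := by
          refine h5.trans ?_
          calc Real.exp ((n:ℝ) ^ 2 / (2 * (d / 3))) * Real.exp (-(d / 3 / 2 * z.re ^ 2))
              ≤ Real.exp ((n:ℝ) ^ 2 / (2 * (d / 3))) * 1 := by gcongr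
            _ = _ := mul_one _
        have h8 : Real.exp (L * (d / 3 * |z.im| - d / 3 * (z.re ^ 2 - z.im ^ 2) - s₀ * z.im)) ≤
            Real.exp (-(d / 3 * z.re ^ 2)) * Real.exp L ^ ((2 - δ) * |z.im|) := by
          rw [← Real.exp_mul, ← Real.exp_add]
          refine Real.exp_le_exp.2 ?_
          have e1 : -s₀ * z.im = s₀ * |z.im| := by rw [abs_of_nonpos hz2]; ring
          have e2 : z.im ^ 2 ≤ |z.im| := by
            rw [← sq_abs]
            nlinarith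
          have e3 : 0 ≤ (L - 1) * (d / 3 * z.re ^ 2) := mul_nonneg (by linarith) (by positivity)
          have e4 : L * (d / 3 * z.im ^ 2) ≤ L * (d / 3 * |z.im|) := by gcongr
          have e5 : L * ((d / 3 + d / 3 + s₀) * |z.im|) ≤ L * ((2 - δ) * |z.im|) := by
            gcongr
            linarith
          nlinarith
        calc (1 + |z.re|) ^ n * ‖wk V (d / 3) s₀ L z‖
            ≤ (1 + |z.re|) ^ n * (L * CV * (Real.exp (-(d / 3 * z.re ^ 2)) *
              Real.exp L ^ ((2 - δ) * |z.im|))) := by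
              gcongr
              exact h4.trans (by gcongr)
          _ = L * CV * ((1 + |z.re|) ^ n * Real.exp (-(d / 3 * z.re ^ 2))) *
              Real.exp L ^ ((2 - δ) * |z.im|) := by ring
          _ ≤ L * CV * Cn * Real.exp L ^ ((2 - δ) * |z.im|) := by gcongr
    have h4 := (tendsto_mul_exp_neg (c := δ / 16) (by positivity)).const_mul (|C₁| * CV * Cn)
    rw [mul_zero] at h4
    refine squeeze_zero_norm' ?_ h4
    filter_upwards [eventually_ge_atTop 1] with L hL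
    exact hbd L hL

end Pool.Agent.H26
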