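import Pool.Agent.H26.RG.Final

/-!
The main term of the recipe is forced.
-/

namespace Pool.Agent.H26

open Complex Finset MeasureTheory Filter Asymptotics Topology

variable {k : ℕ}

lemma sg_inl (j : Fin k) : (sg (Sum.inl j : Ix k) : ℝ) = 1 := rfl

lemma sg_inr (j : Fin k) : (sg (Sum.inr j : Ix k) : ℝ) = -1 := rfl

lemma corner_cases {S : Finset (Ix k)} {σ : Equiv.Perm (Ix k)}
    (hσ : S = (S0 k).map σ.toEmbedding) (i : Ix k) :
    (corner S i = 0 ∧ (sg i : ℝ) * sg (σ.symm i) = 1) ∨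
      (corner S i = 1 ∧ (sg i : ℝ) * sg (σ.symm i) = -1) := by
  have hmem : i ∈ S ↔ σ.symm i ∈ S0 k := by
    rw [hσ, Finset.mem_map]
    constructor
    · rintro ⟨x, hx, rfl⟩
      simpa using hx
    · intro hx
      exact ⟨σ.symm i, hx, by simp⟩
  rcases i with l | j
  · rcases h : σ.symm (Sum.inl l) with m | m
    · left
      rw [h] at hmem
      refine ⟨?_, by rw [sg_inl, sg_inl]; ring⟩
      show (if Sum.inl l ∈ S then (0:ℝ) else 1) = 0
      rw [if_pos (hmem.2 (inl_mem_S0 m))]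
    · right
      rw [h] at hmem
      refine ⟨?_, by rw [sg_inl, sg_inr]; ring⟩
      show (if Sum.inl l ∈ S then (0:ℝ) else 1) = 1
      rw [if_neg (fun h' => inr_notMem_S0 m (hmem.1 h'))]
  · rcases h : σ.symm (Sum.inr j) with m | m
    · right
      rw [h] at hmem
      refine ⟨?_, by rw [sg_inr, sg_inl]; ring⟩
      show (if Sum.inr j ∈ S then (1:ℝ) else 0) = 1
      rw [if_pos (hmem.2 (inl_mem_S0 m))]
    · left
      rw [h] at hmem
      refine ⟨?_, by rw [sg_inr, sg_inr]; ring⟩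
      show (if Sum.inr j ∈ S then (1:ℝ) else 0) = 0
      rw [if_neg (fun h' => inr_notMem_S0 m (hmem.1 h'))]

lemma star_apply {S : Finset (Ix k)} {σ : Equiv.Perm (Ix k)} {ϑ θ : Ix k → ℝ}
    (h : star S σ ϑ = θ) (i : Ix k) :
    ϑ (σ.symm i) = sg i * sg (σ.symm i) * (θ i - corner S i) := by
  rw [← h]
  unfold star
  have h1 := sg_mul_self i
  have h2 := sg_mul_self (σ.symm i)
  linear_combination (-(ϑ (σ.symm i)) * (sg (σ.symm i) * sg (σ.symm i))) * h1 -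
    (ϑ (σ.symm i)) * h2

lemma corner_nonneg (S : Finset (Ix k)) (i : Ix k) : 0 ≤ corner S i := by
  rcases i with l | j
  · show (0:ℝ) ≤ if Sum.inl l ∈ S then 0 else 1
    split_ifs <;> norm_num
  · show (0:ℝ) ≤ if Sum.inr j ∈ S then 1 else 0
    split_ifs <;> norm_num

lemma notMem_corners_of_neg {θ : Ix k → ℝ} (h : ∃ i, θ i < 0) : θ ∉ corners k := by
  intro hm
  obtain ⟨S, -, rfl⟩ := mem_corners.1 hm
  obtain ⟨i, hi⟩ := h
  exact absurd (corner_nonneg S i) (not_le.2 hi)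

lemma pairing_corner_one {S : Finset (Ix k)} (hS : S.card = k) :
    pairing (corner S) (fun _ => 1) = 0 := by
  obtain ⟨σ, hσ⟩ := exists_perm_map hS
  rw [pairing_eq_sum]
  have h1 : ∀ i, sg i * corner S i * 1 = (sg i - sg (σ.symm i)) / 2 := by
    intro i
    have h2 := sg_mul_self i
    rcases corner_cases hσ i with ⟨h3, h4⟩ | ⟨h3, h4⟩
    · have h5 : (sg (σ.symm i) : ℝ) = sg i := by linear_combination (sg i) * h4 -
        (sg (σ.symm i)) * h2
      rw [h3, h5]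
      ring
    · have h5 : (sg (σ.symm i) : ℝ) = - sg i := by linear_combination (sg i) * h4 -
        (sg (σ.symm i)) * h2
      rw [h3, h5]
      ring
  rw [Finset.sum_congr rfl fun i _ => h1 i, ← Finset.sum_div, Finset.sum_sub_distrib,
    Equiv.sum_comp σ.symm (fun i => (sg i : ℝ)), sub_self, zero_div]

lemma exists_corner_eq_one (i : Ix k) : ∃ S : Finset (Ix k), S.card = k ∧ corner S i = 1 := by
  classical
  have key : ∀ j : Fin k, ∃ S : Finset (Ix k), S.card = k ∧ Sum.inl j ∉ S ∧ Sum.inr j ∈ S := by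
    intro j
    refine ⟨insert (Sum.inr j) ((S0 k).erase (Sum.inl j)), ?_, ?_, ?_⟩
    · rw [Finset.card_insert_of_notMem, Finset.card_erase_of_mem (inl_mem_S0 j), card_S0]
      · have := j.pos
        omega
      · intro h
        exact inr_notMem_S0 j (Finset.mem_of_mem_erase h)
    · simp
    · simp
  rcases i with j | j
  · obtain ⟨S, h1, h2, h3⟩ := key j
    exact ⟨S, h1, by show (if Sum.inl j ∈ S then (0:ℝ) else 1) = 1; rw [if_neg h2]⟩
  · obtain ⟨S, h1, h2, h3⟩ := key j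
    exact ⟨S, h1, by show (if Sum.inr j ∈ S then (1:ℝ) else 0) = 1; rw [if_pos h3]⟩

variable {Λ : Finset (Ix k → ℝ)} {a : ℝ} {c : (Ix k → ℝ) → (Ix k → ℝ) → ℂ}

lemma Setup.vanC' (h : Setup k Λ a c) {θ : Ix k → ℝ} (hθ : θ ∈ Λ) (hs : ∃ i, θ i < 0) :
    ∀ᵐ γ : Ix k → ℝ, c γ θ - qcs γ θ = 0 := by
  filter_upwards [h.vanC hθ hs] with γ hγ
  rw [hγ, qcs_eq_zero (notMem_corners_of_neg hs), sub_zero]

theorem Setup.van (h : Setup k Λ a c) {θ : Ix k → ℝ} (hθ : θ ∈ Λ) (hc : θ ∉ central k) :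
    ∀ᵐ γ : Ix k → ℝ, c γ θ - qcs γ θ = 0 := by
  by_cases h1 : ∃ i, θ i < 0
  · exact h.vanC' hθ h1
  push Not at h1
  by_cases h2 : pairing θ (fun _ => 1) ≠ 0
  · filter_upwards [h.vanE hθ h2] with γ hγ
    rw [hγ, qcs_eq_zero (fun hm => ?_), sub_zero]
    obtain ⟨S, hS, rfl⟩ := mem_corners.1 hm
    exact h2 (pairing_corner_one hS)
  push Not at h2
  by_cases h3 : ∃ i, 1 < θ i
  · obtain ⟨i, hi⟩ := h3
    obtain ⟨S, hS, hSi⟩ := exists_corner_eq_one i
    obtain ⟨σ, hσ, hco⟩ := cocycle S hS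
    refine h.transfer hS hco hθ fun ϑ hϑ hst => h.vanC' hϑ ⟨σ.symm i, ?_⟩
    rw [star_apply hst i]
    rcases corner_cases hσ i with ⟨h3, h4⟩ | ⟨h3, h4⟩
    · rw [h3] at hSi
      norm_num at hSi
    · rw [h3, h4]
      linarith
  push Not at h3
  have h4 : ∑ j, θ (Sum.inl j) = ∑ l, θ (Sum.inr l) := by
    unfold pairing at h2
    simpa [sub_eq_zero] using h2
  have h5 : ∃ S : Finset (Ix k), S.card = k ∧ ∑ i, |θ i - corner S i| < 2 := by
    by_contra hcon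
    push Not at hcon
    exact hc ⟨fun i => ⟨h1 i, h3 i⟩, h4, hcon⟩
  obtain ⟨S, hS, hlt⟩ := h5
  obtain ⟨σ, hσ, hco⟩ := cocycle S hS
  refine h.transfer hS hco hθ fun ϑ hϑ hst => h.vanA hϑ ?_
  have e1 : ∑ i, ϑ i = ∑ i, |θ i - corner S i| := by
    rw [← Equiv.sum_comp σ.symm ϑ]
    refine Finset.sum_congr rfl fun i _ => ?_
    rw [star_apply hst i]
    rcases corner_cases hσ i with ⟨h6, h7⟩ | ⟨h6, h7⟩
    · rw [h6, h7, sub_zero, one_mul, abs_of_nonneg (h1 i)]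
    · rw [h6, h7, abs_of_nonpos (by linarith [h3 i])]
      ring
  rw [e1]
  exact hlt

lemma corner_notMem_central {S : Finset (Ix k)} (hS : S.card = k) : corner S ∉ central k := by
  rintro ⟨-, -, h⟩
  have := h S hS
  simp at this
  norm_num at this

/-- The main term of the recipe is forced. -/
theorem forced (k : ℕ) {a : ℝ} (ha0 : 0 < a) (ha1 : a < 1) (Λ : Finset (Ix k → ℝ))
    (hΛ : ∀ θ ∈ Λ, θ ∉ central k)
    (h : ∀ᵐ γ : Ix k → ℝ, ∃ c : (Ix k → ℝ) → ℂ, Expn Λ a γ c (Mr γ)) :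
    ∀ᵐ γ : Ix k → ℝ, (fun T => Er γ T) =O[atTop] fun T : ℝ => T ^ a := by
  classical
  set Λ' : Finset (Ix k → ℝ) := Λ ∪ corners k with hΛ'
  have h1 : ∀ᵐ γ : Ix k → ℝ, ∃ c : (Ix k → ℝ) → ℂ, Expn Λ' a γ c (Mr γ) := by
    filter_upwards [h] with γ hγ
    obtain ⟨c, hc⟩ := hγ
    exact hc.mono_set Finset.subset_union_left
  set c : (Ix k → ℝ) → (Ix k → ℝ) → ℂ := fun γ =>
    if h : ∃ c : (Ix k → ℝ) → ℂ, Expn Λ' a γ c (Mr γ) then h.choose else 0 with hc
  have hset : Setup k Λ' a c := by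
    refine ⟨ha0, ha1, Finset.subset_union_right, ?_⟩
    filter_upwards [h1] with γ hγ
    rw [hc]
    simp only
    rw [dif_pos hγ]
    exact hγ.choose_spec
  have h2 : ∀ᵐ γ : Ix k → ℝ, ∀ θ : Λ', c γ θ.1 - qcs γ θ.1 = 0 := by
    rw [ae_all_iff]
    intro θ
    refine hset.van θ.2 ?_
    rcases Finset.mem_union.1 θ.2 with h3 | h3
    · exact hΛ _ h3
    · obtain ⟨S, hS, h4⟩ := mem_corners.1 h3
      rw [← h4]
      exact corner_notMem_central hS
  filter_upwards [hset.hE, h2] with γ h3 h4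
  refine h3.congr_left fun T => ?_
  rw [Finset.sum_eq_zero fun θ hθ => ?_, sub_zero]
  have h5 := h4 ⟨θ, hθ⟩
  simp only at h5 ⊢
  rw [h5, zero_mul]

theorem forced_all (k : ℕ) {a : ℝ} (ha0 : 0 < a) (ha1 : a < 1) (Λ : Finset (Ix k → ℝ))
    (hΛ : ∀ θ ∈ Λ, θ ∉ central k)
    (h : ∀ᵐ γ : Ix k → ℝ, ∃ c : (Ix k → ℝ) → ℂ, Expn Λ a γ c (Mr γ)) (α β : Fin k → ℝ)
    {ε : ℝ} (hε : 0 < ε) : (fun T => E α β T) =O[atTop] fun T : ℝ => T ^ (a + ε) := by
  have h1 := forced k ha0 ha1 Λ hΛ h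
  obtain ⟨C, hC⟩ := Er_uniform_of_ae (U := Set.univ) isOpen_univ hε (by
    filter_upwards [h1] with γ hγ _ using hγ) (K := {Sum.elim α β}) isCompact_singleton
    (Set.subset_univ _)
  refine Asymptotics.IsBigO.of_bound C ?_
  filter_upwards [eventually_ge_atTop 1] with T hT
  have hT0 : 0 < T := by linarith
  rw [Real.norm_of_nonneg (by positivity : 0 ≤ T ^ (a + ε))]
  exact hC _ (Set.mem_singleton _) T hT

/-- The expansion of the moment given by the recipe. -/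
theorem expn_of_error {γ : Ix k → ℝ} (hγ : Function.Injective γ) {a : ℝ} (ha : 0 < a)
    (h : (fun T => Er γ T) =O[atTop] fun T : ℝ => T ^ a) :
    Expn (corners k) a γ (qcs γ) (Mr γ) := by
  have h1 := h.add (Q_expand hγ ha)
  refine h1.congr_left fun T => ?_
  rw [Er_eq_sub hγ, sum_qcs (Finset.Subset.refl _)]
  ring

/-- The error is small for all shifts if and only if the moment has some expansion for almost all
shifts. -/
theorem forced_iff (k : ℕ) {a : ℝ} (ha0 : 0 ≤ a) (ha1 : a < 1) :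
    (∀ (α β : Fin k → ℝ) (ε : ℝ), 0 < ε →
      (fun T : ℝ => E α β T) =O[atTop] fun T : ℝ => T ^ (a + ε)) ↔
    ∀ ε : ℝ, 0 < ε → ∃ Λ : Finset (Ix k → ℝ), (∀ θ ∈ Λ, θ ∉ central k) ∧
      ∀ᵐ γ : Ix k → ℝ, ∃ c : (Ix k → ℝ) → ℂ, Expn Λ (a + ε) γ c (Mr γ) := by
  constructor
  · intro h ε hε
    refine ⟨corners k, fun θ hθ => ?_, ?_⟩
    · obtain ⟨S, hS, rfl⟩ := mem_corners.1 hθ
      exact corner_notMem_central hS
    · filter_upwards [ae_injective] with γ hγ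
      exact ⟨_, expn_of_error hγ (by linarith) (h _ _ ε hε)⟩
  · intro h α β ε hε
    set δ : ℝ := min (ε / 2) ((1 - a) / 2) with hδ
    have hδ0 : 0 < δ := lt_min (by linarith) (by linarith)
    have hδ1 : δ ≤ ε / 2 := min_le_left _ _
    have hδ2 : δ ≤ (1 - a) / 2 := min_le_right _ _
    obtain ⟨Λ, hΛ, h1⟩ := h δ hδ0
    have h2 := forced_all k (a := a + δ) (by linarith) (by linarith) Λ hΛ h1 α β
      (ε := ε - δ) (by linarith)
    rw [show a + δ + (ε - δ) = a + ε by ring] at h2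
    exact h2

end Pool.Agent.H26
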