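import Pool.Agent.H26.RG.Defs
import Pool.Agent.H26.Sym
import Pool.Agent.H5.GammaV

/-!
Asymptotics of the factors `G S γ t` of the terms of the recipe, for real shifts.
-/

namespace Pool.Agent.H26

open Complex Finset MeasureTheory Filter Asymptotics Topology

namespace Stir

open Pool.Agent.H6 (psi psiSeq tendsto_psiSeq norm_ge_of_re arctan_step)
open Pool.Agent.H5 (remc rhoV gamma_vert norm_rhoV_le tendsto_log_sub)

lemma differentiableAt_Gamma_re {s : ℂ} (hs : 0 < s.re) : DifferentiableAt ℂ Gamma s := by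
  refine differentiableAt_Gamma _ fun m hm => ?_
  have := congrArg Complex.re hm
  simp at this
  have hm0 : (0:ℝ) ≤ m := Nat.cast_nonneg m
  linarith

lemma hasDerivAt_rhoV {s : ℂ} (hs : 1 ≤ s.re) : HasDerivAt (fun τ : ℝ => rhoV s τ) 0 0 := by
  have h0 : rhoV s 0 = 0 := by
    have := norm_rhoV_le hs 0
    simpa using this
  rw [hasDerivAt_iff_isLittleO]
  simp only [h0, sub_zero, smul_zero]
  have h1 : (fun τ : ℝ => rhoV s τ) =O[𝓝 0] fun τ : ℝ => τ ^ 2 := by
    refine IsBigO.of_bound 1 (Eventually.of_forall fun τ => ?_)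
    refine (norm_rhoV_le hs τ).trans ?_
    rw [Real.norm_eq_abs, abs_of_nonneg (sq_nonneg τ), one_mul]
    exact div_le_self (sq_nonneg τ) hs
  refine h1.trans_isLittleO ?_
  simpa using (isLittleO_pow_id (𝕜 := ℝ) (n := 2) (by norm_num))

lemma digamma_eq_psi {s : ℂ} (hs : 1 ≤ s.re) : digamma s = psi s := by
  have hG : Gamma s ≠ 0 := Gamma_ne_zero_of_re_pos (by linarith)
  have h0 : HasDerivAt (fun τ : ℝ => (τ : ℂ) * I) I 0 := by
    have : HasDerivAt (fun τ : ℝ => (τ : ℂ)) 1 0 := (hasDerivAt_id (0:ℝ)).ofReal_comp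
    simpa using this.mul_const I
  have h1 : HasDerivAt (fun τ : ℝ => Gamma (s + τ * I)) (deriv Gamma s * I) 0 := by
    have hd : HasDerivAt Gamma (deriv Gamma s) (s + ((0:ℝ) : ℂ) * I) := by
      simpa using (differentiableAt_Gamma_re (s := s) (by linarith)).hasDerivAt
    exact hd.comp (0:ℝ) (h0.const_add s)
  have h2 : HasDerivAt (fun τ : ℝ => Gamma s * exp (τ * I * psi s + rhoV s τ))
      (Gamma s * (I * psi s)) 0 := by
    have h3 := (h0.mul_const (psi s)).add (hasDerivAt_rhoV hs)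
    have h4 := (h3.cexp).const_mul (Gamma s)
    have h5 : rhoV s 0 = 0 := by
      have := norm_rhoV_le hs 0
      simpa using this
    refine h4.congr_deriv ?_
    simp [h5]
  have h6 : (fun τ : ℝ => Gamma (s + τ * I)) =
      fun τ : ℝ => Gamma s * exp (τ * I * psi s + rhoV s τ) := by
    funext τ
    exact gamma_vert hs τ
  rw [h6] at h1
  have h7 := h1.unique h2
  rw [digamma_def, logDeriv_apply, div_eq_iff hG]
  have h8 : deriv Gamma s * I = psi s * Gamma s * I := by rw [h7]; ring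
  exact mul_right_cancel₀ I_ne_zero h8

lemma norm_add_real_ge {w : ℂ} (hw : 0 < w.re) {τ : ℝ} (hτ : 0 ≤ τ) : ‖w‖ ≤ ‖w + τ‖ := by
  rw [Complex.norm_def, Complex.norm_def]
  apply Real.sqrt_le_sqrt
  rw [Complex.normSq_apply, Complex.normSq_apply]
  simp
  nlinarith [mul_nonneg hw.le hτ]

lemma norm_remc_one_le {w : ℂ} (hw : 0 < w.re) : ‖remc w 1‖ ≤ 1 / (2 * ‖w‖ ^ 2) := by
  have hw0 : w ≠ 0 := by
    intro h; simp [h] at hw
  have hwn : 0 < ‖w‖ := norm_pos_iff.2 hw0
  have hder : ∀ τ ∈ Set.Icc (0 : ℝ) 1,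
      HasDerivAt (fun τ : ℝ => remc w τ) (1 / w - 1 / (w + τ)) τ := by
    intro τ hτ
    unfold remc
    have h0 : HasDerivAt (fun τ : ℝ => (τ : ℂ)) 1 τ := (hasDerivAt_id τ).ofReal_comp
    have h1 : HasDerivAt (fun τ : ℝ => (τ : ℂ) / w) (1 / w) τ := h0.div_const w
    have h2 : HasDerivAt (fun τ : ℝ => w + (τ : ℂ)) 1 τ := h0.const_add w
    have h3 : HasDerivAt (fun τ : ℝ => log (w + (τ : ℂ))) (1 / (w + (τ : ℂ))) τ := by
      apply h2.clog_real
      left
      have := hτ.1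
      simp
      linarith
    exact h1.sub (h3.sub_const (log w))
  have hmain := image_norm_le_of_norm_deriv_right_le_deriv_boundary
    (f := fun τ : ℝ => remc w τ) (f' := fun τ => (1 / w - 1 / (w + τ)))
    (a := 0) (b := 1) (B := fun τ => τ ^ 2 / (2 * ‖w‖ ^ 2)) (B' := fun τ => τ / ‖w‖ ^ 2)
    (fun τ hτ => (hder τ hτ).continuousAt.continuousWithinAt)
    (fun τ hτ => (hder τ ⟨hτ.1, hτ.2.le⟩).hasDerivWithinAt)
    (by simp [remc])
    (by
      intro τ
      refine ((hasDerivAt_pow 2 τ).div_const (2 * ‖w‖ ^ 2)).congr_deriv ?_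
      field_simp
      ring)
    (by
      intro τ hτ
      have hn2 : ‖w‖ ≤ ‖w + τ‖ := norm_add_real_ge hw hτ.1
      have hne : w + τ ≠ 0 := by
        intro h
        rw [h] at hn2
        simp at hn2
        exact hw0 hn2
      have e' : (1 / w - 1 / (w + τ)) = τ / (w * (w + τ)) := by
        rw [div_sub_div _ _ hw0 hne]
        congr 1; ring
      rw [e', norm_div, norm_mul, Complex.norm_real, Real.norm_eq_abs,
        abs_of_nonneg hτ.1]
      apply div_le_div_of_nonneg_left hτ.1 (by positivity)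
      nlinarith [norm_nonneg w, norm_nonneg (w + τ)])
    (Set.right_mem_Icc.mpr zero_le_one)
  simpa using hmain

lemma sum_one_div_le {s : ℂ} (hs : 1 ≤ s.re) (him : s.im ≠ 0) (n : ℕ) :
    ∑ j ∈ range (n + 1), 1 / (2 * ‖s + j‖ ^ 2) ≤ 1 / |s.im| := by
  have hx : 0 < |s.im| := abs_pos.mpr him
  have h1 : ∀ j ∈ range (n + 1), 1 / (2 * ‖s + j‖ ^ 2) ≤
      (1 / (2 * |s.im|)) * (|s.im| / (((j : ℝ) + 1) ^ 2 + |s.im| ^ 2)) := by
    intro j _
    have hj : (0:ℝ) ≤ j := Nat.cast_nonneg j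
    have e : ‖s + j‖ ^ 2 = (s.re + j) ^ 2 + |s.im| ^ 2 := by
      rw [← Complex.normSq_eq_norm_sq, Complex.normSq_apply, sq_abs]
      simp
      ring
    have e2 : (1 / (2 * |s.im|)) * (|s.im| / (((j : ℝ) + 1) ^ 2 + |s.im| ^ 2)) =
        1 / (2 * (((j : ℝ) + 1) ^ 2 + |s.im| ^ 2)) := by
      field_simp
    rw [e2, e]
    apply one_div_le_one_div_of_le (by positivity)
    nlinarith
  refine (Finset.sum_le_sum h1).trans ?_
  rw [← Finset.mul_sum]
  have h2 : ∑ j ∈ range (n + 1), |s.im| / (((j : ℝ) + 1) ^ 2 + |s.im| ^ 2) ≤ Real.pi / 2 := by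
    calc _ ≤ ∑ j ∈ range (n + 1), (Real.arctan (((j : ℝ) + 1) / |s.im|)
        - Real.arctan ((j : ℝ) / |s.im|)) := Finset.sum_le_sum (fun j _ => arctan_step hx j)
    _ = Real.arctan (((n : ℝ) + 1) / |s.im|) - Real.arctan (0 / |s.im|) := by
        have := Finset.sum_range_sub (fun j : ℕ => Real.arctan ((j : ℝ) / |s.im|)) (n + 1)
        push_cast at this
        exact this
    _ ≤ Real.pi / 2 := by
        simp
        exact (Real.arctan_lt_pi_div_two _).le
  have h3 : Real.pi / 2 ≤ 2 := by linarith [Real.pi_le_four]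
  calc _ ≤ (1 / (2 * |s.im|)) * 2 := by gcongr; linarith
    _ = _ := by field_simp

lemma norm_psi_sub_log_le {s : ℂ} (hs : 1 ≤ s.re) (him : s.im ≠ 0) :
    ‖psi s - log s‖ ≤ 1 / |s.im| := by
  have h1 := tendsto_psiSeq hs
  have h2 : ∀ n : ℕ, psiSeq s n = ((Real.log n : ℂ) - log (s + (n + 1 : ℕ))) + log s
      - ∑ j ∈ range (n + 1), remc (s + j) 1 := by
    intro n
    unfold psiSeq remc
    rw [Finset.sum_sub_distrib]
    have h3 : ∑ j ∈ range (n + 1), (log (s + j + 1) - log (s + j))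
        = log (s + (n + 1 : ℕ)) - log s := by
      have := Finset.sum_range_sub (fun j : ℕ => log (s + j)) (n + 1)
      simp only [Nat.cast_zero, add_zero] at this
      rw [← this]
      refine Finset.sum_congr rfl (fun j _ => ?_)
      push_cast
      rw [add_assoc]
    rw [h3]
    ring
  have h4 : Tendsto (fun n => psiSeq s n - ((Real.log n : ℂ) - log (s + (n + 1 : ℕ))) - log s) atTop
      (𝓝 (psi s - 0 - log s)) := ((h1.sub (tendsto_log_sub hs)).sub_const _)
  have h5 : ∀ n, ‖psiSeq s n - ((Real.log n : ℂ) - log (s + (n + 1 : ℕ))) - log s‖ ≤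
      1 / |s.im| := by
    intro n
    rw [h2 n]
    have e : ((Real.log n : ℂ) - log (s + (n + 1 : ℕ))) + log s
      - ∑ j ∈ range (n + 1), remc (s + j) 1 - ((Real.log n : ℂ) - log (s + (n + 1 : ℕ))) - log s
      = - ∑ j ∈ range (n + 1), remc (s + j) 1 := by ring
    rw [e, norm_neg]
    refine (norm_sum_le _ _).trans ((Finset.sum_le_sum (fun j _ => ?_)).trans
      (sum_one_div_le hs him n))
    have hj : (0:ℝ) ≤ j := Nat.cast_nonneg j
    exact norm_remc_one_le (by simp; linarith)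
  have := le_of_tendsto' h4.norm h5
  simpa using this

/-- `digamma` on the line `Re s = 1/4` -/
lemma norm_digamma_quarter {y : ℝ} (hy : y ≠ 0) :
    ‖digamma (1 / 4 + y * I) - log (5 / 4 + y * I)‖ ≤ 2 / |y| := by
  have hy' : 0 < |y| := abs_pos.mpr hy
  have h1 := digamma_apply_add_one (1 / 4 + y * I) (by
    intro m hm
    have := congrArg Complex.re hm
    simp at this
    have hm0 : (0:ℝ) ≤ m := Nat.cast_nonneg m
    linarith)
  have e1 : (1 / 4 + y * I : ℂ) + 1 = 5 / 4 + y * I := by ring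
  rw [e1] at h1
  have hre : ((5 / 4 + y * I : ℂ)).re = 5 / 4 := by simp
  have him : ((5 / 4 + y * I : ℂ)).im = y := by simp
  rw [digamma_eq_psi (by rw [hre]; norm_num)] at h1
  have h2 := norm_psi_sub_log_le (s := 5 / 4 + y * I) (by rw [hre]; norm_num) (by rw [him]; exact hy)
  rw [him] at h2
  have h3 : ‖((1 / 4 + y * I : ℂ))⁻¹‖ ≤ 1 / |y| := by
    rw [norm_inv, ← one_div]
    refine one_div_le_one_div_of_le hy' ?_
    have := Complex.abs_im_le_norm (1 / 4 + y * I : ℂ)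
    have e : (1 / 4 + y * I : ℂ).im = y := by simp
    rwa [e] at this
  have e2 : digamma (1 / 4 + y * I) - log (5 / 4 + y * I) =
      (psi (5 / 4 + y * I) - log (5 / 4 + y * I)) - ((1 / 4 + y * I : ℂ))⁻¹ := by
    rw [h1]; ring
  rw [e2]
  refine (norm_sub_le _ _).trans ?_
  calc _ ≤ 1 / |y| + 1 / |y| := add_le_add h2 h3
    _ = _ := by ring

lemma log_add_log {y : ℝ} (hy : 1 ≤ y) :
    ‖log (5 / 4 + y * I) + log (5 / 4 - y * I) - 2 * (Real.log y : ℂ)‖ ≤ 2 / y := by
  have hy0 : 0 < y := by linarith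
  have hc : (5 / 4 - y * I : ℂ) = (starRingEnd ℂ) (5 / 4 + y * I) := by
    have : (5 / 4 + y * I : ℂ) = ((5 / 4 : ℝ) : ℂ) + y * I := by push_cast; ring
    rw [this, map_add, Complex.conj_ofReal, map_mul, Complex.conj_ofReal, Complex.conj_I]
    push_cast
    ring
  have harg : arg (5 / 4 + y * I : ℂ) ≠ Real.pi := by
    intro h
    have := (Complex.arg_eq_pi_iff.1 h).1
    simp at this
    linarith
  have e1 : log (5 / 4 + y * I) + log (5 / 4 - y * I) =
      ((Real.log (25 / 16 + y ^ 2) : ℝ) : ℂ) := by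
    rw [hc, Complex.log_conj _ harg, Complex.add_conj, Complex.log_re]
    have : ‖(5 / 4 + y * I : ℂ)‖ = Real.sqrt (25 / 16 + y ^ 2) := by
      rw [Complex.norm_def, Complex.normSq_apply]
      congr 1
      simp
      ring
    rw [this, Real.log_sqrt (by positivity)]
    congr 1
    ring
  have e2 : Real.log (25 / 16 + y ^ 2) - 2 * Real.log y = Real.log (1 + 25 / 16 / y ^ 2) := by
    have : (25 / 16 + y ^ 2) = y ^ 2 * (1 + 25 / 16 / y ^ 2) := by
      field_simp
      ring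
    rw [this, Real.log_mul (by positivity) (by positivity), Real.log_pow]
    push_cast
    ring
  have e3 : log (5 / 4 + y * I) + log (5 / 4 - y * I) - 2 * (Real.log y : ℂ) =
      ((Real.log (1 + 25 / 16 / y ^ 2) : ℝ) : ℂ) := by
    rw [e1, ← e2]
    push_cast
    ring
  rw [e3, Complex.norm_real, Real.norm_eq_abs, abs_of_nonneg (Real.log_nonneg (by
    have : 0 ≤ 25 / 16 / y ^ 2 := by positivity
    linarith))]
  have h1 := Real.log_le_sub_one_of_pos (show 0 < 1 + 25 / 16 / y ^ 2 by positivity)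
  have h2 : 25 / 16 / y ^ 2 ≤ 2 / y := by
    rw [div_div, div_le_div_iff₀ (by positivity) (by positivity)]
    nlinarith [mul_pos hy0 hy0]
  linarith

/-- the logarithmic derivative of `τ ↦ χ(1/2 + iτ)`, divided by `i` -/
noncomputable def theta (τ : ℝ) : ℂ :=
  (Real.log Real.pi : ℂ) - (digamma (1 / 4 - (τ / 2 : ℝ) * I) + digamma (1 / 4 + (τ / 2 : ℝ) * I)) / 2

lemma norm_theta_le {τ : ℝ} (hτ : 2 ≤ τ) :
    ‖theta τ + (Real.log (τ / (2 * Real.pi)) : ℂ)‖ ≤ 6 / τ := by
  have hτ0 : 0 < τ := by linarith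
  set y : ℝ := τ / 2 with hy
  have hy1 : 1 ≤ y := by rw [hy]; linarith
  have hy0 : 0 < y := by linarith
  have h1 := norm_digamma_quarter hy0.ne'
  have h2 := norm_digamma_quarter (neg_ne_zero.2 hy0.ne')
  rw [abs_of_pos hy0] at h1
  rw [abs_neg, abs_of_pos hy0] at h2
  have e0 : ((-y : ℝ) : ℂ) * I = -(y * I) := by push_cast; ring
  rw [e0, ← sub_eq_add_neg, ← sub_eq_add_neg] at h2
  have h3 := log_add_log hy1
  have e1 : Real.log (τ / (2 * Real.pi)) = Real.log y - Real.log Real.pi := by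
    have : τ / (2 * Real.pi) = y / Real.pi := by rw [hy]; field_simp
    rw [this, Real.log_div hy0.ne' Real.pi_ne_zero]
  have e2 : theta τ + (Real.log (τ / (2 * Real.pi)) : ℂ) =
      -((digamma (1 / 4 + y * I) - log (5 / 4 + y * I)) +
        (digamma (1 / 4 - y * I) - log (5 / 4 - y * I)) +
        (log (5 / 4 + y * I) + log (5 / 4 - y * I) - 2 * (Real.log y : ℂ))) / 2 := by
    simp only [theta, ← hy]
    rw [e1]
    push_cast
    ring
  rw [e2, norm_div, norm_neg]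
  have h4 : ‖(digamma (1 / 4 + y * I) - log (5 / 4 + y * I)) +
        (digamma (1 / 4 - y * I) - log (5 / 4 - y * I)) +
        (log (5 / 4 + y * I) + log (5 / 4 - y * I) - 2 * (Real.log y : ℂ))‖ ≤ 6 / y := by
    refine (norm_add₃_le).trans ?_
    calc _ ≤ 2 / y + 2 / y + 2 / y := by gcongr
      _ = _ := by ring
  have e3 : ‖(2 : ℂ)‖ = 2 := by simp
  rw [e3, div_le_iff₀ (by norm_num)]
  refine h4.trans (le_of_eq ?_)
  rw [hy]
  field_simp

lemma continuousOn_digamma : ContinuousOn digamma {s : ℂ | 0 < s.re} := by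
  have hopen : IsOpen {s : ℂ | 0 < s.re} := isOpen_lt continuous_const Complex.continuous_re
  have hd : DifferentiableOn ℂ Gamma {s : ℂ | 0 < s.re} := fun s hs =>
    (differentiableAt_Gamma_re hs).differentiableWithinAt
  have h1 : ContinuousOn (deriv Gamma) {s : ℂ | 0 < s.re} := (hd.deriv hopen).continuousOn
  rw [digamma_def]
  have : logDeriv Gamma = fun s => deriv Gamma s / Gamma s := by
    funext s; rw [logDeriv_apply]
  rw [this]
  exact h1.div hd.continuousOn fun s hs => Gamma_ne_zero_of_re_pos hs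

lemma continuous_theta : Continuous theta := by
  unfold theta
  have h1 : Continuous fun τ : ℝ => digamma (1 / 4 - (τ / 2 : ℝ) * I) := by
    refine continuousOn_digamma.comp_continuous (by fun_prop) fun τ => ?_
    simp
  have h2 : Continuous fun τ : ℝ => digamma (1 / 4 + (τ / 2 : ℝ) * I) := by
    refine continuousOn_digamma.comp_continuous (by fun_prop) fun τ => ?_
    simp
  exact continuous_const.sub ((h1.add h2).div_const 2)

/-- `χ(1/2 + iτ)` -/
noncomputable def Xr (τ : ℝ) : ℂ := chi (1 / 2 + I * τ)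

lemma Xr_eq (τ : ℝ) : Xr τ = (Real.pi : ℂ) ^ (I * τ) * Gamma (1 / 4 - (τ / 2 : ℝ) * I) /
    Gamma (1 / 4 + (τ / 2 : ℝ) * I) := by
  rw [Xr, chi]
  congr 3
  · ring
  · push_cast; ring
  · push_cast; ring

lemma norm_Xr (τ : ℝ) : ‖Xr τ‖ = 1 := by
  rw [Xr_eq, norm_div, norm_mul, norm_pi_cpow]
  have h1 := norm_Gamma_symm (1 / 4) (τ / 2)
  push_cast at h1 ⊢
  rw [h1]
  have h2 : Gamma (1 / 4 + (τ / 2) * I) ≠ 0 := Gamma_ne_zero_of_re_pos (by simp)
  have h3 : 0 < ‖Gamma (1 / 4 + (τ / 2) * I)‖ := norm_pos_iff.2 h2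
  have h4 : (I * (τ : ℂ)).re = 0 := by simp
  rw [h4, Real.rpow_zero, one_mul, div_self h3.ne']

lemma hasDerivAt_Xr (τ : ℝ) : HasDerivAt Xr (I * theta τ * Xr τ) τ := by
  have e : Xr = fun τ : ℝ => (Real.pi : ℂ) ^ (I * τ) * Gamma (1 / 4 - (τ / 2 : ℝ) * I) /
    Gamma (1 / 4 + (τ / 2 : ℝ) * I) := funext Xr_eq
  have hpi : (Real.pi : ℂ) ≠ 0 := by exact_mod_cast Real.pi_ne_zero
  have h0 : HasDerivAt (fun τ : ℝ => (τ : ℂ)) 1 τ := (hasDerivAt_id τ).ofReal_comp
  have h1 : HasDerivAt (fun τ : ℝ => (Real.pi : ℂ) ^ (I * τ))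
      ((Real.pi : ℂ) ^ (I * τ) * Complex.log Real.pi * I) τ := by
    have hc : HasDerivAt (fun z : ℂ => (Real.pi : ℂ) ^ z)
        ((Real.pi : ℂ) ^ (I * (τ : ℂ)) * Complex.log Real.pi) (I * (τ : ℂ)) := by
      simpa using (hasDerivAt_id (I * (τ : ℂ))).const_cpow (c := (Real.pi : ℂ)) (Or.inl hpi)
    have h := hc.comp τ (h0.const_mul I)
    refine h.congr_deriv ?_
    ring
  have h2 : HasDerivAt (fun τ : ℝ => ((τ / 2 : ℝ) : ℂ) * I) (I / 2) τ := by
    have := (h0.div_const 2).mul_const I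
    have h3 : (fun τ : ℝ => ((τ / 2 : ℝ) : ℂ) * I) = fun τ : ℝ => ((τ : ℂ) / 2) * I := by
      funext x; push_cast; ring
    rw [h3]
    refine this.congr_deriv ?_
    ring
  have hz1 : 0 < (1 / 4 - ((τ / 2 : ℝ) : ℂ) * I).re := by simp
  have hz2 : 0 < (1 / 4 + ((τ / 2 : ℝ) : ℂ) * I).re := by simp
  have h4 : HasDerivAt (fun τ : ℝ => Gamma (1 / 4 - ((τ / 2 : ℝ) : ℂ) * I))
      (deriv Gamma (1 / 4 - ((τ / 2 : ℝ) : ℂ) * I) * (-(I / 2))) τ := by
    have hd := (differentiableAt_Gamma_re hz1).hasDerivAt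
    exact hd.comp τ (h2.const_sub _)
  have h5 : HasDerivAt (fun τ : ℝ => Gamma (1 / 4 + ((τ / 2 : ℝ) : ℂ) * I))
      (deriv Gamma (1 / 4 + ((τ / 2 : ℝ) : ℂ) * I) * (I / 2)) τ := by
    have hd := (differentiableAt_Gamma_re hz2).hasDerivAt
    exact hd.comp τ (h2.const_add _)
  have hG1 := Gamma_ne_zero_of_re_pos hz1
  have hG2 := Gamma_ne_zero_of_re_pos hz2
  have h6 := (h1.mul h4).div h5 hG2
  rw [e]
  refine h6.congr_deriv ?_
  simp only [theta, digamma_def, logDeriv_apply, Pi.mul_apply]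
  rw [← Complex.ofReal_log Real.pi_pos.le]
  generalize deriv Gamma (1 / 4 - ((τ / 2 : ℝ) : ℂ) * I) = d1
  generalize deriv Gamma (1 / 4 + ((τ / 2 : ℝ) : ℂ) * I) = d2
  generalize Gamma (1 / 4 - ((τ / 2 : ℝ) : ℂ) * I) = g1 at hG1 ⊢
  generalize Gamma (1 / 4 + ((τ / 2 : ℝ) : ℂ) * I) = g2 at hG2 ⊢
  field_simp
  ring

lemma continuous_Xr : Continuous Xr :=
  continuous_iff_continuousAt.2 fun τ => (hasDerivAt_Xr τ).continuousAt

lemma Xr_ne_zero (τ : ℝ) : Xr τ ≠ 0 := by
  rw [← norm_pos_iff, norm_Xr]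
  exact one_pos

lemma norm_theta_shift {t v : ℝ} (ht : 4 ≤ t) (hv : |v| ≤ t / 2) :
    ‖theta (t + v) + (Real.log (t / (2 * Real.pi)) : ℂ)‖ ≤ (12 + 2 * |v|) / t := by
  have ht0 : 0 < t := by linarith
  have hv' := abs_le.1 hv
  have h1 : t / 2 ≤ t + v := by linarith
  have h2 : 0 < t + v := by linarith
  have h3 := norm_theta_le (τ := t + v) (by linarith)
  have h4 : 6 / (t + v) ≤ 12 / t := by
    rw [div_le_div_iff₀ h2 ht0]; linarith
  have hpi := Real.pi_pos
  have e1 : Real.log (t / (2 * Real.pi)) - Real.log ((t + v) / (2 * Real.pi)) =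
      -Real.log ((t + v) / t) := by
    rw [Real.log_div ht0.ne' (by positivity), Real.log_div h2.ne' (by positivity),
      Real.log_div h2.ne' ht0.ne']
    ring
  have h5 : |Real.log ((t + v) / t)| ≤ 2 * |v| / t := by
    have hx : 0 < (t + v) / t := by positivity
    rw [abs_le]
    have a1 := Real.log_le_sub_one_of_pos hx
    have a2 := Real.one_sub_inv_le_log_of_pos hx
    have e2 : (t + v) / t - 1 = v / t := by field_simp; ring
    have e3 : 1 - ((t + v) / t)⁻¹ = v / (t + v) := by field_simp; ring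
    rw [e2] at a1
    rw [e3] at a2
    have a3 : |v / (t + v)| ≤ 2 * |v| / t := by
      rw [abs_div, abs_of_pos h2, div_le_div_iff₀ h2 ht0]
      nlinarith [abs_nonneg v]
    have a4 : |v / t| ≤ 2 * |v| / t := by
      rw [abs_div, abs_of_pos ht0]
      gcongr
      linarith [abs_nonneg v]
    constructor
    · linarith [(abs_le.1 a3).1]
    · linarith [(abs_le.1 a4).2]
  have e4 : theta (t + v) + (Real.log (t / (2 * Real.pi)) : ℂ) =
      (theta (t + v) + (Real.log ((t + v) / (2 * Real.pi)) : ℂ)) +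
        ((-Real.log ((t + v) / t) : ℝ) : ℂ) := by
    rw [← e1]; push_cast; ring
  rw [e4]
  refine (norm_add_le _ _).trans ?_
  rw [Complex.norm_real, Real.norm_eq_abs, abs_neg]
  calc _ ≤ 12 / t + 2 * |v| / t := by linarith
    _ = _ := by ring

/-- the normalised quotient -/
noncomputable def rr (g t : ℝ) : ℂ :=
  Xr (t + g) * (Xr t)⁻¹ * exp (I * (g * Real.log (t / (2 * Real.pi)) : ℝ))

lemma norm_rr (g t : ℝ) : ‖rr g t‖ = 1 := by
  rw [rr, norm_mul, norm_mul, norm_inv, norm_Xr, norm_Xr, mul_comm I, Complex.norm_exp_ofReal_mul_I]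
  norm_num

lemma norm_rr_sub_one_le {g t : ℝ} (ht : 4 ≤ t) (hg : |g| ≤ t / 2) :
    ‖rr g t - 1‖ ≤ |g| * ((12 + 2 * |g|) / t) := by
  have ht0 : 0 < t := by linarith
  set L : ℝ := Real.log (t / (2 * Real.pi)) with hL
  have hder : ∀ u : ℝ, HasDerivAt (fun u : ℝ => Xr (t + u * g) * exp (I * (u * g * L : ℝ)))
      (g * I * (theta (t + u * g) + L) * (Xr (t + u * g) * exp (I * (u * g * L : ℝ)))) u := by
    intro u
    have h0 : HasDerivAt (fun u : ℝ => t + u * g) g u := by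
      simpa using ((hasDerivAt_id u).mul_const g).const_add t
    have h1 : HasDerivAt (fun u : ℝ => Xr (t + u * g)) (g • (I * theta (t + u * g) *
        Xr (t + u * g))) u :=
      HasDerivAt.scomp (g₁ := Xr) (h := fun u : ℝ => t + u * g) u (hasDerivAt_Xr (t + u * g)) h0
    have h2 : HasDerivAt (fun u : ℝ => I * ((u * g * L : ℝ) : ℂ)) (I * (g * L : ℝ)) u := by
      have : HasDerivAt (fun u : ℝ => u * g * L) (g * L) u := by
        simpa using ((hasDerivAt_id u).mul_const g).mul_const L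
      exact this.ofReal_comp.const_mul I
    have h3 := h1.mul h2.cexp
    refine h3.congr_deriv ?_
    rw [Complex.real_smul]
    push_cast
    ring
  have hbound : ∀ u ∈ Set.Ico (0:ℝ) 1,
      ‖g * I * (theta (t + u * g) + L) * (Xr (t + u * g) * exp (I * (u * g * L : ℝ)))‖ ≤
        |g| * ((12 + 2 * |g|) / t) := by
    intro u hu
    have e1 : ‖exp (I * (u * g * L : ℝ))‖ = 1 := by
      rw [mul_comm I, Complex.norm_exp_ofReal_mul_I]
    have hug : |u * g| ≤ |g| := by
      rw [abs_mul, abs_of_nonneg hu.1]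
      nlinarith [abs_nonneg g, hu.2]
    rw [norm_mul, norm_mul, norm_mul, norm_mul, norm_Xr, e1, Complex.norm_real, Real.norm_eq_abs,
      Complex.norm_I]
    have h1 := norm_theta_shift ht (hug.trans hg)
    have h2 : (12 + 2 * |u * g|) / t ≤ (12 + 2 * |g|) / t := by gcongr
    have h3 := abs_nonneg g
    calc _ = |g| * ‖theta (t + u * g) + L‖ := by ring
      _ ≤ _ := by gcongr; exact h1.trans h2
  have hmain := norm_image_sub_le_of_norm_deriv_le_segment_01'
    (f := fun u : ℝ => Xr (t + u * g) * exp (I * (u * g * L : ℝ)))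
    (fun u _ => (hder u).hasDerivWithinAt) hbound
  have e2 : rr g t - 1 = (Xr (t + 1 * g) * exp (I * (1 * g * L : ℝ)) -
      Xr (t + 0 * g) * exp (I * (0 * g * L : ℝ))) * (Xr t)⁻¹ := by
    have := Xr_ne_zero t
    rw [rr, ← hL]
    simp only [one_mul, zero_mul, add_zero, Complex.ofReal_zero, mul_zero, Complex.exp_zero,
      mul_one, sub_mul, mul_inv_cancel₀ this]
    ring
  rw [e2, norm_mul, norm_inv, norm_Xr, inv_one, mul_one]
  exact hmain

lemma norm_prod_sub_one_le {ι : Type*} (s : Finset ι) (f : ι → ℂ) (hf : ∀ i, ‖f i‖ = 1) :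
    ‖∏ i ∈ s, f i - 1‖ ≤ ∑ i ∈ s, ‖f i - 1‖ := by
  classical
  induction s using Finset.induction_on with
  | empty => simp
  | insert a s ha ih =>
    rw [Finset.prod_insert ha, Finset.sum_insert ha]
    have e : f a * ∏ i ∈ s, f i - 1 = f a * (∏ i ∈ s, f i - 1) + (f a - 1) := by ring
    rw [e]
    refine (norm_add_le _ _).trans ?_
    rw [norm_mul, hf, one_mul]
    linarith

lemma prod_rr {ι : Type*} (s : Finset ι) (c : ι → ℝ) (t : ℝ) :
    ∏ i ∈ s, rr (c i) t = (∏ i ∈ s, Xr (t + c i)) * ((Xr t)⁻¹) ^ s.card *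
      exp (I * ((∑ i ∈ s, c i) * Real.log (t / (2 * Real.pi)) : ℝ)) := by
  unfold rr
  rw [Finset.prod_mul_distrib, Finset.prod_mul_distrib, Finset.prod_const, ← Complex.exp_sum]
  congr 2
  push_cast
  rw [← Finset.mul_sum, Finset.sum_mul]

lemma hasDerivAt_prod {ι : Type*} (s : Finset ι) (c : ι → ℝ) (t : ℝ) :
    HasDerivAt (fun t : ℝ => ∏ i ∈ s, Xr (t + c i))
      (I * (∑ i ∈ s, theta (t + c i)) * ∏ i ∈ s, Xr (t + c i)) t := by
  classical
  induction s using Finset.induction_on with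
  | empty => simpa using hasDerivAt_const t (1:ℂ)
  | insert a s ha ih =>
    have h1 : HasDerivAt (fun t : ℝ => Xr (t + c a)) (I * theta (t + c a) * Xr (t + c a)) t :=
      (hasDerivAt_Xr (t + c a)).comp_add_const t (c a)
    have h2 := h1.mul ih
    have e : (fun t : ℝ => ∏ i ∈ insert a s, Xr (t + c i)) =
        (fun t : ℝ => Xr (t + c a)) * fun t : ℝ => ∏ i ∈ s, Xr (t + c i) := by
      funext x
      rw [Finset.prod_insert ha]
      rfl
    rw [e]
    refine h2.congr_deriv ?_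
    rw [Finset.prod_insert ha, Finset.sum_insert ha]
    ring

variable {k : ℕ}

lemma X_eq_Xr (t g : ℝ) : X (t : ℂ) (g : ℂ) = Xr (t + g) := by
  rw [X, Xr]
  push_cast
  rfl

lemma G_mul_real (S : Finset (Ix k)) (γ : Ix k → ℝ) (t : ℝ) :
    G S (fun i => (γ i : ℂ)) (t : ℂ) * ∏ j, Xr (t + γ (Sum.inr j)) =
      ∏ i ∈ Sᶜ, Xr (t + γ i) := by
  have h := G_mul S (γ := fun i => (γ i : ℂ)) (t := (t : ℂ)) (fun i => by simp)
  simpa only [X_eq_Xr] using h

lemma prod_ne {ι : Type*} (s : Finset ι) (c : ι → ℝ) (t : ℝ) : ∏ i ∈ s, Xr (t + c i) ≠ 0 :=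
  Finset.prod_ne_zero_iff.2 fun _ _ => Xr_ne_zero _

lemma norm_prod_Xr {ι : Type*} (s : Finset ι) (c : ι → ℝ) (t : ℝ) :
    ‖∏ i ∈ s, Xr (t + c i)‖ = 1 := by
  rw [norm_prod]
  exact Finset.prod_eq_one fun i _ => norm_Xr _

lemma norm_G (S : Finset (Ix k)) (γ : Ix k → ℝ) (t : ℝ) :
    ‖G S (fun i => (γ i : ℂ)) (t : ℂ)‖ = 1 := by
  have h := congrArg norm (G_mul_real S γ t)
  rw [norm_mul, norm_prod_Xr, norm_prod_Xr, mul_one] at h
  exact h

lemma card_compl_eq {S : Finset (Ix k)} (hS : S.card = k) : Sᶜ.card = k := by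
  rw [Finset.card_compl, hS, Fintype.card_sum, Fintype.card_fin]
  omega

lemma pairing_corner (S : Finset (Ix k)) (γ : Ix k → ℝ) :
    pairing (corner S) γ = ∑ i ∈ Sᶜ, γ i - ∑ j, γ (Sum.inr j) := by
  have e1 : ∑ i ∈ Sᶜ, γ i = ∑ i, if i ∈ S then 0 else γ i := by
    rw [← Finset.sum_filter_add_sum_filter_not univ (fun i => i ∈ S)]
    have a1 : ∑ x ∈ univ.filter (fun i => i ∈ S), (if x ∈ S then 0 else γ x) = 0 :=
      Finset.sum_eq_zero fun x hx => by rw [if_pos (Finset.mem_filter.1 hx).2]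
    have a2 : ∑ x ∈ univ.filter (fun i => ¬ i ∈ S), (if x ∈ S then 0 else γ x) =
        ∑ i ∈ Sᶜ, γ i := by
      have : univ.filter (fun i => ¬ i ∈ S) = Sᶜ := by ext; simp
      rw [this]
      exact Finset.sum_congr rfl fun x hx => by rw [if_neg (Finset.mem_compl.1 hx)]
    rw [a1, a2, zero_add]
  rw [e1, Fintype.sum_sum_type, add_sub_assoc, ← Finset.sum_sub_distrib, pairing, sub_eq_add_neg,
    ← Finset.sum_neg_distrib]
  congr 1
  · refine Finset.sum_congr rfl fun j _ => ?_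
    simp only [corner, Sum.elim_inl]
    split_ifs <;> simp
  · refine Finset.sum_congr rfl fun j _ => ?_
    simp only [corner, Sum.elim_inr]
    split_ifs <;> simp

end Stir

open Stir

theorem exists_G_asymp {k : ℕ} (S : Finset (Ix k)) (hS : S.card = k) (γ : Ix k → ℝ) :
    ∃ (h g : ℝ → ℂ) (C t₀ : ℝ), 1 ≤ t₀ ∧ 0 ≤ C ∧
      (∀ t : ℝ, t₀ ≤ t → G S (fun i => (γ i : ℂ)) (t : ℂ) =
        ((t / (2 * Real.pi) : ℝ) : ℂ) ^ (-(I * pairing (corner S) γ)) * h t) ∧
      (∀ t : ℝ, t₀ ≤ t → ‖h t - 1‖ ≤ C / t) ∧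
      (∀ t : ℝ, t₀ ≤ t → HasDerivAt (fun t : ℝ => G S (fun i => (γ i : ℂ)) (t : ℂ)) (g t) t) ∧
      (∀ t : ℝ, t₀ ≤ t → ‖g t‖ ≤ C / t) ∧ ContinuousOn g (Set.Ici t₀) ∧
      Continuous (fun t : ℝ => G S (fun i => (γ i : ℂ)) (t : ℂ)) := by
  set η : ℝ := pairing (corner S) γ with hη
  have hηe : η = ∑ i ∈ Sᶜ, γ i - ∑ j, γ (Sum.inr j) := pairing_corner S γ
  set M : ℝ := ∑ i, |γ i| with hM
  have hM0 : 0 ≤ M := Finset.sum_nonneg fun i _ => abs_nonneg _
  have hMi : ∀ i, |γ i| ≤ M := fun i =>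
    Finset.single_le_sum (f := fun i => |γ i|) (fun i _ => abs_nonneg _) (Finset.mem_univ i)
  have hGeq : ∀ t : ℝ, G S (fun i => (γ i : ℂ)) (t : ℂ) =
      (∏ i ∈ Sᶜ, Xr (t + γ i)) / ∏ j, Xr (t + γ (Sum.inr j)) := fun t => by
    rw [eq_div_iff (prod_ne _ _ _)]
    exact G_mul_real S γ t
  set D : ℝ → ℂ := fun t => ∑ i ∈ Sᶜ, theta (t + γ i) - ∑ j, theta (t + γ (Sum.inr j)) with hD
  have hder : ∀ t : ℝ, HasDerivAt (fun t : ℝ => G S (fun i => (γ i : ℂ)) (t : ℂ))
      (I * D t * G S (fun i => (γ i : ℂ)) (t : ℂ)) t := by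
    intro t
    have h1 := hasDerivAt_prod Sᶜ γ t
    have h2 := hasDerivAt_prod univ (fun j => γ (Sum.inr j)) t
    have h3 := h1.div h2 (prod_ne _ _ _)
    have e : (fun t : ℝ => G S (fun i => (γ i : ℂ)) (t : ℂ)) =
        (fun t : ℝ => ∏ i ∈ Sᶜ, Xr (t + γ i)) / fun t : ℝ => ∏ j, Xr (t + γ (Sum.inr j)) := by
      funext x
      exact hGeq x
    rw [e]
    refine h3.congr_deriv ?_
    rw [hGeq, hD]
    have hne := prod_ne univ (fun j => γ (Sum.inr j)) t
    simp only at hne ⊢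
    generalize ∏ j, Xr (t + γ (Sum.inr j)) = p at hne ⊢
    field_simp
  have hGc : Continuous (fun t : ℝ => G S (fun i => (γ i : ℂ)) (t : ℂ)) :=
    continuous_iff_continuousAt.2 fun t => (hder t).continuousAt
  have hDc : Continuous D := by
    refine Continuous.sub (continuous_finsetSum _ fun i _ => ?_)
      (continuous_finsetSum _ fun i _ => ?_)
    · exact continuous_theta.comp (continuous_id.add continuous_const)
    · exact continuous_theta.comp (continuous_id.add continuous_const)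
  refine ⟨fun t => G S (fun i => (γ i : ℂ)) (t : ℂ) *
    exp (I * (η * Real.log (t / (2 * Real.pi)) : ℝ)),
    fun t => I * D t * G S (fun i => (γ i : ℂ)) (t : ℂ),
    2 * k * ((12 + 2 * M) * (1 + M)), 2 * M + 4, by linarith, by positivity,
    ?_, ?_, fun t _ => hder t, ?_, ((continuous_const.mul hDc).mul hGc).continuousOn, hGc⟩
  · intro t ht
    have ht0 : 0 < t := by linarith
    have hx : 0 < t / (2 * Real.pi) := by positivity
    have hxc : ((t / (2 * Real.pi) : ℝ) : ℂ) ≠ 0 := by exact_mod_cast hx.ne'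
    rw [Complex.cpow_def_of_ne_zero hxc, ← Complex.ofReal_log hx.le, mul_left_comm,
      ← Complex.exp_add]
    have e : (Real.log (t / (2 * Real.pi)) : ℂ) * -(I * η) +
        I * ((η * Real.log (t / (2 * Real.pi)) : ℝ) : ℂ) = 0 := by
      push_cast; ring
    rw [e, Complex.exp_zero, mul_one]
  · intro t ht
    have ht0 : 0 < t := by linarith
    have ht4 : 4 ≤ t := by linarith
    have hg : ∀ i, |γ i| ≤ t / 2 := fun i => by linarith [hMi i]
    have hr : ∀ i, ‖rr (γ i) t - 1‖ ≤ M * ((12 + 2 * M) / t) := fun i => by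
      refine (norm_rr_sub_one_le ht4 (hg i)).trans ?_
      have := hMi i
      gcongr
    have hcard : (univ : Finset (Fin k)).card = k := by simp
    have key : (G S (fun i => (γ i : ℂ)) (t : ℂ) *
        exp (I * (η * Real.log (t / (2 * Real.pi)) : ℝ))) * ∏ j, rr (γ (Sum.inr j)) t =
        ∏ i ∈ Sᶜ, rr (γ i) t := by
      rw [prod_rr, prod_rr, card_compl_eq hS, hcard, ← G_mul_real S γ t]
      have e : exp (I * ((∑ i ∈ Sᶜ, γ i) * Real.log (t / (2 * Real.pi)) : ℝ)) =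
          exp (I * (η * Real.log (t / (2 * Real.pi)) : ℝ)) *
            exp (I * ((∑ j, γ (Sum.inr j)) * Real.log (t / (2 * Real.pi)) : ℝ)) := by
        rw [← Complex.exp_add, hηe]
        congr 1
        push_cast
        ring
      rw [e]
      ring
    have hP1 : ‖∏ j, rr (γ (Sum.inr j)) t‖ = 1 := by
      rw [norm_prod]
      exact Finset.prod_eq_one fun i _ => norm_rr _ _
    have h1 := norm_prod_sub_one_le univ (fun j : Fin k => rr (γ (Sum.inr j)) t)
      (fun _ => norm_rr _ _)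
    have h2 := norm_prod_sub_one_le Sᶜ (fun i => rr (γ i) t) (fun _ => norm_rr _ _)
    have h3 : ∑ j : Fin k, ‖rr (γ (Sum.inr j)) t - 1‖ ≤ k * (M * ((12 + 2 * M) / t)) := by
      refine (Finset.sum_le_card_nsmul _ _ _ fun j _ => hr (Sum.inr j)).trans ?_
      rw [hcard, nsmul_eq_mul]
    have h4 : ∑ i ∈ Sᶜ, ‖rr (γ i) t - 1‖ ≤ k * (M * ((12 + 2 * M) / t)) := by
      refine (Finset.sum_le_card_nsmul _ _ _ fun j _ => hr j).trans ?_
      rw [card_compl_eq hS, nsmul_eq_mul]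
    set H := G S (fun i => (γ i : ℂ)) (t : ℂ) *
        exp (I * (η * Real.log (t / (2 * Real.pi)) : ℝ)) with hH
    have e5 : ‖H - 1‖ = ‖(∏ i ∈ Sᶜ, rr (γ i) t - 1) - (∏ j, rr (γ (Sum.inr j)) t - 1)‖ := by
      rw [← key]
      have : H * ∏ j, rr (γ (Sum.inr j)) t - 1 - (∏ j, rr (γ (Sum.inr j)) t - 1) =
          (H - 1) * ∏ j, rr (γ (Sum.inr j)) t := by ring
      rw [this, norm_mul, hP1, mul_one]
    rw [e5]
    refine (norm_sub_le _ _).trans ?_
    calc _ ≤ k * (M * ((12 + 2 * M) / t)) + k * (M * ((12 + 2 * M) / t)) :=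
          add_le_add (h2.trans h4) (h1.trans h3)
      _ = (2 * k * ((12 + 2 * M) * M)) / t := by ring
      _ ≤ _ := by
          gcongr
          linarith
  · intro t ht
    have ht0 : 0 < t := by linarith
    have ht4 : 4 ≤ t := by linarith
    have hg : ∀ i, |γ i| ≤ t / 2 := fun i => by linarith [hMi i]
    set L : ℂ := (Real.log (t / (2 * Real.pi)) : ℂ) with hL
    have hr : ∀ i, ‖theta (t + γ i) + L‖ ≤ (12 + 2 * M) / t := fun i => by
      refine (norm_theta_shift ht4 (hg i)).trans ?_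
      have := hMi i
      gcongr
    have hcard : (univ : Finset (Fin k)).card = k := by simp
    have e1 : D t = ∑ i ∈ Sᶜ, (theta (t + γ i) + L) - ∑ j, (theta (t + γ (Sum.inr j)) + L) := by
      rw [hD, Finset.sum_add_distrib, Finset.sum_add_distrib, Finset.sum_const, Finset.sum_const,
        card_compl_eq hS, hcard]
      ring
    rw [norm_mul, norm_G, mul_one, norm_mul, Complex.norm_I, one_mul, e1]
    refine (norm_sub_le _ _).trans ?_
    have h3 : ‖∑ j : Fin k, (theta (t + γ (Sum.inr j)) + L)‖ ≤ k * ((12 + 2 * M) / t) := by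
      refine (norm_sum_le _ _).trans
        ((Finset.sum_le_card_nsmul _ _ _ fun j _ => hr (Sum.inr j)).trans ?_)
      rw [hcard, nsmul_eq_mul]
    have h4 : ‖∑ i ∈ Sᶜ, (theta (t + γ i) + L)‖ ≤ k * ((12 + 2 * M) / t) := by
      refine (norm_sum_le _ _).trans
        ((Finset.sum_le_card_nsmul _ _ _ fun j _ => hr j).trans ?_)
      rw [card_compl_eq hS, nsmul_eq_mul]
    calc _ ≤ k * ((12 + 2 * M) / t) + k * ((12 + 2 * M) / t) := add_le_add h4 h3
      _ = (2 * k * ((12 + 2 * M) * 1)) / t := by ring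
      _ ≤ _ := by
          gcongr
          linarith

end Pool.Agent.H26
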