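import Pool.Agent.H26.RG.Kernel

/-!
Averages at the scale `1 / log T`: reading off the coefficients.
-/

namespace Pool.Agent.H26

open Complex MeasureTheory Filter Topology Set Finset

/-- The weight at the scale `1 / L`, `L = log T`. -/
noncomputable def wk (V : ℂ → ℂ) (A s₀ L : ℝ) (z : ℂ) : ℂ :=
  L * V (L * z) * cexp (-(A * L * z ^ 2)) * cexp (I * s₀ * L * z)

lemma differentiable_wk {V : ℂ → ℂ} (hV : Differentiable ℂ V) (A s₀ L : ℝ) :
    Differentiable ℂ (wk V A s₀ L) := by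
  unfold wk
  refine Differentiable.mul (Differentiable.mul (Differentiable.mul (differentiable_const _) ?_)
    ?_) ?_
  · exact hV.comp (differentiable_id.const_mul _)
  · exact Complex.differentiable_exp.comp ((differentiable_id.pow 2).const_mul _).neg
  · exact Complex.differentiable_exp.comp (differentiable_id.const_mul _)

lemma norm_wk_le {V : ℂ → ℂ} {ρ CV : ℝ} (hVb : ∀ z : ℂ, ‖V z‖ ≤ CV * Real.exp (ρ * |z.im|))
    (A s₀ : ℝ) {L : ℝ} (hL : 0 ≤ L) (z : ℂ) :
    ‖wk V A s₀ L z‖ ≤ L * CV * Real.exp (L * (ρ * |z.im| - A * (z.re ^ 2 - z.im ^ 2) -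
      s₀ * z.im)) := by
  unfold wk
  rw [norm_mul, norm_mul, norm_mul, Complex.norm_real, Real.norm_of_nonneg hL, Complex.norm_exp,
    Complex.norm_exp]
  have h1 := hVb (L * z)
  have e1 : ((L : ℂ) * z).im = L * z.im := by simp
  have e2 : (-((A : ℂ) * L * z ^ 2)).re = -(A * L * (z.re ^ 2 - z.im ^ 2)) := by
    have : (-((A : ℂ) * L * z ^ 2)) = ((-(A * L) : ℝ) : ℂ) * z ^ 2 := by push_cast; ring
    rw [this, Complex.re_ofReal_mul, pow_two, Complex.mul_re]
    ring
  have e3 : (I * (s₀ : ℂ) * L * z).re = -(s₀ * L * z.im) := by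
    have : (I * (s₀ : ℂ) * L * z) = ((s₀ * L : ℝ) : ℂ) * (I * z) := by push_cast; ring
    rw [this, Complex.re_ofReal_mul]
    simp
  rw [e1, abs_mul, abs_of_nonneg hL] at h1
  rw [e2, e3]
  calc L * ‖V (L * z)‖ * Real.exp (-(A * L * (z.re ^ 2 - z.im ^ 2))) *
        Real.exp (-(s₀ * L * z.im))
      ≤ L * (CV * Real.exp (ρ * (L * |z.im|))) * Real.exp (-(A * L * (z.re ^ 2 - z.im ^ 2))) *
        Real.exp (-(s₀ * L * z.im)) := by gcongr
    _ = L * CV * (Real.exp (ρ * (L * |z.im|)) * Real.exp (-(A * L * (z.re ^ 2 - z.im ^ 2))) *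
        Real.exp (-(s₀ * L * z.im))) := by ring
    _ = _ := by
        rw [← Real.exp_add, ← Real.exp_add]
        congr 2
        ring

/-- On the real line the weight is at most `L ‖V (L x)‖`. -/
lemma norm_wk_real_le (V : ℂ → ℂ) {A : ℝ} (hA : 0 ≤ A) (s₀ : ℝ) {L : ℝ} (hL : 0 ≤ L) (x : ℝ) :
    ‖wk V A s₀ L x‖ ≤ L * ‖V (L * x)‖ := by
  unfold wk
  rw [norm_mul, norm_mul, norm_mul, Complex.norm_real, Real.norm_of_nonneg hL, Complex.norm_exp,
    Complex.norm_exp]
  have e2 : (-((A : ℂ) * L * (x : ℂ) ^ 2)).re = -(A * L * x ^ 2) := by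
    have : (-((A : ℂ) * L * (x : ℂ) ^ 2)) = ((-(A * L * x ^ 2) : ℝ) : ℂ) := by push_cast; ring
    rw [this, Complex.ofReal_re]
  have e3 : (I * (s₀ : ℂ) * L * x).re = 0 := by
    have : (I * (s₀ : ℂ) * L * x) = ((s₀ * L * x : ℝ) : ℂ) * I := by push_cast; ring
    rw [this, Complex.re_ofReal_mul]
    simp
  rw [e2, e3, Real.exp_zero, mul_one]
  have h1 : Real.exp (-(A * L * x ^ 2)) ≤ 1 := Real.exp_le_one_iff.2 (by
    have : 0 ≤ A * L * x ^ 2 := by positivity
    linarith)
  exact mul_le_of_le_one_right (by positivity) h1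

section limit

variable {κ : Type*} [DecidableEq κ] {Λ : Finset κ} {N ω : κ → ℝ} {s₀ ρ A : ℝ}
  {V : ℂ → ℂ} {φ : ℝ → ℝ} {CV : ℝ}

lemma tendsto_J (hA : 0 < A) (hVd : Differentiable ℂ V) (hVi : Integrable (fun x : ℝ => V x))
    (hVf : ∀ s : ℝ, ∫ y : ℝ, V y * cexp (-(I * s * y)) = 2 * Real.pi * φ s) {r' : ℝ}
    (hr' : 0 < r') {b : ℝ → ℂ} (hb : ContinuousOn b (Icc (-r') r')) (ν : ℝ) :
    Tendsto (fun L : ℝ => ∫ x in Icc (-r') r', wk V A s₀ L x * (b x *
      cexp (-(I * (x * ν : ℝ) * L)))) atTop (𝓝 (2 * Real.pi * φ (ν - s₀) * b 0)) := by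
  obtain ⟨B, hB⟩ := isCompact_Icc.exists_bound_of_continuousOn hb
  have hB0 : 0 ≤ B := (norm_nonneg _).trans (hB 0 ⟨by linarith, hr'.le⟩)
  have hVc : Continuous fun x : ℝ => V x := hVd.continuous.comp Complex.continuous_ofReal
  set h : ℝ → ℝ → ℂ := fun L y => (Icc (-(r' * L)) (r' * L)).indicator
    (fun y => V y * cexp (-(A * y ^ 2 / L)) * cexp (-(I * (ν - s₀ : ℝ) * y)) * b (y / L)) y with hh
  have e1 : ∀ᶠ L : ℝ in atTop, (∫ x in Icc (-r') r', wk V A s₀ L x * (b x *
      cexp (-(I * (x * ν : ℝ) * L)))) = ∫ y : ℝ, h L y := by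
    filter_upwards [eventually_gt_atTop 0] with L hL
    have hLc : (L : ℂ) ≠ 0 := by exact_mod_cast hL.ne'
    have h2 : ∫ y : ℝ, h L y = ∫ x : ℝ, (L : ℂ) * h L (L * x) := by
      rw [integral_const_mul, Measure.integral_comp_mul_left, abs_of_pos (inv_pos.2 hL)]
      rw [Complex.real_smul, ← mul_assoc, Complex.ofReal_inv, mul_inv_cancel₀ hLc, one_mul]
    rw [h2, ← integral_indicator measurableSet_Icc]
    congr 1
    funext x
    by_cases hx : x ∈ Icc (-r') r'
    · have hx' : L * x ∈ Icc (-(r' * L)) (r' * L) := by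
        constructor
        · nlinarith [hx.1]
        · nlinarith [hx.2]
      rw [indicator_of_mem hx, hh]
      simp only
      rw [indicator_of_mem hx', wk, mul_div_cancel_left₀ x hL.ne']
      have e3 : cexp (-((A : ℂ) * L * (x : ℂ) ^ 2)) =
          cexp (-((A : ℂ) * ((L * x : ℝ) : ℂ) ^ 2 / L)) := by
        congr 1
        push_cast
        field_simp
      have e4 : cexp (I * s₀ * L * x) * cexp (-(I * (x * ν : ℝ) * L)) =
          cexp (-(I * (ν - s₀ : ℝ) * ((L * x : ℝ) : ℂ))) := by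
        rw [← Complex.exp_add]
        congr 1
        push_cast
        ring
      rw [e3, ← e4]
      push_cast
      ring
    · have hx' : L * x ∉ Icc (-(r' * L)) (r' * L) := by
        intro hmem
        apply hx
        constructor
        · by_contra hlt
          push Not at hlt
          have := mul_lt_mul_of_pos_left hlt hL
          linarith [hmem.1]
        · by_contra hlt
          push Not at hlt
          have := mul_lt_mul_of_pos_left hlt hL
          linarith [hmem.2]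
      rw [indicator_of_notMem hx, hh]
      simp only
      rw [indicator_of_notMem hx', mul_zero]
  have hlim : Tendsto (fun L : ℝ => ∫ y : ℝ, h L y) atTop
      (𝓝 (∫ y : ℝ, V y * cexp (-(I * (ν - s₀ : ℝ) * y)) * b 0)) := by
    refine tendsto_integral_filter_of_dominated_convergence (fun y : ℝ => ‖V y‖ * B) ?_ ?_
      (hVi.norm.mul_const B) ?_
    · filter_upwards [eventually_gt_atTop 0] with L hL
      have hLc : (L : ℂ) ≠ 0 := by exact_mod_cast hL.ne'
      rw [hh]
      refine (aestronglyMeasurable_indicator_iff measurableSet_Icc).2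
        (ContinuousOn.aestronglyMeasurable ?_ measurableSet_Icc)
      refine ContinuousOn.mul (Continuous.continuousOn ?_) ?_
      · exact (hVc.mul (by fun_prop)).mul (by fun_prop)
      · refine hb.comp (by fun_prop) fun y hy => ⟨?_, ?_⟩
        · rw [le_div_iff₀ hL]; linarith [hy.1]
        · rw [div_le_iff₀ hL]; exact hy.2
    · filter_upwards [eventually_gt_atTop 0] with L hL
      refine Eventually.of_forall fun y => ?_
      rw [hh]
      simp only
      by_cases hy : y ∈ Icc (-(r' * L)) (r' * L)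
      · rw [indicator_of_mem hy, norm_mul, norm_mul, norm_mul]
        have h3 : ‖cexp (-((A : ℂ) * y ^ 2 / L))‖ ≤ 1 := by
          rw [Complex.norm_exp]
          have : (-((A : ℂ) * y ^ 2 / L)) = ((-(A * y ^ 2 / L) : ℝ) : ℂ) := by push_cast; ring
          rw [this, Complex.ofReal_re]
          refine Real.exp_le_one_iff.2 ?_
          have : 0 ≤ A * y ^ 2 / L := by positivity
          linarith
        have h4 : ‖cexp (-(I * ((ν - s₀ : ℝ) : ℂ) * y))‖ = 1 := by
          have : (-(I * ((ν - s₀ : ℝ) : ℂ) * y)) = ((-((ν - s₀) * y) : ℝ) : ℂ) * I := by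
            push_cast; ring
          rw [this, Complex.norm_exp_ofReal_mul_I]
        have h5 : ‖b (y / L)‖ ≤ B := by
          refine hB _ ⟨?_, ?_⟩
          · rw [le_div_iff₀ hL]; linarith [hy.1]
          · rw [div_le_iff₀ hL]; exact hy.2
        rw [h4, mul_one]
        calc ‖V y‖ * ‖cexp (-((A : ℂ) * y ^ 2 / L))‖ * ‖b (y / L)‖ ≤ ‖V y‖ * 1 * B := by gcongr
          _ = _ := by ring
      · rw [indicator_of_notMem hy, norm_zero]
        positivity
    · refine Eventually.of_forall fun y => ?_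
      have h3 : Tendsto (fun L : ℝ => y / L) atTop (𝓝 0) := tendsto_const_nhds.div_atTop tendsto_id
      have h4 : Tendsto (fun L : ℝ => b (y / L)) atTop (𝓝 (b 0)) := by
        have h5 : ContinuousAt b 0 := (hb 0 ⟨by linarith, hr'.le⟩).continuousAt
          (Icc_mem_nhds (by linarith) hr')
        exact h5.tendsto.comp h3
      have h6 : Tendsto (fun L : ℝ => cexp (-((A : ℂ) * y ^ 2 / L))) atTop (𝓝 1) := by
        have h7 : Tendsto (fun L : ℝ => -((A : ℂ) * y ^ 2 / L)) atTop (𝓝 0) := by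
          have h8 : Tendsto (fun L : ℝ => -(A * y ^ 2 / L)) atTop (𝓝 0) := by
            have := (tendsto_const_nhds (x := A * y ^ 2)).div_atTop tendsto_id
            simpa using this.neg
          have := (Complex.continuous_ofReal.tendsto 0).comp h8
          rw [Complex.ofReal_zero] at this
          refine this.congr fun L => ?_
          simp
        have := (Complex.continuous_exp.tendsto 0).comp h7
        rw [Complex.exp_zero] at this
        exact this
      have h9 : Tendsto (fun L : ℝ => V y * cexp (-((A : ℂ) * y ^ 2 / L)) *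
          cexp (-(I * (ν - s₀ : ℝ) * y)) * b (y / L)) atTop
          (𝓝 (V y * 1 * cexp (-(I * (ν - s₀ : ℝ) * y)) * b 0)) :=
        ((h6.const_mul _).mul_const _).mul h4
      rw [mul_one] at h9
      refine h9.congr' ?_
      have h10 : ∀ᶠ L : ℝ in atTop, |y| ≤ r' * L := by
        filter_upwards [eventually_ge_atTop (|y| / r')] with L hL
        rw [div_le_iff₀ hr'] at hL
        linarith
      filter_upwards [h10] with L hL
      rw [hh]
      simp only
      rw [indicator_of_mem (show y ∈ Icc (-(r' * L)) (r' * L) from abs_le.1 hL)]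
  have hval : ∫ y : ℝ, V y * cexp (-(I * (ν - s₀ : ℝ) * y)) * b 0 =
      2 * Real.pi * φ (ν - s₀) * b 0 := by
    rw [integral_mul_const, hVf]
  rw [hval] at hlim
  exact hlim.congr' (e1.mono fun L hL => hL.symm)

lemma pow_mul_exp_le (K : ℕ) {c : ℝ} (hc : 0 < c) (x : ℝ) :
    (1 + |x|) ^ K * Real.exp (-(c * x ^ 2)) ≤
      Real.exp ((K:ℝ) ^ 2 / (2 * c)) * Real.exp (-(c / 2 * x ^ 2)) := by
  have h1 : (1 + |x|) ^ K ≤ Real.exp (K * |x|) := by
    rw [Real.exp_nat_mul]
    have := Real.add_one_le_exp |x|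
    gcongr
    linarith
  have h2 : (K:ℝ) * |x| ≤ (K:ℝ) ^ 2 / (2 * c) + c / 2 * x ^ 2 := by
    have h3 : 0 ≤ (K / c - |x|) ^ 2 * (c / 2) := by positivity
    have h4 : (K / c - |x|) ^ 2 * (c / 2) = (K:ℝ) ^ 2 / (2 * c) - K * |x| + c / 2 * x ^ 2 := by
      rw [sub_sq, sq_abs]
      field_simp
    linarith
  calc (1 + |x|) ^ K * Real.exp (-(c * x ^ 2))
      ≤ Real.exp (K * |x|) * Real.exp (-(c * x ^ 2)) := by gcongr
    _ = Real.exp (K * |x| - c * x ^ 2) := by rw [← Real.exp_add]; ring_nf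
    _ ≤ Real.exp ((K:ℝ) ^ 2 / (2 * c) - c / 2 * x ^ 2) := Real.exp_le_exp.2 (by linarith)
    _ = _ := by rw [← Real.exp_add]; ring_nf

lemma integrable_pow_mul_exp (K : ℕ) {c : ℝ} (hc : 0 < c) :
    Integrable (fun x : ℝ => (1 + |x|) ^ K * Real.exp (-(c * x ^ 2))) := by
  refine Integrable.mono' ((integrable_exp_neg_mul_sq (half_pos hc)).const_mul
    (Real.exp ((K:ℝ) ^ 2 / (2 * c)))) ?_ ?_
  · exact Continuous.aestronglyMeasurable (by fun_prop)
  · refine Eventually.of_forall fun x => ?_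
    rw [Real.norm_of_nonneg (by positivity)]
    have := pow_mul_exp_le K hc x
    simpa [neg_mul] using this

/-- Reading off the coefficients from small averages. -/
theorem avg_limit (hω : Set.InjOn ω Λ) (hA : 0 < A) (hCV : 0 ≤ CV)
    (hVd : Differentiable ℂ V)
    (hVb : ∀ z : ℂ, ‖V z‖ ≤ CV * Real.exp (ρ * |z.im|)) (hVi : Integrable (fun x : ℝ => V x))
    (hφ0 : φ 0 = 1)
    (hVf : ∀ s : ℝ, ∫ y : ℝ, V y * cexp (-(I * s * y)) = 2 * Real.pi * φ s)
    {f : ℝ → ℝ → ℂ} (hfc : ∀ L, 1 ≤ L → Continuous (f L)) {r a C : ℝ} (hr : 0 < r) (ha : a < 1)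
    {b : κ → ℝ → ℂ} (hb : ∀ θ ∈ Λ, ContinuousOn (b θ) (Ioo (-r) r))
    (h1 : ∀ x, |x| < r → ∀ L, 1 ≤ L → ‖f L x - ∑ θ ∈ Λ, b θ x *
      ((Real.exp L : ℂ) * cexp (-(I * (ω θ + x * N θ : ℝ) * L)))‖ ≤ C * Real.exp (a * L))
    {K : ℕ} (h2 : ∀ ε : ℝ, 0 < ε → ∀ κ' : ℝ, 0 < κ' → ∃ C' : ℝ, ∀ x L : ℝ, 1 ≤ L →
      ‖f L x‖ ≤ C' * (1 + |x|) ^ K * Real.exp ((1 + ε + κ' * x ^ 2) * L))
    (h5 : Tendsto (fun L : ℝ => (Real.exp (-L) : ℂ) * ∫ x : ℝ, wk V A s₀ L x * f L x) atTop
      (𝓝 0)) :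
    ∀ θ ∈ Λ, N θ = s₀ → b θ 0 = 0 := by
  set r' : ℝ := r / 2 with hr'
  have hr'0 : 0 < r' := by positivity
  set S : Set ℝ := Icc (-r') r' with hS
  have hSm : MeasurableSet S := measurableSet_Icc
  have hSr : ∀ x ∈ S, |x| < r := fun x hx => (abs_le.2 hx).trans_lt (by linarith)
  have hVc : Continuous fun x : ℝ => V x := hVd.continuous.comp Complex.continuous_ofReal
  have hC0 : 0 ≤ C := by
    have := (norm_nonneg _).trans (h1 0 (by simpa using hr) 1 le_rfl)
    by_contra hneg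
    push Not at hneg
    have h3 : C * Real.exp (a * 1) < 0 := mul_neg_of_neg_of_pos hneg (Real.exp_pos _)
    linarith
  obtain ⟨C', hC'⟩ := h2 (A * r' ^ 2 / 4) (by positivity) (A / 4) (by positivity)
  have hC'0 : 0 ≤ C' := by
    have h3 := (norm_nonneg _).trans (hC' 0 1 le_rfl)
    by_contra hneg
    push Not at hneg
    have h4 : C' * (1 + |(0:ℝ)|) ^ K *
        Real.exp ((1 + A * r' ^ 2 / 4 + A / 4 * 0 ^ 2) * 1) < 0 := by
      rw [abs_zero, add_zero, one_pow, mul_one]
      exact mul_neg_of_neg_of_pos hneg (Real.exp_pos _)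
    linarith
  have hwc : ∀ L, Continuous fun x : ℝ => wk V A s₀ L x := fun L =>
    (differentiable_wk hVd A s₀ L).continuous.comp Complex.continuous_ofReal
  -- pointwise bound for the product
  have hprod : ∀ L, 1 ≤ L → ∀ x : ℝ, ‖wk V A s₀ L x * f L x‖ ≤
      L * CV * C' * Real.exp L * (Real.exp (L * (A * r' ^ 2 / 4 - 3 * A / 4 * x ^ 2)) *
        (1 + |x|) ^ K) := by
    intro L hL x
    have hL0 : 0 ≤ L := by linarith
    have h3 := norm_wk_le hVb A s₀ hL0 (x : ℂ)
    have h4 := hC' x L hL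
    rw [Complex.ofReal_im, Complex.ofReal_re, abs_zero] at h3
    rw [norm_mul]
    calc _ ≤ (L * CV * Real.exp (L * (ρ * 0 - A * (x ^ 2 - 0 ^ 2) - s₀ * 0))) *
          (C' * (1 + |x|) ^ K * Real.exp ((1 + A * r' ^ 2 / 4 + A / 4 * x ^ 2) * L)) := by
          gcongr
      _ = L * CV * C' * (1 + |x|) ^ K * (Real.exp (L * (ρ * 0 - A * (x ^ 2 - 0 ^ 2) - s₀ * 0)) *
          Real.exp ((1 + A * r' ^ 2 / 4 + A / 4 * x ^ 2) * L)) := by ring
      _ = L * CV * C' * (1 + |x|) ^ K * (Real.exp L *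
          Real.exp (L * (A * r' ^ 2 / 4 - 3 * A / 4 * x ^ 2))) := by
          rw [← Real.exp_add, ← Real.exp_add]
          congr 2
          ring
      _ = _ := by ring
  have hprod2 : ∀ L, 1 ≤ L → ∀ x : ℝ, ‖wk V A s₀ L x * f L x‖ ≤
      L * CV * C' * Real.exp L * Real.exp (L * (A * r' ^ 2 / 4)) *
        ((1 + |x|) ^ K * Real.exp (-(3 * A / 4 * x ^ 2))) := by
    intro L hL x
    refine (hprod L hL x).trans ?_
    have hL0 : 0 ≤ L := by linarith
    have h3 : Real.exp (L * (A * r' ^ 2 / 4 - 3 * A / 4 * x ^ 2)) ≤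
        Real.exp (L * (A * r' ^ 2 / 4)) * Real.exp (-(3 * A / 4 * x ^ 2)) := by
      rw [← Real.exp_add]
      refine Real.exp_le_exp.2 ?_
      have : 0 ≤ (L - 1) * (3 * A / 4 * x ^ 2) := mul_nonneg (by linarith) (by positivity)
      linarith
    calc _ ≤ L * CV * C' * Real.exp L * ((Real.exp (L * (A * r' ^ 2 / 4)) *
          Real.exp (-(3 * A / 4 * x ^ 2))) * (1 + |x|) ^ K) := by gcongr
      _ = _ := by ring
  have hint : ∀ L, 1 ≤ L → Integrable (fun x : ℝ => wk V A s₀ L x * f L x) := by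
    intro L hL
    refine Integrable.mono' ((integrable_pow_mul_exp K (c := 3 * A / 4) (by positivity)).const_mul
      (L * CV * C' * Real.exp L * Real.exp (L * (A * r' ^ 2 / 4)))) ?_ ?_
    · exact ((hwc L).mul (hfc L hL)).aestronglyMeasurable
    · exact Eventually.of_forall fun x => hprod2 L hL x
  -- tail
  set D : ℝ := ∫ x : ℝ, (1 + |x|) ^ K * Real.exp (-(A / 4 * x ^ 2)) with hD
  have hDi := integrable_pow_mul_exp K (c := A / 4) (by positivity)
  have hD0 : 0 ≤ D := integral_nonneg fun x => by positivity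
  have htail : ∀ L, 1 ≤ L → ‖∫ x in Sᶜ, wk V A s₀ L x * f L x‖ ≤
      Real.exp L * ((CV * C' * D) * (L * Real.exp (-(A * r' ^ 2 / 4 * L)))) := by
    intro L hL
    have hL0 : 0 ≤ L := by linarith
    have h3 : ‖∫ x in Sᶜ, wk V A s₀ L x * f L x‖ ≤ ∫ x in Sᶜ, L * CV * C' * Real.exp L *
        Real.exp (-(A * r' ^ 2 / 4 * L)) * ((1 + |x|) ^ K * Real.exp (-(A / 4 * x ^ 2))) := by
      refine norm_integral_le_of_norm_le (hDi.const_mul _).integrableOn ?_
      rw [ae_restrict_iff' hSm.compl]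
      refine Eventually.of_forall fun x hx => ?_
      have hxr : r' ^ 2 ≤ x ^ 2 := by
        have h4 : r' < |x| := by
          by_contra hle
          push Not at hle
          exact hx (abs_le.1 hle)
        rw [← sq_abs x]
        gcongr
      refine (hprod L hL x).trans ?_
      have h4 : Real.exp (L * (A * r' ^ 2 / 4 - 3 * A / 4 * x ^ 2)) ≤
          Real.exp (-(A * r' ^ 2 / 4 * L)) * Real.exp (-(A / 4 * x ^ 2)) := by
        rw [← Real.exp_add]
        refine Real.exp_le_exp.2 ?_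
        have h5 : 0 ≤ (L - 1) * (A / 4 * x ^ 2) := mul_nonneg (by linarith) (by positivity)
        have h6 : 0 ≤ L * A * (x ^ 2 - r' ^ 2) := by
          have : 0 ≤ x ^ 2 - r' ^ 2 := by linarith
          positivity
        linarith
      calc _ ≤ L * CV * C' * Real.exp L * ((Real.exp (-(A * r' ^ 2 / 4 * L)) *
            Real.exp (-(A / 4 * x ^ 2))) * (1 + |x|) ^ K) := by gcongr
        _ = _ := by ring
    refine h3.trans ?_
    rw [integral_const_mul]
    have h4 : ∫ x in Sᶜ, (1 + |x|) ^ K * Real.exp (-(A / 4 * x ^ 2)) ≤ D :=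
      setIntegral_le_integral hDi (Eventually.of_forall fun x => by positivity)
    calc L * CV * C' * Real.exp L * Real.exp (-(A * r' ^ 2 / 4 * L)) *
          ∫ x in Sᶜ, (1 + |x|) ^ K * Real.exp (-(A / 4 * x ^ 2))
        ≤ L * CV * C' * Real.exp L * Real.exp (-(A * r' ^ 2 / 4 * L)) * D := by gcongr
      _ = _ := by ring
  -- the local error
  set CI : ℝ := ∫ x : ℝ, ‖V x‖ with hCI
  have hlocc : ∀ θ ∈ Λ, ContinuousOn (b θ) S := fun θ hθ => (hb θ hθ).mono fun x hx => by
    have := abs_lt.1 (hSr x hx)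
    exact ⟨this.1, this.2⟩
  have hmainc : ∀ L, ContinuousOn (fun x : ℝ => ∑ θ ∈ Λ, b θ x *
      ((Real.exp L : ℂ) * cexp (-(I * (ω θ + x * N θ : ℝ) * L)))) S := by
    intro L
    refine continuousOn_finsetSum _ fun θ hθ => (hlocc θ hθ).mul (Continuous.continuousOn ?_)
    fun_prop
  have hloc : ∀ L, 1 ≤ L → ‖∫ x in S, wk V A s₀ L x * (f L x - ∑ θ ∈ Λ, b θ x *
      ((Real.exp L : ℂ) * cexp (-(I * (ω θ + x * N θ : ℝ) * L))))‖ ≤
      C * CI * Real.exp (a * L) := by
    intro L hL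
    have hL0 : 0 < L := by linarith
    have hVL : Integrable (fun x : ℝ => L * ‖V (L * x)‖) := by
      have h3 : Integrable (fun x : ℝ => ‖V ((L * x : ℝ) : ℂ)‖) :=
        (hVi.norm).comp_mul_left' hL0.ne'
      refine (h3.const_mul L).congr (Eventually.of_forall fun x => ?_)
      simp
    have h3 : ‖∫ x in S, wk V A s₀ L x * (f L x - ∑ θ ∈ Λ, b θ x *
        ((Real.exp L : ℂ) * cexp (-(I * (ω θ + x * N θ : ℝ) * L))))‖ ≤
        ∫ x in S, C * Real.exp (a * L) * (L * ‖V (L * x)‖) := by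
      refine norm_integral_le_of_norm_le (hVL.const_mul _).integrableOn ?_
      rw [ae_restrict_iff' hSm]
      refine Eventually.of_forall fun x hx => ?_
      rw [norm_mul]
      have h4 := norm_wk_real_le V hA.le s₀ hL0.le x
      have h5 := h1 x (hSr x hx) L hL
      calc _ ≤ (L * ‖V (L * x)‖) * (C * Real.exp (a * L)) := by gcongr
        _ = _ := by ring
    refine h3.trans ?_
    rw [integral_const_mul]
    have h4 : ∫ x in S, L * ‖V (L * x)‖ ≤ CI := by
      refine (setIntegral_le_integral hVL (Eventually.of_forall fun x => by positivity)).trans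
        (le_of_eq ?_)
      have h5 : ∫ x : ℝ, L * ‖V (L * x)‖ = L * ∫ x : ℝ, ‖V ((L * x : ℝ) : ℂ)‖ := by
        rw [integral_const_mul]
        simp
      rw [h5, Measure.integral_comp_mul_left (fun y : ℝ => ‖V (y : ℂ)‖) L,
        abs_of_pos (inv_pos.2 hL0), smul_eq_mul, ← mul_assoc, mul_inv_cancel₀ hL0.ne', one_mul]
    calc C * Real.exp (a * L) * ∫ x in S, L * ‖V (L * x)‖ ≤ C * Real.exp (a * L) * CI := by
          gcongr
      _ = _ := by ring
  -- main term
  have hmain : ∀ L : ℝ, (Real.exp (-L) : ℂ) * ∫ x in S, wk V A s₀ L x * (∑ θ ∈ Λ, b θ x *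
      ((Real.exp L : ℂ) * cexp (-(I * (ω θ + x * N θ : ℝ) * L)))) =
      ∑ θ ∈ Λ, cexp (-(I * ω θ * L)) * ∫ x in S, wk V A s₀ L x * (b θ x *
        cexp (-(I * (x * N θ : ℝ) * L))) := by
    intro L
    have e1 : ∀ x : ℝ, wk V A s₀ L x * (∑ θ ∈ Λ, b θ x *
        ((Real.exp L : ℂ) * cexp (-(I * (ω θ + x * N θ : ℝ) * L)))) =
        ∑ θ ∈ Λ, (Real.exp L : ℂ) * cexp (-(I * ω θ * L)) * (wk V A s₀ L x * (b θ x *
        cexp (-(I * (x * N θ : ℝ) * L)))) := by
      intro x
      rw [Finset.mul_sum]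
      refine Finset.sum_congr rfl fun θ _ => ?_
      have e2 : cexp (-(I * (ω θ + x * N θ : ℝ) * L)) =
          cexp (-(I * ω θ * L)) * cexp (-(I * (x * N θ : ℝ) * L)) := by
        rw [← Complex.exp_add]
        congr 1
        push_cast
        ring
      rw [e2]
      ring
    rw [setIntegral_congr_fun hSm (fun x _ => e1 x), integral_finsetSum, Finset.mul_sum]
    · refine Finset.sum_congr rfl fun θ _ => ?_
      rw [integral_const_mul]
      have e3 : (Real.exp (-L) : ℂ) * (Real.exp L : ℂ) = 1 := by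
        rw [← Complex.ofReal_mul, ← Real.exp_add, neg_add_cancel, Real.exp_zero,
          Complex.ofReal_one]
      calc _ = ((Real.exp (-L) : ℂ) * (Real.exp L : ℂ)) * (cexp (-(I * ω θ * L)) *
            ∫ x in S, wk V A s₀ L x * (b θ x * cexp (-(I * (x * N θ : ℝ) * L)))) := by ring
        _ = _ := by rw [e3, one_mul]
    · intro θ hθ
      refine ContinuousOn.integrableOn_compact isCompact_Icc ?_
      refine ContinuousOn.mul continuousOn_const ?_
      refine ((hwc L).continuousOn).mul ((hlocc θ hθ).mul (Continuous.continuousOn ?_))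
      fun_prop
  -- assemble
  have hsplit : ∀ L : ℝ, 1 ≤ L → ∑ θ ∈ Λ, cexp (-(I * ω θ * L)) * ∫ x in S, wk V A s₀ L x * (b θ x *
        cexp (-(I * (x * N θ : ℝ) * L))) =
      (Real.exp (-L) : ℂ) * (∫ x : ℝ, wk V A s₀ L x * f L x) -
      (Real.exp (-L) : ℂ) * (∫ x in Sᶜ, wk V A s₀ L x * f L x) -
      (Real.exp (-L) : ℂ) * ∫ x in S, wk V A s₀ L x * (f L x - ∑ θ ∈ Λ, b θ x *
      ((Real.exp L : ℂ) * cexp (-(I * (ω θ + x * N θ : ℝ) * L)))) := by
    intro L hL
    rw [← hmain L, ← integral_add_compl hSm (hint L hL)]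
    have e4 : ∫ x in S, wk V A s₀ L x * (f L x - ∑ θ ∈ Λ, b θ x *
        ((Real.exp L : ℂ) * cexp (-(I * (ω θ + x * N θ : ℝ) * L)))) =
        (∫ x in S, wk V A s₀ L x * f L x) - ∫ x in S, wk V A s₀ L x * (∑ θ ∈ Λ, b θ x *
        ((Real.exp L : ℂ) * cexp (-(I * (ω θ + x * N θ : ℝ) * L)))) := by
      rw [← integral_sub (hint L hL).integrableOn]
      · refine setIntegral_congr_fun hSm fun x _ => ?_
        ring
      · exact ContinuousOn.integrableOn_compact isCompact_Icc
          ((hwc L).continuousOn.mul (hmainc L))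
    rw [e4]
    ring
  have hexp : ∀ L : ℝ, ‖(Real.exp (-L) : ℂ)‖ = Real.exp (-L) := fun L => by
    rw [Complex.norm_real, Real.norm_of_nonneg (Real.exp_pos _).le]
  have ht2 : Tendsto (fun L : ℝ => (Real.exp (-L) : ℂ) * ∫ x in Sᶜ, wk V A s₀ L x * f L x) atTop
      (𝓝 0) := by
    have hc : 0 < A * r' ^ 2 / 4 := by positivity
    have h3 : Tendsto (fun L : ℝ => (CV * C' * D) * (L * Real.exp (-(A * r' ^ 2 / 4 * L)))) atTop
        (𝓝 ((CV * C' * D) * 0)) := by
      refine Tendsto.const_mul _ ?_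
      have h4 := Real.tendsto_pow_mul_exp_neg_atTop_nhds_zero 1
      have h5 := (h4.comp (tendsto_id.const_mul_atTop hc)).const_mul (A * r' ^ 2 / 4)⁻¹
      rw [mul_zero] at h5
      refine h5.congr fun L => ?_
      simp only [Function.comp_def, id, pow_one]
      field_simp
    rw [mul_zero] at h3
    refine squeeze_zero_norm' ?_ h3
    filter_upwards [eventually_ge_atTop 1] with L hL
    rw [norm_mul, hexp]
    calc _ ≤ Real.exp (-L) * (Real.exp L * ((CV * C' * D) *
          (L * Real.exp (-(A * r' ^ 2 / 4 * L))))) := by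
          have := htail L hL
          gcongr
      _ = (Real.exp (-L) * Real.exp L) * ((CV * C' * D) *
          (L * Real.exp (-(A * r' ^ 2 / 4 * L)))) := by ring
      _ = _ := by rw [← Real.exp_add, neg_add_cancel, Real.exp_zero, one_mul]
  have ht3 : Tendsto (fun L : ℝ => (Real.exp (-L) : ℂ) * ∫ x in S, wk V A s₀ L x *
      (f L x - ∑ θ ∈ Λ, b θ x * ((Real.exp L : ℂ) * cexp (-(I * (ω θ + x * N θ : ℝ) * L)))))
      atTop (𝓝 0) := by
    have h3 : Tendsto (fun L : ℝ => C * CI * Real.exp (-((1 - a) * L))) atTop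
        (𝓝 (C * CI * 0)) := by
      refine Tendsto.const_mul _ ?_
      exact Real.tendsto_exp_neg_atTop_nhds_zero.comp (tendsto_id.const_mul_atTop (by linarith))
    rw [mul_zero] at h3
    refine squeeze_zero_norm' ?_ h3
    filter_upwards [eventually_ge_atTop 1] with L hL
    rw [norm_mul, hexp]
    calc _ ≤ Real.exp (-L) * (C * CI * Real.exp (a * L)) := by
          have := hloc L hL
          gcongr
      _ = C * CI * (Real.exp (-L) * Real.exp (a * L)) := by ring
      _ = _ := by rw [← Real.exp_add]; ring_nf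
  have hsum0 : Tendsto (fun L : ℝ => ∑ θ ∈ Λ, cexp (-(I * ω θ * L)) * ∫ x in S, wk V A s₀ L x *
      (b θ x * cexp (-(I * (x * N θ : ℝ) * L)))) atTop (𝓝 0) := by
    have h3 := (h5.sub ht2).sub ht3
    rw [sub_zero, sub_zero] at h3
    refine h3.congr' ?_
    filter_upwards [eventually_ge_atTop 1] with L hL
    exact (hsplit L hL).symm
  have hJ : ∀ θ ∈ Λ, Tendsto (fun L : ℝ => ∫ x in S, wk V A s₀ L x *
      (b θ x * cexp (-(I * (x * N θ : ℝ) * L)))) atTop
      (𝓝 (2 * Real.pi * φ (N θ - s₀) * b θ 0)) := fun θ hθ =>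
    tendsto_J hA hVd hVi hVf hr'0 (hlocc θ hθ) (N θ)
  have hfin : Tendsto (fun L : ℝ => ∑ θ ∈ Λ, (2 * Real.pi * φ (N θ - s₀) * b θ 0) *
      cexp (-(I * ω θ * L))) atTop (𝓝 0) := by
    have h3 : Tendsto (fun L : ℝ => ∑ θ ∈ Λ, cexp (-(I * ω θ * L)) *
        ((2 * Real.pi * φ (N θ - s₀) * b θ 0) - ∫ x in S, wk V A s₀ L x *
      (b θ x * cexp (-(I * (x * N θ : ℝ) * L))))) atTop (𝓝 (∑ _θ ∈ Λ, 0)) := by
      refine tendsto_finsetSum _ fun θ hθ => ?_
      have h4 : Tendsto (fun L : ℝ => (2 * Real.pi * φ (N θ - s₀) * b θ 0) -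
          ∫ x in S, wk V A s₀ L x * (b θ x * cexp (-(I * (x * N θ : ℝ) * L)))) atTop (𝓝 0) := by
        have := (tendsto_const_nhds (x := 2 * Real.pi * φ (N θ - s₀) * b θ 0)).sub (hJ θ hθ)
        rwa [sub_self] at this
      have h6 := h4.norm
      rw [norm_zero] at h6
      refine squeeze_zero_norm (fun L => ?_) h6
      rw [norm_mul]
      have e : (-(I * ω θ * L) : ℂ) = ((-(ω θ * L) : ℝ) : ℂ) * I := by push_cast; ring
      rw [e, Complex.norm_exp_ofReal_mul_I, one_mul]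
    rw [Finset.sum_const_zero] at h3
    have h4 := h3.add hsum0
    rw [add_zero] at h4
    refine h4.congr fun L => ?_
    rw [← Finset.sum_add_distrib]
    exact Finset.sum_congr rfl fun θ _ => by ring
  intro θ hθ hNθ
  have h3 := tendsto_exp_sum_zero Λ ω hω _ hfin θ hθ
  rw [hNθ, sub_self, hφ0] at h3
  have hpi : (Real.pi : ℂ) ≠ 0 := by exact_mod_cast Real.pi_ne_zero
  simpa [hpi] using h3

end limit

end Pool.Agent.H26
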