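import Pool.Agent.H26.RG.QExp

/-!
The passage between the charts: permutations of the shifts.
-/

namespace Pool.Agent.H26

open Complex Finset MeasureTheory Filter Asymptotics Topology

variable {k : ℕ}

lemma zeta_eq_chi_mul {s : ℂ} (h0 : 0 < s.re) (h1 : s.re < 1) :
    riemannZeta s = chi s * riemannZeta (1 - s) := by
  have hs0 : s ≠ 0 := by intro h; simp [h] at h0
  have hs1 : 1 - s ≠ 0 := by
    intro h
    have := congrArg Complex.re h
    simp at this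
    linarith
  have hpi : (Real.pi : ℂ) ≠ 0 := by exact_mod_cast Real.pi_ne_zero
  have hG1 : Gamma (s / 2) ≠ 0 := Gamma_ne_zero_of_re_pos (by simpa using h0)
  have hG2 : Gamma ((1 - s) / 2) ≠ 0 := Gamma_ne_zero_of_re_pos (by simp; linarith)
  rw [riemannZeta_def_of_ne_zero hs0, riemannZeta_def_of_ne_zero hs1, completedRiemannZeta_one_sub,
    Complex.Gammaℝ_def, Complex.Gammaℝ_def, chi]
  have e1 : (Real.pi : ℂ) ^ (s - 1 / 2) = (Real.pi : ℂ) ^ (-(1 - s) / 2) / (Real.pi : ℂ) ^ (-s / 2) := by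
    rw [← Complex.cpow_sub _ _ hpi]
    congr 1
    ring
  have h2 : (Real.pi : ℂ) ^ (-(1 - s) / 2) ≠ 0 := (Complex.cpow_ne_zero_iff_of_exponent_ne_zero (by
    intro h
    have h3 : 1 - s = 0 := by linear_combination (-2) * h
    exact hs1 h3)).2 hpi
  have h3 : (Real.pi : ℂ) ^ (-s / 2) ≠ 0 := (Complex.cpow_ne_zero_iff_of_exponent_ne_zero (by
    intro h
    have h3 : s = 0 := by linear_combination (-2) * h
    exact hs0 h3)).2 hpi
  rw [e1]
  field_simp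

lemma zeta_mul_X {t g : ℂ} (h : |(t + g).im| < 1 / 2) :
    riemannZeta (1 / 2 - I * (t + g)) * X t g = riemannZeta (1 / 2 + I * (t + g)) := by
  obtain ⟨h0, h1⟩ := X_re h
  have e : 1 - (1 / 2 + I * (t + g)) = 1 / 2 - I * (t + g) := by ring
  rw [X, zeta_eq_chi_mul h0 h1, e]
  ring

lemma Zc_mul_prod {γ : Ix k → ℂ} {t : ℂ} (h : ∀ i, |(t + γ i).im| < 1 / 2) :
    Zc γ t * ∏ j, X t (γ (Sum.inr j)) = ∏ i, riemannZeta (1 / 2 + I * (t + γ i)) := by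
  rw [Fintype.prod_sum_type, Zc, Finset.prod_mul_distrib, mul_assoc, ← Finset.prod_mul_distrib]
  congr 1
  exact Finset.prod_congr rfl fun j _ => zeta_mul_X (h _)

lemma exists_perm_map {S : Finset (Ix k)} (hS : S.card = k) : ∃ σ : Equiv.Perm (Ix k),
    S = (S0 k).map σ.toEmbedding := by
  have e : {x // x ∈ S0 k} ≃ {x // x ∈ S} := Finset.equivOfCardEq (by rw [card_S0, hS])
  refine ⟨e.extendSubtype, ?_⟩
  symm
  refine Finset.eq_of_subset_of_card_le ?_ ?_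
  · intro x hx
    rw [Finset.mem_map] at hx
    obtain ⟨y, hy, rfl⟩ := hx
    exact e.extendSubtype_mem y hy
  · rw [Finset.card_map, card_S0, hS]

lemma im_add_ofReal (t : ℝ) (γ : Ix k → ℝ) (i : Ix k) :
    |(((t : ℝ) : ℂ) + ((γ i : ℝ) : ℂ)).im| < 1 / 2 := by
  simp

lemma prod_X_ne_zero (t : ℝ) (γ : Ix k → ℝ) (σ : Equiv.Perm (Ix k)) :
    ∏ j : Fin k, X (t : ℂ) ((γ (σ (Sum.inr j)) : ℝ) : ℂ) ≠ 0 :=
  Finset.prod_ne_zero_iff.2 fun j _ => X_ne_zero (im_add_ofReal t γ _)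

/-- the product of the `X` over the second block after the permutation -/
lemma prod_X_perm (σ : Equiv.Perm (Ix k)) (γ : Ix k → ℝ) (t : ℝ) :
    ∏ j : Fin k, X (t : ℂ) ((γ (σ (Sum.inr j)) : ℝ) : ℂ) =
      G ((S0 k).map σ.toEmbedding) (fun i => (γ i : ℂ)) (t : ℂ) *
        ∏ j : Fin k, X (t : ℂ) ((γ (Sum.inr j) : ℝ) : ℂ) := by
  rw [G_mul _ (fun i => im_add_ofReal t γ i), compl_map_perm, Finset.prod_map,
    ← prod_S0_compl (fun i => X (t : ℂ) ((γ (σ i) : ℝ) : ℂ))]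
  rfl

lemma G_comp_perm (σ : Equiv.Perm (Ix k)) (S : Finset (Ix k)) (γ : Ix k → ℝ) (t : ℝ) :
    G ((S0 k).map σ.toEmbedding) (fun i => (γ i : ℂ)) (t : ℂ) *
      G S (fun i => (γ (σ i) : ℂ)) (t : ℂ) =
      G (S.map σ.toEmbedding) (fun i => (γ i : ℂ)) (t : ℂ) := by
  have h1 := G_mul S (γ := fun i => (γ (σ i) : ℂ)) (t := (t : ℂ))
    (fun i => im_add_ofReal t (fun i => γ (σ i)) i)
  have h2 := G_mul (S.map σ.toEmbedding) (γ := fun i => (γ i : ℂ)) (t := (t : ℂ))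
    (fun i => im_add_ofReal t γ i)
  rw [compl_map_perm, Finset.prod_map] at h2
  have h3 : ∏ i ∈ Sᶜ, X (t : ℂ) ((γ (σ.toEmbedding i) : ℝ) : ℂ) =
      ∏ i ∈ Sᶜ, X (t : ℂ) ((γ (σ i) : ℝ) : ℂ) := rfl
  rw [h3, ← h1, prod_X_perm] at h2
  have hne := prod_X_ne_zero t γ (Equiv.refl _)
  simp only [Equiv.refl_apply] at hne
  refine mul_right_cancel₀ hne ?_
  rw [h2]
  ring

lemma zetaAB_map (σ : Equiv.Perm (Ix k)) (S : Finset (Ix k)) (γ : Ix k → ℂ) :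
    zetaAB (S.map σ.toEmbedding) γ = zetaAB S (fun i => γ (σ i)) := by
  unfold zetaAB
  rw [eulerF_map, prod_prod_map σ S (fun j l => riemannZeta (1 + I * (γ j - γ l)))]

lemma Qsum_comp_perm (σ : Equiv.Perm (Ix k)) (γ : Ix k → ℝ) (t : ℝ) :
    Qsum (fun i => (γ i : ℂ)) (t : ℂ) =
      G ((S0 k).map σ.toEmbedding) (fun i => (γ i : ℂ)) (t : ℂ) *
        Qsum (fun i => (γ (σ i) : ℂ)) (t : ℂ) := by
  unfold Qsum
  rw [Finset.mul_sum]
  symm
  refine Finset.sum_bij' (fun S _ => S.map σ.toEmbedding) (fun S _ => S.map σ.symm.toEmbedding)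
    ?_ ?_ ?_ ?_ ?_
  · intro S hS
    rw [Finset.mem_powersetCard] at hS ⊢
    exact ⟨Finset.subset_univ _, by rw [Finset.card_map]; exact hS.2⟩
  · intro S hS
    rw [Finset.mem_powersetCard] at hS ⊢
    exact ⟨Finset.subset_univ _, by rw [Finset.card_map]; exact hS.2⟩
  · intro S _
    rw [Finset.map_map]
    ext i
    simp
  · intro S _
    rw [Finset.map_map]
    ext i
    simp
  · intro S _
    rw [← G_comp_perm σ S γ t, zetaAB_map]
    ring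

lemma Zc_comp_perm (σ : Equiv.Perm (Ix k)) (γ : Ix k → ℝ) (t : ℝ) :
    Zc (fun i => (γ i : ℂ)) (t : ℂ) =
      G ((S0 k).map σ.toEmbedding) (fun i => (γ i : ℂ)) (t : ℂ) *
        Zc (fun i => (γ (σ i) : ℂ)) (t : ℂ) := by
  have h1 := Zc_mul_prod (γ := fun i => (γ i : ℂ)) (t := (t : ℂ)) (fun i => im_add_ofReal t γ i)
  have h2 := Zc_mul_prod (γ := fun i => (γ (σ i) : ℂ)) (t := (t : ℂ))
    (fun i => im_add_ofReal t (fun i => γ (σ i)) i)
  have h3 : ∏ i, riemannZeta (1 / 2 + I * ((t : ℂ) + ((γ (σ i) : ℝ) : ℂ))) =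
      ∏ i, riemannZeta (1 / 2 + I * ((t : ℂ) + ((γ i : ℝ) : ℂ))) :=
    Equiv.prod_comp σ (fun i => riemannZeta (1 / 2 + I * ((t : ℂ) + ((γ i : ℝ) : ℂ))))
  rw [h3, ← h1, prod_X_perm] at h2
  have hne := prod_X_ne_zero t γ (Equiv.refl _)
  simp only [Equiv.refl_apply] at hne
  refine mul_right_cancel₀ hne ?_
  rw [← h2]
  ring

theorem cocycle (S : Finset (Ix k)) (hS : S.card = k) : ∃ σ : Equiv.Perm (Ix k),
    S = (S0 k).map σ.toEmbedding ∧ ∀ γ : Ix k → ℝ, Function.Injective γ → ∀ t : ℝ,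
      Z (fun j => γ (Sum.inl j)) (fun j => γ (Sum.inr j)) t -
        Q (fun j => γ (Sum.inl j)) (fun j => γ (Sum.inr j)) t =
      G S (fun i => (γ i : ℂ)) (t : ℂ) *
        (Z (fun j => γ (σ (Sum.inl j))) (fun j => γ (σ (Sum.inr j))) t -
          Q (fun j => γ (σ (Sum.inl j))) (fun j => γ (σ (Sum.inr j))) t) := by
  obtain ⟨σ, hσ⟩ := exists_perm_map hS
  refine ⟨σ, hσ, fun γ hγ t => ?_⟩
  have hγσ : Function.Injective (fun i => γ (σ i)) := hγ.comp σ.injective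
  rw [Z_eq_Zc γ t, Q_eq_Qsum hγ t, Z_eq_Zc (fun i => γ (σ i)) t,
    Q_eq_Qsum (γ := fun i => γ (σ i)) hγσ t, hσ, Zc_comp_perm σ γ t, Qsum_comp_perm σ γ t]
  ring

end Pool.Agent.H26
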