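import Pool.Agent.H26.LA6
import Pool.Agent.H26.Ident

/-!
Definitions for the rigidity of the main term of the shifted moments.
-/

namespace Pool.Agent.H26

open Complex Finset MeasureTheory Filter Asymptotics

/-- The pairing `∑ θ_j α_j - ∑ θ_l β_l` of a frequency vector `θ` and a shift `γ = (α, β)`. -/
noncomputable def pairing {k : ℕ} (θ γ : Ix k → ℝ) : ℝ :=
  ∑ j, θ (Sum.inl j) * γ (Sum.inl j) - ∑ l, θ (Sum.inr l) * γ (Sum.inr l)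

/-- The monomial `T ^ (1 - i ω)`. -/
noncomputable def mono (ω T : ℝ) : ℂ := (T : ℂ) ^ (1 - I * ω)

/-- The frequency vector of the term of the set `S`: the indicator of the coordinates which are
swapped, that is, of `Sᶜ` in the first block and of `S` in the second one. -/
noncomputable def corner {k : ℕ} (S : Finset (Ix k)) : Ix k → ℝ :=
  Sum.elim (fun l => if Sum.inl l ∈ S then 0 else 1) (fun j => if Sum.inr j ∈ S then 1 else 0)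

/-- The central polytope. -/
def central (k : ℕ) : Set (Ix k → ℝ) :=
  {θ | (∀ i, 0 ≤ θ i ∧ θ i ≤ 1) ∧ ∑ j, θ (Sum.inl j) = ∑ l, θ (Sum.inr l) ∧
    ∀ S : Finset (Ix k), S.card = k → 2 ≤ ∑ i, |θ i - corner S i|}

/-- The shifted moment up to height `T`. -/
noncomputable def Mr {k : ℕ} (γ : Ix k → ℝ) (T : ℝ) : ℂ :=
  ∫ t in (0 : ℝ)..T, Z (fun j => γ (Sum.inl j)) (fun j => γ (Sum.inr j)) t

/-- `F` has the expansion with the frequency vectors `θ ∈ Λ` and the coefficients `b θ` at the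
shift `γ`, up to `O(T ^ a)`. -/
def Expn {k : ℕ} (Λ : Finset (Ix k → ℝ)) (a : ℝ) (γ : Ix k → ℝ) (b : (Ix k → ℝ) → ℂ)
    (F : ℝ → ℂ) : Prop :=
  (fun T : ℝ => F T - ∑ θ ∈ Λ, b θ * mono (pairing θ γ) T) =O[atTop] fun T : ℝ => T ^ a

/-- Locally uniform expansion around `γ₀` with continuous coefficients and a power saving. -/
def LExpn {k : ℕ} (Λ : Finset (Ix k → ℝ)) (γ₀ : Ix k → ℝ) (b : (Ix k → ℝ) → (Ix k → ℝ) → ℂ)
    (F : (Ix k → ℝ) → ℝ → ℂ) : Prop :=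
  ∃ r : ℝ, 0 < r ∧ ∃ a : ℝ, a < 1 ∧ ∃ C : ℝ,
    (∀ θ ∈ Λ, ContinuousOn (b θ) (Metric.ball γ₀ r)) ∧
    ∀ γ ∈ Metric.ball γ₀ r, ∀ T : ℝ, 1 ≤ T →
      ‖F γ T - ∑ θ ∈ Λ, b θ γ * mono (pairing θ γ) T‖ ≤ C * T ^ a

/-- The bound `O(T ^ (1 + ε))` on compact sets. -/
def OneEps {k : ℕ} (F : (Ix k → ℝ) → ℝ → ℂ) : Prop :=
  ∀ ε : ℝ, 0 < ε → ∀ K : Set (Ix k → ℝ), IsCompact K → ∃ C : ℝ, ∀ γ ∈ K, ∀ T : ℝ, 1 ≤ T →
    ‖F γ T‖ ≤ C * T ^ (1 + ε)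

/-- A family of analytic functions of the shift around `γ₀` with polynomial bounds in `T`. -/
structure Fam {k : ℕ} (γ₀ : Ix k → ℝ) (r : ℝ) (F : ℝ → (Ix k → ℂ) → ℂ) : Prop where
  bound : ∃ C A : ℝ, ∀ T : ℝ, 1 ≤ T → ∀ z : Ix k → ℂ, dist z (fun i => (γ₀ i : ℂ)) < r →
    ‖F T z‖ ≤ C * T ^ A
  holo : ∀ T : ℝ, 1 ≤ T → ∀ γ : Ix k → ℝ, dist γ γ₀ < r / 2 → ∀ v ∈ Set.Icc (0 : Ix k → ℝ) 1,
    Function.Injective v → DifferentiableOn ℂ (fun x : ℂ => F T (fun i => (γ i : ℂ) + x * v i))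
      (Metric.ball 0 (r / 2))
  cont : ∀ T : ℝ, 1 ≤ T → ContinuousOn (fun γ : Ix k → ℝ => F T (fun i => (γ i : ℂ)))
    (Metric.ball γ₀ r)

/-- Generic shifts: the numbers `2 ^ (1 - i⟨θ, γ⟩)`, `θ ∈ Λ`, are distinct. -/
def Gen {k : ℕ} (Λ : Finset (Ix k → ℝ)) (γ : Ix k → ℝ) : Prop :=
  Set.InjOn (fun θ => mono (pairing θ γ) 2) Λ

/-- The coefficient of the term of the set `S` of the recipe. -/
noncomputable def qc {k : ℕ} (S : Finset (Ix k)) (γ : Ix k → ℝ) : ℂ :=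
  ((2 * Real.pi : ℝ) : ℂ) ^ (I * pairing (corner S) γ) * zetaAB S (fun i => (γ i : ℂ)) /
    (1 - I * pairing (corner S) γ)

end Pool.Agent.H26
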