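import Pool.Agent.H26.RG.Defs

/-!
From almost everywhere expansions with arbitrary coefficients to locally uniform expansions with
continuous coefficients.
-/

namespace Pool.Agent.H26

open Complex Finset MeasureTheory Filter Asymptotics Topology

variable {k : ℕ}

lemma mono_two_mul (ω : ℝ) {T : ℝ} (hT : 0 < T) : mono ω (2 * T) = mono ω 2 * mono ω T := by
  unfold mono
  push_cast
  have h := Complex.mul_cpow_ofReal_nonneg (a := 2) (b := T) (by norm_num) hT.le (1 - I * ω)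
  push_cast at h
  exact h

lemma norm_mono' (ω : ℝ) {T : ℝ} (hT : 0 < T) : ‖mono ω T‖ = T := by
  unfold mono
  rw [Complex.norm_cpow_eq_rpow_re_of_pos hT]
  simp

lemma mono_ne_zero (ω : ℝ) {T : ℝ} (hT : 0 < T) : mono ω T ≠ 0 := by
  rw [← norm_pos_iff, norm_mono' ω hT]
  exact hT

/-- The pairing for complex shifts. -/
noncomputable def pairc (θ : Ix k → ℝ) (z : Ix k → ℂ) : ℂ :=
  ∑ j, (θ (Sum.inl j) : ℂ) * z (Sum.inl j) - ∑ l, (θ (Sum.inr l) : ℂ) * z (Sum.inr l)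

lemma pairc_real (θ γ : Ix k → ℝ) : pairc θ (fun i => (γ i : ℂ)) = ((pairing θ γ : ℝ) : ℂ) := by
  simp [pairc, pairing]

/-- The multiplier for complex shifts. -/
noncomputable def mc (θ : Ix k → ℝ) (z : Ix k → ℂ) : ℂ := (2 : ℂ) ^ (1 - I * pairc θ z)

lemma mc_real (θ γ : Ix k → ℝ) : mc θ (fun i => (γ i : ℂ)) = mono (pairing θ γ) 2 := by
  simp [mc, mono, pairc_real]

lemma continuous_mc (θ : Ix k → ℝ) : Continuous (mc θ) := by
  unfold mc pairc
  refine Continuous.const_cpow (by fun_prop) (Or.inl (by norm_num))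

lemma continuous_mono_pairing (θ : Ix k → ℝ) {T : ℝ} (hT : 0 < T) :
    Continuous fun γ : Ix k → ℝ => mono (pairing θ γ) T := by
  unfold mono pairing
  refine Continuous.const_cpow (by fun_prop) (Or.inl ?_)
  exact_mod_cast hT.ne'

/-- The difference operator which kills the monomial of `θ`. -/
noncomputable def dlt (θ : Ix k → ℝ) (F : ℝ → (Ix k → ℂ) → ℂ) (T : ℝ) (z : Ix k → ℂ) : ℂ :=
  F (2 * T) z - mc θ z * F T z

lemma Fam.dlt {γ₀ : Ix k → ℝ} {r : ℝ} {F : ℝ → (Ix k → ℂ) → ℂ} (hF : Fam γ₀ r F)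
    (θ : Ix k → ℝ) : Fam γ₀ r (Pool.Agent.H26.dlt θ F) where
  bound := by
    obtain ⟨C, A, hC⟩ := hF.bound
    obtain ⟨M, hM⟩ := (isCompact_closedBall (fun i => (γ₀ i : ℂ)) r).exists_bound_of_continuousOn
      (continuous_mc θ).continuousOn
    refine ⟨|C| * (2 ^ |A| + |M|), |A|, fun T hT z hz => ?_⟩
    have hT0 : 0 < T := by linarith
    have hb : ∀ S : ℝ, 1 ≤ S → ‖F S z‖ ≤ |C| * S ^ |A| := by
      intro S hS
      refine (hC S hS z hz).trans ?_
      have hS0 : 0 < S := by linarith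
      calc C * S ^ A ≤ |C| * S ^ A := by
            gcongr
            exact le_abs_self _
        _ ≤ |C| * S ^ |A| := by
            gcongr
            exact le_abs_self _
    have h1 := hb (2 * T) (by linarith)
    have h2 := hb T hT
    have h3 : ‖mc θ z‖ ≤ |M| := (hM z (Metric.mem_closedBall.2 hz.le)).trans (le_abs_self _)
    unfold Pool.Agent.H26.dlt
    calc _ ≤ ‖F (2 * T) z‖ + ‖mc θ z‖ * ‖F T z‖ := by
          refine (norm_sub_le _ _).trans ?_
          rw [norm_mul]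
      _ ≤ |C| * (2 * T) ^ |A| + |M| * (|C| * T ^ |A|) := by
          gcongr
      _ = _ := by
          rw [Real.mul_rpow (by norm_num) hT0.le]
          ring
  holo := by
    intro T hT γ hγ v hv hvi
    have h1 := hF.holo (2 * T) (by linarith) γ hγ v hv hvi
    have h2 := hF.holo T hT γ hγ v hv hvi
    have h3 : Differentiable ℂ (fun x : ℂ => mc θ (fun i => (γ i : ℂ) + x * v i)) := by
      unfold mc pairc
      refine Differentiable.const_cpow (by fun_prop) (Or.inl (by norm_num))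
    exact h1.sub (h3.differentiableOn.mul h2)
  cont := by
    intro T hT
    have h1 := hF.cont (2 * T) (by linarith)
    have h2 := hF.cont T hT
    have h3 : Continuous (fun γ : Ix k → ℝ => mc θ (fun i => (γ i : ℂ))) :=
      (continuous_mc θ).comp (by fun_prop)
    exact h1.sub (h3.continuousOn.mul h2)

/-- From almost everywhere bounds to uniform bounds for a family. -/
lemma Fam.uniform_of_ae {γ₀ : Ix k → ℝ} {r : ℝ} (hr : 0 < r) {F : ℝ → (Ix k → ℂ) → ℂ}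
    (hF : Fam γ₀ r F) {a ε : ℝ} (hε : 0 < ε)
    (h : ∀ᵐ γ : Ix k → ℝ, γ ∈ Metric.ball γ₀ r →
      (fun T => F T (fun i => (γ i : ℂ))) =O[atTop] fun T : ℝ => T ^ a) :
    ∃ C : ℝ, ∀ γ ∈ Metric.ball γ₀ (r / 4), ∀ T : ℝ, 1 ≤ T →
      ‖F T (fun i => (γ i : ℂ))‖ ≤ C * T ^ (a + ε) := by
  obtain ⟨C, A, hC⟩ := hF.bound
  have hreal : ∀ γ : Ix k → ℝ, dist γ γ₀ < r →
      dist (fun i => (γ i : ℂ)) (fun i => (γ₀ i : ℂ)) < r := by
    intro γ hγ
    rw [dist_pi_lt_iff hr]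
    intro i
    have h1 : dist ((γ i : ℂ)) (γ₀ i : ℂ) = dist (γ i) (γ₀ i) := by
      rw [dist_eq_norm, ← Complex.ofReal_sub, Complex.norm_real, ← dist_eq_norm]
    rw [h1]
    exact (dist_le_pi_dist γ γ₀ i).trans_lt hγ
  refine uniform_of_small_bad hr hC hF.holo hF.cont ?_ hε
  have hzero : volume {γ : Ix k → ℝ | γ ∈ Metric.ball γ₀ r ∧
      ∀ C' : ℝ, ∃ T : ℝ, 1 ≤ T ∧ C' * T ^ a < ‖F T (fun i => (γ i : ℂ))‖} = 0 := by
    refine measure_mono_null ?_ h
    rintro γ ⟨hγ, hbad⟩ hO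
    obtain ⟨c, hc⟩ := (hO hγ).bound
    obtain ⟨T₀, hT₀⟩ := Filter.eventually_atTop.1 hc
    set T₁ : ℝ := max T₀ 1 with hT₁
    have hT₁1 : 1 ≤ T₁ := le_max_right _ _
    set D : ℝ := |C| * T₁ ^ |A| * T₁ ^ |a| with hD
    have hD0 : 0 ≤ D := by positivity
    obtain ⟨T, hT, hlt⟩ := hbad (max c D)
    have hT0 : 0 < T := by linarith
    have hTa : 0 < T ^ a := Real.rpow_pos_of_pos hT0 _
    refine absurd hlt (not_lt.2 ?_)
    rcases le_total T₀ T with h1 | h1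
    · have h2 := hT₀ T h1
      rw [Real.norm_of_nonneg hTa.le] at h2
      exact h2.trans (by gcongr; exact le_max_left _ _)
    · have hTT₁ : T ≤ T₁ := h1.trans (le_max_left _ _)
      have h2 : ‖F T (fun i => (γ i : ℂ))‖ ≤ |C| * T₁ ^ |A| := by
        refine (hC T hT _ (hreal γ hγ)).trans ?_
        calc C * T ^ A ≤ |C| * T ^ A := by
              gcongr
              exact le_abs_self _
          _ ≤ |C| * T ^ |A| := by
              gcongr
              exact le_abs_self _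
          _ ≤ |C| * T₁ ^ |A| := by gcongr
      have h3 : 1 ≤ T₁ ^ |a| * T ^ a := by
        have h4 : T ^ (-|a|) ≤ T ^ a :=
          Real.rpow_le_rpow_of_exponent_le hT (neg_abs_le a)
        have h5 : T ^ |a| ≤ T₁ ^ |a| := Real.rpow_le_rpow hT0.le hTT₁ (abs_nonneg _)
        have h6 : T ^ |a| * T ^ (-|a|) = 1 := by
          rw [← Real.rpow_add hT0, add_neg_cancel, Real.rpow_zero]
        calc (1:ℝ) = T ^ |a| * T ^ (-|a|) := h6.symm
          _ ≤ T₁ ^ |a| * T ^ a := by gcongr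
      calc ‖F T (fun i => (γ i : ℂ))‖ ≤ |C| * T₁ ^ |A| := h2
        _ = |C| * T₁ ^ |A| * 1 := by ring
        _ ≤ |C| * T₁ ^ |A| * (T₁ ^ |a| * T ^ a) := by gcongr
        _ = D * T ^ a := by rw [hD]; ring
        _ ≤ _ := by gcongr; exact le_max_right _ _
  rw [hzero, ENNReal.ofReal_pos]
  positivity

lemma isBigO_two_mul {f : ℝ → ℂ} {a : ℝ} (h : f =O[atTop] fun T : ℝ => T ^ a) :
    (fun T => f (2 * T)) =O[atTop] fun T : ℝ => T ^ a := by
  have h1 : Tendsto (fun T : ℝ => 2 * T) atTop atTop :=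
    tendsto_id.const_mul_atTop (by norm_num)
  refine (h.comp_tendsto h1).trans ?_
  refine IsBigO.of_bound (2 ^ a) ?_
  filter_upwards [eventually_gt_atTop 0] with T hT
  simp only [Function.comp_apply]
  rw [Real.mul_rpow (by norm_num) hT.le, norm_mul, Real.norm_of_nonneg (by positivity : (0:ℝ) ≤ 2 ^ a)]

lemma not_isBigO_const_mono {c : ℂ} {ω a : ℝ} (ha : a < 1)
    (h : (fun T : ℝ => c * mono ω T) =O[atTop] fun T : ℝ => T ^ a) : c = 0 := by
  by_contra hc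
  obtain ⟨K, hK⟩ := h.bound
  have h1 : Tendsto (fun T : ℝ => ‖c‖ * T ^ (1 - a)) atTop atTop :=
    (tendsto_rpow_atTop (by linarith)).const_mul_atTop (norm_pos_iff.2 hc)
  obtain ⟨T, hT1, hT2, hT3⟩ := ((h1.eventually_gt_atTop K).and
    (hK.and (eventually_gt_atTop 0))).exists
  rw [norm_mul, norm_mono' ω hT3, Real.norm_of_nonneg (by positivity)] at hT2
  have h2 : T ^ (1 - a) * T ^ a = T := by
    rw [← Real.rpow_add hT3]
    simp
  have h3 : K * T ^ a < ‖c‖ * T ^ (1 - a) * T ^ a :=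
    mul_lt_mul_of_pos_right hT1 (Real.rpow_pos_of_pos hT3 a)
  rw [mul_assoc, h2] at h3
  linarith

lemma Gen.subset {Λ Λ' : Finset (Ix k → ℝ)} {γ : Ix k → ℝ} (h : Gen Λ γ) (hs : Λ' ⊆ Λ) :
    Gen Λ' γ :=
  Set.InjOn.mono (by exact_mod_cast hs) h

lemma sum_dlt [DecidableEq (Ix k → ℝ)] {Λ : Finset (Ix k → ℝ)} {θ₀ : Ix k → ℝ} (hθ : θ₀ ∉ Λ)
    (γ : Ix k → ℝ) (b : (Ix k → ℝ) → ℂ) {T : ℝ} (hT : 0 < T) :
    ∑ θ ∈ insert θ₀ Λ, b θ * mono (pairing θ γ) (2 * T) -
      mono (pairing θ₀ γ) 2 * ∑ θ ∈ insert θ₀ Λ, b θ * mono (pairing θ γ) T =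
    ∑ θ ∈ Λ, b θ * (mono (pairing θ γ) 2 - mono (pairing θ₀ γ) 2) * mono (pairing θ γ) T := by
  rw [Finset.sum_insert hθ, Finset.sum_insert hθ, mul_add, Finset.mul_sum,
    mono_two_mul _ hT]
  have h : ∀ θ ∈ Λ, b θ * mono (pairing θ γ) (2 * T) =
      b θ * (mono (pairing θ γ) 2 - mono (pairing θ₀ γ) 2) * mono (pairing θ γ) T +
        mono (pairing θ₀ γ) 2 * (b θ * mono (pairing θ γ) T) := by
    intro θ _
    rw [mono_two_mul _ hT]
    ring
  rw [Finset.sum_congr rfl h, Finset.sum_add_distrib]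
  ring

lemma coeff_zero {Λ : Finset (Ix k → ℝ)} {γ : Ix k → ℝ} (hg : Gen Λ γ) {b : (Ix k → ℝ) → ℂ}
    {a : ℝ} (ha : a < 1)
    (h : (fun T : ℝ => ∑ θ ∈ Λ, b θ * mono (pairing θ γ) T) =O[atTop] fun T : ℝ => T ^ a) :
    ∀ θ ∈ Λ, b θ = 0 := by
  classical
  induction Λ using Finset.induction_on generalizing b with
  | empty => intro θ hθ; simp at hθ
  | insert θ₀ Λ hθ ih =>
    have h1 : (fun T : ℝ => ∑ θ ∈ Λ, b θ * (mono (pairing θ γ) 2 - mono (pairing θ₀ γ) 2) *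
        mono (pairing θ γ) T) =O[atTop] fun T : ℝ => T ^ a := by
      refine IsBigO.congr' ((isBigO_two_mul h).sub (h.const_mul_left (mono (pairing θ₀ γ) 2)))
        ?_ EventuallyEq.rfl
      filter_upwards [eventually_gt_atTop 0] with T hT
      exact sum_dlt hθ γ b hT
    have h2 := ih (hg.subset (Finset.subset_insert _ _)) h1
    have h3 : ∀ θ ∈ Λ, b θ = 0 := by
      intro θ hθ'
      have h4 := h2 θ hθ'
      rcases mul_eq_zero.1 h4 with h5 | h5
      · exact h5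
      · exfalso
        have h6 := hg (Finset.mem_coe.2 (Finset.mem_insert_of_mem hθ'))
          (Finset.mem_coe.2 (Finset.mem_insert_self θ₀ Λ)) (sub_eq_zero.1 h5)
        exact hθ (h6 ▸ hθ')
    have h4 : b θ₀ = 0 := by
      refine not_isBigO_const_mono (ω := pairing θ₀ γ) ha (h.congr_left fun T => ?_)
      rw [Finset.sum_insert hθ, Finset.sum_eq_zero fun θ hθ' => by rw [h3 θ hθ', zero_mul],
        add_zero]
    intro θ hθ'
    rcases Finset.mem_insert.1 hθ' with rfl | h5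
    · exact h4
    · exact h3 θ h5

lemma Expn.dlt [DecidableEq (Ix k → ℝ)] {Λ : Finset (Ix k → ℝ)} {θ₀ : Ix k → ℝ} (hθ : θ₀ ∉ Λ)
    {γ : Ix k → ℝ} {b : (Ix k → ℝ) → ℂ} {a : ℝ} {F : ℝ → (Ix k → ℂ) → ℂ}
    (h : Expn (insert θ₀ Λ) a γ b (fun T => F T (fun i => (γ i : ℂ)))) :
    Expn Λ a γ (fun θ => b θ * (mono (pairing θ γ) 2 - mono (pairing θ₀ γ) 2))
      (fun T => Pool.Agent.H26.dlt θ₀ F T (fun i => (γ i : ℂ))) := by
  unfold Expn at h ⊢
  refine IsBigO.congr' ((isBigO_two_mul h).sub (h.const_mul_left (mono (pairing θ₀ γ) 2)))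
    ?_ EventuallyEq.rfl
  filter_upwards [eventually_gt_atTop 0] with T hT
  have h1 := sum_dlt hθ γ b hT
  unfold Pool.Agent.H26.dlt
  rw [← h1, mc_real]
  ring

/-- Limits along `2 ^ n T`. -/
lemma exists_dyadic_limit {X : Type*} [TopologicalSpace X] {U : Set X} {H : X → ℝ → ℂ} {C a : ℝ}
    (ha : a < 1) (hcont : ∀ T : ℝ, 1 ≤ T → ContinuousOn (fun x => H x T) U)
    (hH : ∀ x ∈ U, ∀ T : ℝ, 1 ≤ T → ‖H x (2 * T) - H x T‖ ≤ C * T ^ (a - 1)) :
    ∃ L : X → ℝ → ℂ, (∀ T : ℝ, 1 ≤ T → ContinuousOn (fun x => L x T) U) ∧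
      (∀ x ∈ U, ∀ T : ℝ, 1 ≤ T → Tendsto (fun n : ℕ => H x (2 ^ n * T)) atTop (𝓝 (L x T))) ∧
      ∀ x ∈ U, ∀ T : ℝ, 1 ≤ T → ‖H x T - L x T‖ ≤ C / (1 - 2 ^ (a - 1)) * T ^ (a - 1) := by
  set q : ℝ := (2 : ℝ) ^ (a - 1) with hq
  have hq0 : 0 < q := by positivity
  have hq1 : q < 1 := Real.rpow_lt_one_of_one_lt_of_neg (by norm_num) (by linarith)
  have hpow : ∀ n : ℕ, ∀ T : ℝ, 1 ≤ T → 1 ≤ 2 ^ n * T := by
    intro n T hT
    have h1 : (1:ℝ) ≤ 2 ^ n := one_le_pow₀ (by norm_num)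
    nlinarith
  have hstep : ∀ x ∈ U, ∀ T : ℝ, 1 ≤ T → ∀ n : ℕ,
      dist (H x (2 ^ n * T)) (H x (2 ^ (n + 1) * T)) ≤ C * T ^ (a - 1) * q ^ n := by
    intro x hx T hT n
    have hT0 : 0 < T := by linarith
    rw [dist_comm, dist_eq_norm, show (2:ℝ) ^ (n + 1) * T = 2 * (2 ^ n * T) by ring]
    refine (hH x hx _ (hpow n T hT)).trans (le_of_eq ?_)
    rw [Real.mul_rpow (by positivity) hT0.le, hq, ← Real.rpow_natCast, ← Real.rpow_natCast,
      ← Real.rpow_mul (by norm_num), ← Real.rpow_mul (by norm_num), mul_comm (n : ℝ) (a - 1)]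
    ring
  have hcau : ∀ x ∈ U, ∀ T : ℝ, 1 ≤ T → CauchySeq (fun n : ℕ => H x (2 ^ n * T)) :=
    fun x hx T hT => cauchySeq_of_le_geometric q (C * T ^ (a - 1)) hq1 (hstep x hx T hT)
  refine ⟨fun x T => limUnder atTop (fun n : ℕ => H x (2 ^ n * T)), ?_, ?_, ?_⟩
  · intro T hT
    have hT0 : 0 < T := by linarith
    have hunif : TendstoUniformlyOn (fun (n : ℕ) x => H x (2 ^ n * T))
        (fun x => limUnder atTop (fun n : ℕ => H x (2 ^ n * T))) atTop U := by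
      rw [Metric.tendstoUniformlyOn_iff]
      intro ε hε
      have h1 : Tendsto (fun n : ℕ => C * T ^ (a - 1) * q ^ n / (1 - q)) atTop (𝓝 0) := by
        have h2 := (tendsto_pow_atTop_nhds_zero_of_lt_one hq0.le hq1).const_mul (C * T ^ (a - 1))
        have h3 := h2.div_const (1 - q)
        simpa using h3
      filter_upwards [h1.eventually_lt_const hε] with n hn x hx
      rw [dist_comm]
      exact (dist_le_of_le_geometric_of_tendsto q (C * T ^ (a - 1)) hq1 (hstep x hx T hT)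
        (hcau x hx T hT).tendsto_limUnder n).trans_lt hn
    refine hunif.continuousOn (Frequently.of_forall fun n => ?_)
    exact hcont _ (hpow n T hT)
  · intro x hx T hT
    exact (hcau x hx T hT).tendsto_limUnder
  · intro x hx T hT
    have h1 := dist_le_of_le_geometric_of_tendsto₀ q (C * T ^ (a - 1)) hq1 (hstep x hx T hT)
      (hcau x hx T hT).tendsto_limUnder
    rw [dist_eq_norm] at h1
    simp only [pow_zero, one_mul] at h1
    refine h1.trans (le_of_eq ?_)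
    ring

lemma exists_gen_ball {Λ : Finset (Ix k → ℝ)} {γ₀ : Ix k → ℝ} (hg : Gen Λ γ₀) :
    ∃ r > 0, ∀ γ ∈ Metric.ball γ₀ r, Gen Λ γ := by
  have h : ∀ᶠ γ in 𝓝 γ₀, ∀ θ ∈ Λ, ∀ θ' ∈ Λ, θ ≠ θ' →
      mono (pairing θ γ) 2 ≠ mono (pairing θ' γ) 2 := by
    rw [Filter.eventually_all_finset]
    intro θ hθ
    rw [Filter.eventually_all_finset]
    intro θ' hθ'
    by_cases hne : θ = θ'
    · exact Eventually.of_forall fun γ h => absurd hne h
    · have h1 : mono (pairing θ γ₀) 2 ≠ mono (pairing θ' γ₀) 2 := fun h2 => hne (hg hθ hθ' h2)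
      have h3 : Continuous fun γ : Ix k → ℝ => mono (pairing θ γ) 2 - mono (pairing θ' γ) 2 :=
        (continuous_mono_pairing θ (by norm_num)).sub (continuous_mono_pairing θ' (by norm_num))
      have h2 : ∀ᶠ γ in 𝓝 γ₀, mono (pairing θ γ) 2 ≠ mono (pairing θ' γ) 2 := by
        filter_upwards [h3.continuousAt.eventually_ne (sub_ne_zero.2 h1)] with γ hγ
        exact sub_ne_zero.1 hγ
      filter_upwards [h2] with γ h3 _ using h3
  obtain ⟨r, hr, hball⟩ := Metric.eventually_nhds_iff_ball.1 h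
  refine ⟨r, hr, fun γ hγ θ hθ θ' hθ' heq => ?_⟩
  by_contra hne
  exact hball γ hγ θ hθ θ' hθ' hne heq

lemma expand_step [DecidableEq (Ix k → ℝ)] {γ₀ : Ix k → ℝ} {r : ℝ} (hr : 0 < r)
    {F : ℝ → (Ix k → ℂ) → ℂ} (hF : Fam γ₀ r F) {Λ : Finset (Ix k → ℝ)} {θ₀ : Ix k → ℝ}
    (hθ : θ₀ ∉ Λ) (hg : Gen (insert θ₀ Λ) γ₀) {a : ℝ} (ha : a < 1)
    (h : ∀ᵐ γ : Ix k → ℝ, γ ∈ Metric.ball γ₀ r → ∃ b : (Ix k → ℝ) → ℂ,
      Expn (insert θ₀ Λ) a γ b (fun T => F T (fun i => (γ i : ℂ))))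
    {b' : (Ix k → ℝ) → (Ix k → ℝ) → ℂ}
    (ih : LExpn Λ γ₀ b' (fun γ T => dlt θ₀ F T (fun i => (γ i : ℂ)))) :
    ∃ b : (Ix k → ℝ) → (Ix k → ℝ) → ℂ,
      LExpn (insert θ₀ Λ) γ₀ b (fun γ T => F T (fun i => (γ i : ℂ))) := by
  obtain ⟨r₁, hr₁, a₁, ha₁, C₁, hb'c, hb'⟩ := ih
  obtain ⟨r₂, hr₂, hgen⟩ := exists_gen_ball hg
  set ρ : ℝ := min r (min r₁ r₂) with hρ
  have hρ0 : 0 < ρ := by positivity
  set U : Set (Ix k → ℝ) := Metric.ball γ₀ ρ with hU
  have hUr : U ⊆ Metric.ball γ₀ r := Metric.ball_subset_ball (min_le_left _ _)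
  have hUr₁ : U ⊆ Metric.ball γ₀ r₁ :=
    Metric.ball_subset_ball ((min_le_right _ _).trans (min_le_left _ _))
  have hUr₂ : U ⊆ Metric.ball γ₀ r₂ :=
    Metric.ball_subset_ball ((min_le_right _ _).trans (min_le_right _ _))
  have hC₁ : 0 ≤ C₁ := by
    have := (norm_nonneg _).trans (hb' γ₀ (Metric.mem_ball_self hr₁) 1 le_rfl)
    simpa using this
  have hne : ∀ γ ∈ U, ∀ θ ∈ Λ, mono (pairing θ γ) 2 - mono (pairing θ₀ γ) 2 ≠ 0 := by
    intro γ hγ θ hθ' h0
    have h6 := hgen γ (hUr₂ hγ) (Finset.mem_coe.2 (Finset.mem_insert_of_mem hθ'))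
      (Finset.mem_coe.2 (Finset.mem_insert_self θ₀ Λ)) (sub_eq_zero.1 h0)
    exact hθ (h6 ▸ hθ')
  set c : (Ix k → ℝ) → (Ix k → ℝ) → ℂ := fun θ γ =>
    b' θ γ / (mono (pairing θ γ) 2 - mono (pairing θ₀ γ) 2) with hc
  have hcc : ∀ θ ∈ Λ, ContinuousOn (c θ) U := by
    intro θ hθ'
    refine ((hb'c θ hθ').mono hUr₁).div ?_ fun γ hγ => hne γ hγ θ hθ'
    exact ((continuous_mono_pairing θ (by norm_num)).sub
      (continuous_mono_pairing θ₀ (by norm_num))).continuousOn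
  set F₂ : (Ix k → ℝ) → ℝ → ℂ := fun γ T => F T (fun i => (γ i : ℂ)) -
    ∑ θ ∈ Λ, c θ γ * mono (pairing θ γ) T with hF₂
  have hF₂c : ∀ T : ℝ, 1 ≤ T → ContinuousOn (fun γ => F₂ γ T) U := by
    intro T hT
    refine ((hF.cont T hT).mono hUr).sub (continuousOn_finsetSum _ fun θ hθ' => ?_)
    exact (hcc θ hθ').mul (continuous_mono_pairing θ (by linarith)).continuousOn
  have hF₂d : ∀ γ ∈ U, ∀ T : ℝ, 1 ≤ T →
      ‖F₂ γ (2 * T) - mono (pairing θ₀ γ) 2 * F₂ γ T‖ ≤ C₁ * T ^ a₁ := by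
    intro γ hγ T hT
    have hT0 : 0 < T := by linarith
    refine le_of_eq_of_le ?_ (hb' γ (hUr₁ hγ) T hT)
    congr 1
    simp only [hF₂]
    have h1 : ∑ θ ∈ Λ, c θ γ * mono (pairing θ γ) (2 * T) =
        ∑ θ ∈ Λ, b' θ γ * mono (pairing θ γ) T +
          mono (pairing θ₀ γ) 2 * ∑ θ ∈ Λ, c θ γ * mono (pairing θ γ) T := by
      rw [Finset.mul_sum, ← Finset.sum_add_distrib]
      refine Finset.sum_congr rfl fun θ hθ' => ?_
      rw [mono_two_mul _ hT0]
      have h2 : c θ γ * (mono (pairing θ γ) 2 - mono (pairing θ₀ γ) 2) = b' θ γ :=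
        div_mul_cancel₀ _ (hne γ hγ θ hθ')
      rw [← h2]
      ring
    rw [h1]
    unfold dlt
    rw [mc_real]
    ring
  set H : (Ix k → ℝ) → ℝ → ℂ := fun γ T => F₂ γ T / mono (pairing θ₀ γ) T with hH
  have hHc : ∀ T : ℝ, 1 ≤ T → ContinuousOn (fun γ => H γ T) U := by
    intro T hT
    have hT0 : 0 < T := by linarith
    exact (hF₂c T hT).div (continuous_mono_pairing θ₀ hT0).continuousOn
      fun γ _ => mono_ne_zero _ hT0
  have hHd : ∀ γ ∈ U, ∀ T : ℝ, 1 ≤ T → ‖H γ (2 * T) - H γ T‖ ≤ C₁ * T ^ (a₁ - 1) := by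
    intro γ hγ T hT
    have hT0 : 0 < T := by linarith
    have h1 : H γ (2 * T) - H γ T =
        (F₂ γ (2 * T) - mono (pairing θ₀ γ) 2 * F₂ γ T) / mono (pairing θ₀ γ) (2 * T) := by
      simp only [hH]
      have h2 := mono_ne_zero (pairing θ₀ γ) hT0
      have h3 := mono_ne_zero (pairing θ₀ γ) (T := 2) (by norm_num)
      rw [mono_two_mul _ hT0]
      field_simp
    rw [h1, norm_div, norm_mono' _ (by positivity), div_le_iff₀ (by positivity)]
    refine (hF₂d γ hγ T hT).trans ?_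
    have h4 : T ^ (a₁ - 1) * T = T ^ a₁ := by
      rw [Real.rpow_sub_one hT0.ne', div_mul_cancel₀ _ hT0.ne']
    calc C₁ * T ^ a₁ = C₁ * (T ^ (a₁ - 1) * T) := by rw [h4]
      _ ≤ C₁ * (T ^ (a₁ - 1) * T) * 2 := by
          have : 0 ≤ C₁ * (T ^ (a₁ - 1) * T) := by positivity
          linarith
      _ = _ := by ring
  obtain ⟨L, hLc, hLt, hLb⟩ := exists_dyadic_limit ha₁ hHc hHd
  have hLae : ∀ T : ℝ, 1 ≤ T → (fun γ => L γ T) =ᵐ[volume.restrict U] fun γ => L γ 1 := by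
    intro T hT
    have hkey : ∀ᵐ γ : Ix k → ℝ, γ ∈ U → ∃ l : ℂ, ∀ T : ℝ, 1 ≤ T → L γ T = l := by
      filter_upwards [h] with γ hγ hγU
      obtain ⟨b, hb⟩ := hγ (hUr hγU)
      refine ⟨b θ₀, fun T hT => ?_⟩
      have hT0 : 0 < T := by linarith
      -- identify the coefficients
      have e1 := Expn.dlt hθ hb
      have e2 : (fun T : ℝ => dlt θ₀ F T (fun i => (γ i : ℂ)) -
          ∑ θ ∈ Λ, b' θ γ * mono (pairing θ γ) T) =O[atTop] fun T : ℝ => T ^ a₁ := by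
        refine IsBigO.of_bound C₁ ?_
        filter_upwards [eventually_ge_atTop 1] with S hS
        rw [Real.norm_of_nonneg (by positivity : 0 ≤ S ^ a₁)]
        exact hb' γ (hUr₁ hγU) S hS
      have hmono : ∀ {x y : ℝ}, x ≤ y → (fun T : ℝ => T ^ x) =O[atTop] fun T : ℝ => T ^ y := by
        intro x y hxy
        refine IsBigO.of_bound 1 ?_
        filter_upwards [eventually_ge_atTop 1] with S hS
        rw [Real.norm_of_nonneg (by positivity), Real.norm_of_nonneg (by positivity), one_mul]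
        exact Real.rpow_le_rpow_of_exponent_le hS hxy
      have e3 : (fun T : ℝ => ∑ θ ∈ Λ,
          (b θ * (mono (pairing θ γ) 2 - mono (pairing θ₀ γ) 2) - b' θ γ) *
            mono (pairing θ γ) T) =O[atTop] fun T : ℝ => T ^ (max a a₁) := by
        have e4 := (e2.trans (hmono (le_max_right a a₁))).sub
          (e1.trans (hmono (le_max_left a a₁)))
        refine e4.congr_left fun T => ?_
        rw [show ∀ x y z : ℂ, x - y - (x - z) = z - y by intros; ring,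
          ← Finset.sum_sub_distrib]
        refine Finset.sum_congr rfl fun θ _ => ?_
        ring
      have e5 := coeff_zero ((hgen γ (hUr₂ hγU)).subset (Finset.subset_insert _ _))
        (max_lt ha ha₁) e3
      have e6 : ∀ θ ∈ Λ, c θ γ = b θ := by
        intro θ hθ'
        simp only [hc]
        rw [div_eq_iff (hne γ hγU θ hθ')]
        exact (sub_eq_zero.1 (e5 θ hθ')).symm
      have e7 : (fun T : ℝ => F₂ γ T - b θ₀ * mono (pairing θ₀ γ) T) =O[atTop]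
          fun T : ℝ => T ^ a := by
        refine IsBigO.congr_left hb fun T => ?_
        have hsum : ∑ θ ∈ Λ, c θ γ * mono (pairing θ γ) T =
            ∑ θ ∈ Λ, b θ * mono (pairing θ γ) T :=
          Finset.sum_congr rfl fun θ hθ' => by rw [e6 θ hθ']
        simp only [hF₂]
        rw [Finset.sum_insert hθ, hsum]
        ring
      have e8 : Tendsto (fun T : ℝ => H γ T) atTop (𝓝 (b θ₀)) := by
        rw [tendsto_iff_norm_sub_tendsto_zero]
        obtain ⟨K, hK⟩ := e7.bound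
        have h9 : Tendsto (fun T : ℝ => K * T ^ (-(1 - a))) atTop (𝓝 0) := by
          have := (tendsto_rpow_neg_atTop (y := 1 - a) (by linarith)).const_mul K
          simpa using this
        refine squeeze_zero' (Eventually.of_forall fun _ => norm_nonneg _) ?_ h9
        filter_upwards [hK, eventually_gt_atTop 0] with S hS hS0
        rw [Real.norm_of_nonneg (by positivity)] at hS
        have h10 : H γ S - b θ₀ = (F₂ γ S - b θ₀ * mono (pairing θ₀ γ) S) /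
            mono (pairing θ₀ γ) S := by
          simp only [hH]
          have := mono_ne_zero (pairing θ₀ γ) hS0
          field_simp
        rw [h10, norm_div, norm_mono' _ hS0, div_le_iff₀ hS0]
        refine hS.trans (le_of_eq ?_)
        rw [mul_assoc]
        congr 1
        nth_rewrite 3 [← Real.rpow_one S]
        rw [← Real.rpow_add hS0]
        congr 1
        ring
      have e9 : Tendsto (fun n : ℕ => (2:ℝ) ^ n * T) atTop atTop :=
        (tendsto_pow_atTop_atTop_of_one_lt (by norm_num)).atTop_mul_const hT0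
      exact tendsto_nhds_unique (hLt γ hγU T hT) (e8.comp e9)
    rw [Filter.EventuallyEq, ae_restrict_iff' Metric.isOpen_ball.measurableSet]
    filter_upwards [hkey] with γ hγ hγU
    obtain ⟨l, hl⟩ := hγ hγU
    rw [hl T hT, hl 1 le_rfl]
  have hLeq : ∀ γ ∈ U, ∀ T : ℝ, 1 ≤ T → L γ T = L γ 1 := by
    intro γ hγ T hT
    exact Measure.eqOn_open_of_ae_eq (hLae T hT) Metric.isOpen_ball (hLc T hT)
      (hLc 1 le_rfl) hγ
  refine ⟨fun θ => if θ = θ₀ then fun γ => L γ 1 else c θ, ρ, hρ0, a₁, ha₁,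
    C₁ / (1 - 2 ^ (a₁ - 1)), ?_, ?_⟩
  · intro θ hθ'
    by_cases h1 : θ = θ₀
    · simp only [h1, if_true]
      exact hLc 1 le_rfl
    · simp only [h1, if_false]
      exact hcc θ ((Finset.mem_insert.1 hθ').resolve_left h1)
  · intro γ hγ T hT
    have hT0 : 0 < T := by linarith
    have h1 : ∑ θ ∈ insert θ₀ Λ, (if θ = θ₀ then fun γ => L γ 1 else c θ) γ *
        mono (pairing θ γ) T = L γ 1 * mono (pairing θ₀ γ) T +
          ∑ θ ∈ Λ, c θ γ * mono (pairing θ γ) T := by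
      rw [Finset.sum_insert hθ, if_pos rfl]
      congr 1
      refine Finset.sum_congr rfl fun θ hθ' => ?_
      have h2 : θ ≠ θ₀ := fun h2 => hθ (h2 ▸ hθ')
      rw [if_neg h2]
    rw [h1]
    have h2 : F T (fun i => (γ i : ℂ)) - (L γ 1 * mono (pairing θ₀ γ) T +
        ∑ θ ∈ Λ, c θ γ * mono (pairing θ γ) T) =
        (H γ T - L γ T) * mono (pairing θ₀ γ) T := by
      rw [hLeq γ hγ T hT]
      simp only [hH, hF₂]
      have := mono_ne_zero (pairing θ₀ γ) hT0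
      field_simp
      ring
    rw [h2, norm_mul, norm_mono' _ hT0]
    refine (mul_le_mul_of_nonneg_right (hLb γ hγ T hT) hT0.le).trans (le_of_eq ?_)
    rw [mul_assoc, Real.rpow_sub_one hT0.ne', div_mul_cancel₀ _ hT0.ne']

theorem Fam.expand {γ₀ : Ix k → ℝ} {r : ℝ} (hr : 0 < r) {F : ℝ → (Ix k → ℂ) → ℂ}
    (hF : Fam γ₀ r F) (Λ : Finset (Ix k → ℝ)) (hg : Gen Λ γ₀) {a : ℝ} (ha : a < 1)
    (h : ∀ᵐ γ : Ix k → ℝ, γ ∈ Metric.ball γ₀ r → ∃ b : (Ix k → ℝ) → ℂ,
      Expn Λ a γ b (fun T => F T (fun i => (γ i : ℂ)))) :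
    ∃ b : (Ix k → ℝ) → (Ix k → ℝ) → ℂ,
      LExpn Λ γ₀ b (fun γ T => F T (fun i => (γ i : ℂ))) := by
  classical
  induction Λ using Finset.induction_on generalizing F with
  | empty =>
    have h1 : ∀ᵐ γ : Ix k → ℝ, γ ∈ Metric.ball γ₀ r →
        (fun T => F T (fun i => (γ i : ℂ))) =O[atTop] fun T : ℝ => T ^ a := by
      filter_upwards [h] with γ hγ hγ'
      obtain ⟨b, hb⟩ := hγ hγ'
      simpa [Expn] using hb
    obtain ⟨C, hC⟩ := hF.uniform_of_ae hr (ε := (1 - a) / 2) (by linarith) h1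
    refine ⟨fun _ _ => 0, r / 4, by positivity, a + (1 - a) / 2, by linarith, C, ?_, ?_⟩
    · intro θ hθ
      simp at hθ
    · intro γ hγ T hT
      simpa using hC γ hγ T hT
  | insert θ₀ Λ hθ ih =>
    obtain ⟨b', hb'⟩ := ih (F := Pool.Agent.H26.dlt θ₀ F) (hF.dlt θ₀) (hg.subset (Finset.subset_insert _ _)) (by
      filter_upwards [h] with γ hγ hγ'
      obtain ⟨b, hb⟩ := hγ hγ'
      exact ⟨_, Expn.dlt hθ hb⟩)
    exact expand_step hr hF hθ hg ha h hb'

end Pool.Agent.H26
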