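import Pool.Agent.H26.RG.Diff
import Pool.Agent.H26.Err

/-!
The moment and the error term are families in the sense of `Fam`.
-/

namespace Pool.Agent.H26

open Complex Finset MeasureTheory Filter Asymptotics Topology

variable {k : ℕ}

/-- The moment for complex shifts. -/
noncomputable def Mc (T : ℝ) (γ : Ix k → ℂ) : ℂ := ∫ t in (0 : ℝ)..T, Zc γ t

theorem Mr_eq_Mc (γ : Ix k → ℝ) (T : ℝ) : Mr γ T = Mc T (fun i => (γ i : ℂ)) := by
  unfold Mr Mc
  exact intervalIntegral.integral_congr fun t _ => Z_eq_Zc γ t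

lemma mem_tube_of_dist {γ₀ : Ix k → ℝ} {z : Ix k → ℂ}
    (hz : dist z (fun i => (γ₀ i : ℂ)) < 1 / 16) : z ∈ tube (Ix k) := by
  intro i
  have h1 := (dist_le_pi_dist z (fun i => (γ₀ i : ℂ)) i).trans_lt hz
  have h2 := Complex.abs_im_le_norm (z i - (γ₀ i : ℂ))
  rw [← dist_eq_norm] at h2
  have h3 : (z i - (γ₀ i : ℂ)).im = (z i).im := by simp
  rw [h3] at h2
  linarith

lemma re_le_of_dist {γ₀ : Ix k → ℝ} {z : Ix k → ℂ}
    (hz : dist z (fun i => (γ₀ i : ℂ)) < 1 / 16) (i : Ix k) : |(z i).re| ≤ ‖γ₀‖ + 1 := by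
  have h1 := (dist_le_pi_dist z (fun i => (γ₀ i : ℂ)) i).trans_lt hz
  have h2 := Complex.abs_re_le_norm (z i - (γ₀ i : ℂ))
  rw [← dist_eq_norm] at h2
  have h3 : (z i - (γ₀ i : ℂ)).re = (z i).re - γ₀ i := by simp
  rw [h3] at h2
  have h4 : |γ₀ i| ≤ ‖γ₀‖ := by
    rw [← Real.norm_eq_abs]
    exact norm_le_pi_norm γ₀ i
  have h5 : |(z i).re| ≤ |(z i).re - γ₀ i| + |γ₀ i| := by
    have := abs_add_le ((z i).re - γ₀ i) (γ₀ i)
    simpa using this
  linarith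

lemma dist_line_lt {γ₀ γ : Ix k → ℝ} {r : ℝ} (hr : 0 < r) (hγ : dist γ γ₀ < r / 2)
    {v : Ix k → ℝ} (hv : v ∈ Set.Icc (0 : Ix k → ℝ) 1) {x : ℂ} (hx : x ∈ Metric.ball (0:ℂ) (r / 2)) :
    dist (fun i => (γ i : ℂ) + x * v i) (fun i => (γ₀ i : ℂ)) < r := by
  rw [mem_ball_zero_iff] at hx
  rw [dist_pi_lt_iff hr]
  intro i
  have h1 : |γ i - γ₀ i| ≤ dist γ γ₀ := by
    rw [← Real.dist_eq]; exact dist_le_pi_dist _ _ i
  have h2 : |v i| ≤ 1 := by
    rw [abs_of_nonneg (hv.1 i)]; exact hv.2 i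
  calc dist ((γ i : ℂ) + x * v i) (γ₀ i : ℂ) = ‖((γ i - γ₀ i : ℝ) : ℂ) + x * v i‖ := by
        rw [dist_eq_norm]; push_cast; ring_nf
    _ ≤ |γ i - γ₀ i| + ‖x‖ * |v i| := by
        refine (norm_add_le _ _).trans ?_
        rw [norm_mul, Complex.norm_real, Complex.norm_real, Real.norm_eq_abs, Real.norm_eq_abs]
    _ ≤ |γ i - γ₀ i| + ‖x‖ * 1 := by gcongr
    _ < r := by linarith

lemma dist_real_lt {γ₀ γ : Ix k → ℝ} {r : ℝ} (hr : 0 < r) (hγ : dist γ γ₀ < r) :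
    dist (fun i => (γ i : ℂ)) (fun i => (γ₀ i : ℂ)) < r := by
  rw [dist_pi_lt_iff hr]
  intro i
  have h1 : dist ((γ i : ℂ)) (γ₀ i : ℂ) = dist (γ i) (γ₀ i) := by
    rw [dist_eq_norm, ← Complex.ofReal_sub, Complex.norm_real, ← dist_eq_norm]
  rw [h1]
  exact (dist_le_pi_dist γ γ₀ i).trans_lt hγ

theorem fam_Mc (γ₀ : Ix k → ℝ) : ∃ r > 0, Fam γ₀ r (Mc (k := k)) := by
  refine ⟨1 / 16, by norm_num, ?_, ?_, ?_⟩
  · set B : ℝ := ‖γ₀‖ + 1 with hB
    have hB0 : 0 ≤ B := by positivity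
    refine ⟨((6 + 3 * B) * 2) ^ (2 * k), ((2 * k + 1 : ℕ) : ℝ), fun T hT z hz => ?_⟩
    have hint : ∀ t ∈ Set.uIoc (0:ℝ) T, ‖Zc z t‖ ≤ ((6 + 3 * B) * 2) ^ (2 * k) * T ^ (2 * k) := by
      intro t ht
      rw [Set.uIoc_of_le (by linarith)] at ht
      have ht0 : |t| = t := abs_of_pos ht.1
      refine (norm_Zc_le (mem_tube_of_dist hz) (t := t) hB0 (re_le_of_dist hz)).trans ?_
      rw [ht0, ← mul_pow]
      have h1 := ht.1
      have h2 := ht.2
      have h3 : 1 + t ≤ 2 * T := by linarith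
      refine pow_le_pow_left₀ (by positivity) ?_ _
      calc (6 + 3 * B) * (1 + t) ≤ (6 + 3 * B) * (2 * T) := by gcongr
        _ = _ := by ring
    have h4 := intervalIntegral.norm_integral_le_of_norm_le_const hint
    unfold Mc
    refine h4.trans (le_of_eq ?_)
    rw [sub_zero, abs_of_pos (by linarith), Real.rpow_natCast, pow_succ]
    ring
  · intro T _ γ hγ v hv _
    have hmem : ∀ x ∈ Metric.ball (0:ℂ) (1 / 16 / 2),
        (fun i => (γ i : ℂ) + x * v i) ∈ tube (Ix k) := fun x hx =>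
      mem_tube_of_dist (dist_line_lt (by norm_num) hγ hv hx)
    have hA : ContinuousOn (fun q : ℝ × ℂ => Zc (fun i => (γ i : ℂ) + q.2 * v i) (q.1 : ℂ))
        (Set.univ ×ˢ Metric.ball (0:ℂ) (1 / 16 / 2)) := by
      rintro ⟨t, x⟩ ⟨_, hx⟩
      have h1' : Continuous (fun p : ℝ × ℂ => ((((p.1 : ℝ) : ℂ), fun i => (γ i : ℂ) + p.2 * v i) :
          ℂ × (Ix k → ℂ))) := by fun_prop
      have h1 := h1'.continuousAt (x := (t, x))
      have h2 : ContinuousAt (fun q : ℂ × (Ix k → ℂ) => Zc q.2 q.1)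
          (((t : ℝ) : ℂ), fun i => (γ i : ℂ) + x * v i) :=
        continuousAt_Zc ⟨im_ofReal_lt t, hmem x hx⟩
      exact (ContinuousAt.comp (f := fun p : ℝ × ℂ => ((((p.1 : ℝ) : ℂ),
        fun i => (γ i : ℂ) + p.2 * v i) : ℂ × (Ix k → ℂ))) (x := (t, x)) h2 h1).continuousWithinAt
    have hBd : ∀ t : ℝ, DifferentiableOn ℂ (fun x => Zc (fun i => (γ i : ℂ) + x * v i) (t : ℂ))
        (Metric.ball (0:ℂ) (1 / 16 / 2)) := by
      intro t
      refine differentiableOn_Zc_comp (im_ofReal_lt t) ?_ hmem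
      intro i
      fun_prop
    exact differentiableOn_intervalIntegral (a := 0) (b := T)
      (Φ := fun t x => Zc (fun i => (γ i : ℂ) + x * v i) (t : ℂ)) Metric.isOpen_ball hA hBd
  · intro T _
    rw [continuousOn_iff_continuous_domRestrict]
    have : LocallyCompactSpace ↥(Metric.ball γ₀ (1 / 16 : ℝ)) :=
      Metric.isOpen_ball.locallyCompactSpace
    have h4 : Continuous fun p : ↥(Metric.ball γ₀ (1 / 16 : ℝ)) × ℝ =>
        Zc (fun i => ((p.1.1 i : ℝ) : ℂ)) (p.2 : ℂ) := by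
      rw [continuous_iff_continuousAt]
      intro p
      have h1' : Continuous (fun p : ↥(Metric.ball γ₀ (1 / 16 : ℝ)) × ℝ =>
          ((((p.2 : ℝ) : ℂ), fun i => ((p.1.1 i : ℝ) : ℂ)) : ℂ × (Ix k → ℂ))) :=
        Continuous.prodMk (Complex.continuous_ofReal.comp continuous_snd)
          (continuous_pi fun i => Complex.continuous_ofReal.comp
            ((continuous_apply i).comp (continuous_subtype_val.comp continuous_fst)))
      have h1 := h1'.continuousAt (x := p)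
      have h2 : ContinuousAt (fun q : ℂ × (Ix k → ℂ) => Zc q.2 q.1)
          (((p.2 : ℝ) : ℂ), fun i => ((p.1.1 i : ℝ) : ℂ)) :=
        continuousAt_Zc ⟨im_ofReal_lt p.2,
          mem_tube_of_dist (dist_real_lt (by norm_num) p.1.2)⟩
      exact ContinuousAt.comp (f := fun p : ↥(Metric.ball γ₀ (1 / 16 : ℝ)) × ℝ =>
          ((((p.2 : ℝ) : ℂ), fun i => ((p.1.1 i : ℝ) : ℂ)) : ℂ × (Ix k → ℂ))) (x := p) h2 h1
    exact intervalIntegral.continuous_parametric_intervalIntegral_of_continuous' (μ := volume)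
      (f := fun (y : ↥(Metric.ball γ₀ (1 / 16 : ℝ))) (t : ℝ) =>
        Zc (fun i => ((y.1 i : ℝ) : ℂ)) (t : ℂ)) h4 0 T

theorem fam_Er (γ₀ : Ix k → ℝ) : ∃ r > 0, ∃ F : ℝ → (Ix k → ℂ) → ℂ, Fam γ₀ r F ∧
    ∀ γ ∈ Metric.ball γ₀ r, ∀ T : ℝ, F T (fun i => (γ i : ℂ)) = Er γ T := by
  obtain ⟨r, hr⟩ := exists_adm γ₀
  obtain ⟨R, hR0, hRle⟩ := exists_pos_le (κ := Ix k) (φ := fun i => r i / 2)
    (fun i => by have := hr.pos i; positivity)
  obtain ⟨C, hC0, hC⟩ := exists_Fext_bound hr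
  set c : Ix k → ℂ := fun i => (γ₀ i : ℂ) with hc
  have hclose : ∀ z : Ix k → ℂ, dist z c < R → ∀ i, dist (z i) (c i) ≤ r i / 2 := by
    intro z hz i
    exact ((dist_le_pi_dist z c i).trans hz.le).trans (hRle i)
  have hpoly : ∀ z : Ix k → ℂ, dist z c < R → z ∈ polyD c r := by
    intro z hz i
    have h1 := hclose z hz i
    have h2 := hr.pos i
    rw [Metric.mem_ball]
    linarith
  refine ⟨R, hR0, Fext c r, ⟨⟨C, ((2 * k + 1 : ℕ) : ℝ), ?_⟩, ?_, ?_⟩, ?_⟩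
  · intro T hT z hz
    exact hC T hT z (hclose z hz)
  · intro T _ γ hγ v hv hvinj
    have hv' : Function.Injective (fun i => (v i : ℂ)) := fun i j hij =>
      hvinj (Complex.ofReal_injective hij)
    exact differentiableOn_Fext_line hr hv' Metric.isOpen_ball
      (fun x hx => hpoly _ (dist_line_lt hR0 hγ hv hx)) T
  · intro T _
    rw [continuousOn_iff_continuous_domRestrict]
    have : LocallyCompactSpace ↥(Metric.ball γ₀ R) := Metric.isOpen_ball.locallyCompactSpace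
    have hemb : Continuous fun γ : Ix k → ℝ => (fun i => (γ i : ℂ)) := by fun_prop
    exact continuous_Fext_comp (Y := ↥(Metric.ball γ₀ R)) (g := fun y i => ((y.1 i : ℝ) : ℂ))
      hr (hemb.comp continuous_subtype_val) (fun y => hpoly _ (dist_real_lt hR0 y.2)) T
  · intro γ hγ T
    exact (Er_eq_Fext hr (hpoly _ (dist_real_lt hR0 hγ)) T).symm

/-- From `O(T)` almost everywhere to `O(T^(1+ε))` on compact sets, for the moment. -/
theorem oneEps_Mr (h : ∀ᵐ γ : Ix k → ℝ, (fun T => Mr γ T) =O[atTop] fun T : ℝ => T ^ (1 : ℝ)) :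
    OneEps (Mr (k := k)) := by
  intro ε hε K hK
  refine hK.induction_on (p := fun K => ∃ C : ℝ, ∀ γ ∈ K, ∀ T : ℝ, 1 ≤ T →
    ‖Mr γ T‖ ≤ C * T ^ (1 + ε)) ⟨0, by simp⟩ ?_ ?_ ?_
  · rintro s t hst ⟨C, hC⟩
    exact ⟨C, fun γ hγ => hC γ (hst hγ)⟩
  · rintro s t ⟨C, hC⟩ ⟨D, hD⟩
    refine ⟨max C D, fun γ hγ T hT => ?_⟩
    have hT0 : 0 < T := by linarith
    rcases hγ with hγ | hγ
    · exact (hC γ hγ T hT).trans (by gcongr; exact le_max_left _ _)
    · exact (hD γ hγ T hT).trans (by gcongr; exact le_max_right _ _)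
  · intro γ₀ _
    obtain ⟨r, hr, hF⟩ := fam_Mc γ₀
    obtain ⟨C, hC⟩ := hF.uniform_of_ae hr (a := 1) hε (by
      filter_upwards [h] with γ hγ _
      exact hγ.congr_left fun T => Mr_eq_Mc γ T)
    refine ⟨Metric.ball γ₀ (r / 4), mem_nhdsWithin_of_mem_nhds
      (Metric.ball_mem_nhds _ (by positivity)), C, fun γ hγ T hT => ?_⟩
    rw [Mr_eq_Mc]
    exact hC γ hγ T hT

theorem oneEps_Er (h : ∀ᵐ γ : Ix k → ℝ, (fun T => Er γ T) =O[atTop] fun T : ℝ => T ^ (1 : ℝ)) :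
    OneEps (Er (k := k)) := by
  intro ε hε K hK
  exact Er_uniform_of_ae (a := 1) isOpen_univ hε (by filter_upwards [h] with γ hγ _ using hγ)
    hK (Set.subset_univ _)

end Pool.Agent.H26
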