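import Pool.Agent.H26.RG.Neg

/-!
Negative frequencies do not occur in an expansion of the moment.
-/

namespace Pool.Agent.H26

open Complex Finset MeasureTheory Filter Asymptotics Topology

variable {k : ℕ}

theorem neg_coord {γ₀ : Ix k → ℝ} {Λ : Finset (Ix k → ℝ)} {b : (Ix k → ℝ) → (Ix k → ℝ) → ℂ}
    (hb : LExpn Λ γ₀ b (Mr (k := k))) (h1 : OneEps (Mr (k := k))) (hg : Gen Λ γ₀) :
    ∀ θ ∈ Λ, (∃ i, θ i < 0) → b θ γ₀ = 0 := by
  classical
  rintro θ₀ hθ₀ ⟨i, hi⟩
  set s₀ : ℝ := θ₀ i with hs₀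
  set d : ℝ := -s₀ with hd
  have hd0 : 0 < d := by linarith
  set m : ℕ := 2 * k + 2 with hm
  set Y : ℝ := max 1 (2 * m / d) with hY
  have hY1 : 1 ≤ Y := le_max_left _ _
  have hY0 : 0 < Y := by linarith
  have hYm : (m : ℝ) ≤ Y * (d / 2) := by
    have h2 : 2 * m / d ≤ Y := le_max_right _ _
    rw [div_le_iff₀ hd0] at h2
    linarith
  obtain ⟨V, φ, CV, hCV, hVd, hVb, hVi, hφ0, -, hVf⟩ := exists_kernel (ρ := d / 4) (by positivity)
  obtain ⟨r, hr0, a, ha, C, hbc, hexp⟩ := hb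
  set B₀ : ℝ := ∑ i, |γ₀ i| with hB₀
  have hB₀0 : 0 ≤ B₀ := Finset.sum_nonneg fun _ _ => abs_nonneg _
  set A : ℝ := d / (4 * Y) with hA
  have hA0 : 0 < A := by positivity
  have hAY : A * Y = d / 4 := by
    rw [hA]
    field_simp
  have key := avg_limit (κ := Ix k → ℝ) (Λ := Λ) (N := fun θ => θ i)
    (ω := fun θ => pairing θ γ₀) (s₀ := s₀) (ρ := d / 4) (A := A) hg.injOn hA0
    hCV hVd hVb hVi hφ0 hVf (f := fun L x => Mr (gs γ₀ i x) (Real.exp L))
    (fun L _ => (continuous_Mr _).comp (continuous_gs γ₀ i)) (r := r) (a := a) hr0 ha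
    (b := fun θ x => b θ (gs γ₀ i x)) (C := C) ?_ ?_ (K := 2 * k) ?_ ?_ θ₀ hθ₀ rfl
  · have key' : b θ₀ (gs γ₀ i 0) = 0 := key
    rwa [gs_zero] at key'
  · intro θ hθ
    refine (hbc θ hθ).comp (continuous_gs γ₀ i).continuousOn fun x hx => ?_
    exact dist_gs_lt γ₀ i (abs_lt.2 ⟨hx.1, hx.2⟩)
  · intro x hx L hL
    have hT1 : 1 ≤ Real.exp L := Real.one_le_exp (by linarith)
    have h3 := hexp _ (dist_gs_lt γ₀ i hx) (Real.exp L) hT1
    rw [← Real.exp_mul, mul_comm L a] at h3
    refine le_trans (le_of_eq ?_) h3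
    congr 2
    refine Finset.sum_congr rfl fun θ _ => ?_
    rw [mono_exp, pairing_gs]
  · intro ε hε κ' hκ'
    exact line_bound h1 (by positivity) (exists_Mr_poly k) (continuous_gs γ₀ i) hB₀0
      (abs_gs_le γ₀ i) hε hκ'
  · obtain ⟨C₁, hC₁0, hC₁⟩ := exists_one_avg γ₀ i hY1
    set n : ℕ := 2 * k + 3 + 3 with hn
    set Cn : ℝ := Real.exp ((n:ℝ) ^ 2 / (2 * A)) with hCn
    set C3 : ℝ := Real.exp (((3:ℕ):ℝ) ^ 2 / (2 * A)) with hC3
    have hCn0 : 0 < Cn := Real.exp_pos _
    have hC30 : 0 < C3 := Real.exp_pos _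
    have hpow : ∀ (n : ℕ) (x : ℝ), (1 + |x|) ^ n * Real.exp (-(A * x ^ 2)) ≤
        Real.exp ((n:ℝ) ^ 2 / (2 * A)) := by
      intro n x
      refine (pow_mul_exp_le n hA0 x).trans ?_
      have h6 : Real.exp (-(A / 2 * x ^ 2)) ≤ 1 := Real.exp_le_one_iff.2 (by
        have : 0 ≤ A / 2 * x ^ 2 := by positivity
        linarith)
      exact mul_le_of_le_one_right (Real.exp_pos _).le h6
    have hwb : ∀ L : ℝ, 1 ≤ L → ∀ z : ℂ, -Y ≤ z.im → z.im ≤ 0 →
        ‖wk V A s₀ L z‖ ≤ L * CV * Real.exp (-(A * z.re ^ 2)) *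
          Real.exp (-(L * (|z.im| * (d / 2)))) := by
      intro L hL z hz1 hz2
      have hL0 : 0 ≤ L := by linarith
      have hy0 := abs_nonneg z.im
      have hyY : |z.im| ≤ Y := by rw [abs_of_nonpos hz2]; linarith
      refine (norm_wk_le hVb A s₀ hL0 z).trans ?_
      rw [mul_assoc (L * CV), ← Real.exp_add]
      have h5 : L * (d / 4 * |z.im| - A * (z.re ^ 2 - z.im ^ 2) - s₀ * z.im) ≤
          -(A * z.re ^ 2) + -(L * (|z.im| * (d / 2))) := by
        have e1 : s₀ * z.im = d * |z.im| := by rw [abs_of_nonpos hz2, hd]; ring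
        have e2 : A * z.im ^ 2 ≤ d / 4 * |z.im| := by
          rw [← sq_abs, ← hAY]
          have : |z.im| ^ 2 ≤ Y * |z.im| := by
            rw [pow_two]
            gcongr
          calc A * |z.im| ^ 2 ≤ A * (Y * |z.im|) := by gcongr
            _ = _ := by ring
        have e3 : 0 ≤ (L - 1) * (A * z.re ^ 2) := mul_nonneg (by linarith) (by positivity)
        have e4 : L * (A * z.im ^ 2) ≤ L * (d / 4 * |z.im|) := by gcongr
        rw [e1]
        linarith
      gcongr
    have hbd : ∀ L : ℝ, 1 ≤ L → ‖(Real.exp (-L) : ℂ) * ∫ x : ℝ, wk V A s₀ L x *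
        Mr (gs γ₀ i x) (Real.exp L)‖ ≤
        (C₁ * (CV * C3 + CV * Cn)) * (L * Real.exp (-(1 * L))) := by
      intro L hL
      have hL0 : 0 ≤ L := by linarith
      have hT1 : 1 ≤ Real.exp L := Real.one_le_exp hL0
      have h3 := hC₁ (wk V A s₀ L) (L * CV * Cn) (L * CV * C3 * Real.exp (-(L * m)))
        (differentiable_wk hVd _ _ _) ?_ ?_ (Real.exp L) hT1
      · rw [norm_mul, Complex.norm_real, Real.norm_of_nonneg (Real.exp_pos _).le]
        have e1 : Real.exp (-(L * m)) * Real.exp L ^ (2 * k + 2) = 1 := by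
          rw [← Real.exp_nat_mul, ← Real.exp_add]
          have : -(L * (m:ℝ)) + ((2 * k + 2 : ℕ) : ℝ) * L = 0 := by rw [hm]; ring
          rw [this, Real.exp_zero]
        calc Real.exp (-L) * ‖∫ x : ℝ, wk V A s₀ L x * Mr (gs γ₀ i x) (Real.exp L)‖
            ≤ Real.exp (-L) * (C₁ * (L * CV * C3 * Real.exp (-(L * m)) *
                Real.exp L ^ (2 * k + 2) + L * CV * Cn)) := by gcongr
          _ = Real.exp (-L) * (C₁ * (L * CV * C3 * (Real.exp (-(L * m)) *
                Real.exp L ^ (2 * k + 2)) + L * CV * Cn)) := by ring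
          _ = _ := by
              rw [e1, one_mul]
              ring
      · intro z hz1 hz2
        have h4 := hwb L hL z hz1 hz2
        have h5 : Real.exp (-(L * (|z.im| * (d / 2)))) ≤ 1 := Real.exp_le_one_iff.2 (by
          have : 0 ≤ L * (|z.im| * (d / 2)) := by positivity
          linarith)
        calc (1 + |z.re|) ^ n * ‖wk V A s₀ L z‖
            ≤ (1 + |z.re|) ^ n * (L * CV * Real.exp (-(A * z.re ^ 2)) * 1) := by
              gcongr
              exact h4.trans (by gcongr)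
          _ = L * CV * ((1 + |z.re|) ^ n * Real.exp (-(A * z.re ^ 2))) := by ring
          _ ≤ L * CV * Cn := by
              have := hpow n z.re
              gcongr
      · intro z hz
        have h4 := hwb L hL z hz.ge (by rw [hz]; linarith)
        have h5 : Real.exp (-(L * (|z.im| * (d / 2)))) ≤ Real.exp (-(L * m)) := by
          rw [hz, abs_neg, abs_of_pos hY0]
          gcongr
        calc (1 + |z.re|) ^ 3 * ‖wk V A s₀ L z‖
            ≤ (1 + |z.re|) ^ 3 * (L * CV * Real.exp (-(A * z.re ^ 2)) *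
              Real.exp (-(L * m))) := by
              gcongr
              exact h4.trans (by gcongr)
          _ = L * CV * ((1 + |z.re|) ^ 3 * Real.exp (-(A * z.re ^ 2))) *
              Real.exp (-(L * m)) := by ring
          _ ≤ L * CV * C3 * Real.exp (-(L * m)) := by
              have := hpow 3 z.re
              gcongr
    have h4 := (tendsto_mul_exp_neg (c := 1) one_pos).const_mul (C₁ * (CV * C3 + CV * Cn))
    rw [mul_zero] at h4
    refine squeeze_zero_norm' ?_ h4
    filter_upwards [eventually_ge_atTop 1] with L hL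
    exact hbd L hL

end Pool.Agent.H26
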