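import Pool.Agent.H26.RG.Van
import Pool.Agent.H26.RG.Diff
import Pool.Agent.H26.RG.Fams
import Pool.Agent.H26.RG.NegC
import Pool.Agent.H26.RG.Chart

/-!
The vanishing of the coefficients of the error.
-/

namespace Pool.Agent.H26

open Complex Finset MeasureTheory Filter Asymptotics Topology

variable {k : ℕ}

/-- An expansion of the moment at almost every shift. -/
structure Setup (k : ℕ) (Λ : Finset (Ix k → ℝ)) (a : ℝ) (c : (Ix k → ℝ) → (Ix k → ℝ) → ℂ) :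
    Prop where
  ha0 : 0 < a
  ha1 : a < 1
  hΛ : corners k ⊆ Λ
  hc : ∀ᵐ γ : Ix k → ℝ, Expn Λ a γ (c γ) (Mr γ)

variable {Λ : Finset (Ix k → ℝ)} {a : ℝ} {c : (Ix k → ℝ) → (Ix k → ℝ) → ℂ}

lemma Setup.hE (h : Setup k Λ a c) :
    ∀ᵐ γ : Ix k → ℝ, Expn Λ a γ (fun θ => c γ θ - qcs γ θ) (Er γ) := by
  filter_upwards [h.hc, ae_injective] with γ h1 h2 using h1.error h.hΛ h.ha0 h2

lemma Setup.vanA (h : Setup k Λ a c) {θ : Ix k → ℝ} (hθ : θ ∈ Λ) (hs : ∑ i, θ i < 2) :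
    ∀ᵐ γ : Ix k → ℝ, c γ θ - qcs γ θ = 0 := by
  have hE := h.hE
  have h1 : OneEps (Er (k := k)) := oneEps_Er (by
    filter_upwards [hE] with γ hγ using hγ.isBigO_one h.ha1)
  filter_upwards [hE, ae_gen Λ] with γ₀ h2 h3
  obtain ⟨r, hr, F, hF, hFE⟩ := fam_Er γ₀
  obtain ⟨b, hb⟩ := Fam.expand hr hF Λ h3 h.ha1 (by
    filter_upwards [hE] with γ hγ hγr
    have e : (fun T => F T (fun i => (γ i : ℂ))) = Er γ := funext fun T => hFE γ hγr T
    rw [e]
    exact ⟨_, hγ⟩)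
  have hb' : LExpn Λ γ₀ b Er := hb.congr hr hFE
  have h4 := chart hb' h1 h3 θ hθ hs
  obtain ⟨a', ha', h5⟩ := hb'.expn
  have h6 := Expn.unique (max_lt h.ha1 ha') h3 (h2.mono_exp (le_max_left _ _))
    (h5.mono_exp (le_max_right _ _)) θ hθ
  rw [h6, h4]

lemma Setup.vanC (h : Setup k Λ a c) {θ : Ix k → ℝ} (hθ : θ ∈ Λ) (hs : ∃ i, θ i < 0) :
    ∀ᵐ γ : Ix k → ℝ, c γ θ = 0 := by
  have hE := h.hc
  have h1 : OneEps (Mr (k := k)) := oneEps_Mr (by
    filter_upwards [hE] with γ hγ using hγ.isBigO_one h.ha1)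
  filter_upwards [hE, ae_gen Λ] with γ₀ h2 h3
  obtain ⟨r, hr, hF⟩ := fam_Mc γ₀
  obtain ⟨b, hb⟩ := Fam.expand hr hF Λ h3 h.ha1 (by
    filter_upwards [hE] with γ hγ hγr
    have e : (fun T => Mc T (fun i => (γ i : ℂ))) = Mr γ := funext fun T => (Mr_eq_Mc γ T).symm
    rw [e]
    exact ⟨_, hγ⟩)
  have hb' : LExpn Λ γ₀ b Mr := hb.congr hr fun γ _ T => (Mr_eq_Mc γ T).symm
  have h4 := neg_coord hb' h1 h3 θ hθ hs
  obtain ⟨a', ha', h5⟩ := hb'.expn
  have h6 := Expn.unique (max_lt h.ha1 ha') h3 (h2.mono_exp (le_max_left _ _))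
    (h5.mono_exp (le_max_right _ _)) θ hθ
  rw [h6, h4]

lemma norm_mono_add_one_sub {ω T : ℝ} (hT : 1 ≤ T) :
    ‖mono ω (T + 1) - mono ω T‖ ≤ ‖(1 - I * ω : ℂ)‖ := by
  have hT0 : 0 < T := by linarith
  have h1 := integral_cpow_neg_I ω hT0 (show T ≤ T + 1 by linarith)
  have h2 : mono ω (T + 1) - mono ω T =
      (1 - I * ω) * ∫ t in T..(T + 1), (t : ℂ) ^ (-(I * ω)) := by
    rw [h1, mul_div_cancel₀ _ (one_sub_I_mul_ne ω)]
  have h3 : ‖∫ t in T..(T + 1), (t : ℂ) ^ (-(I * ω))‖ ≤ 1 * |T + 1 - T| := by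
    refine intervalIntegral.norm_integral_le_of_norm_le_const fun t ht => ?_
    rw [Set.uIoc_of_le (by linarith)] at ht
    rw [norm_cpow_neg_I (by linarith [ht.1])]
  rw [show T + 1 - T = 1 by ring, abs_one, mul_one] at h3
  rw [h2, norm_mul]
  calc _ ≤ ‖(1 - I * ω : ℂ)‖ * 1 := by gcongr
    _ = _ := mul_one _

lemma Mr_add_one (γ : Ix k → ℝ) (T : ℝ) :
    Mr (γ + fun _ => 1) T = Mr γ (T + 1) - Mr γ 1 := by
  have h1 : Mr (γ + fun _ => 1) T = ∫ t in (0:ℝ)..T,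
      (fun u : ℝ => Z (fun j => γ (Sum.inl j)) (fun j => γ (Sum.inr j)) u) (t + 1) := by
    unfold Mr
    congr 1
    funext t
    unfold Z
    refine Finset.prod_congr rfl fun j _ => ?_
    simp only [Pi.add_apply]
    push_cast
    congr 3 <;> ring
  rw [h1, intervalIntegral.integral_comp_add_right, zero_add]
  unfold Mr
  rw [eq_sub_iff_add_eq, add_comm]
  exact intervalIntegral.integral_add_adjacent_intervals
    ((continuous_Z_t γ).intervalIntegrable _ _) ((continuous_Z_t γ).intervalIntegrable _ _)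

lemma isBigO_rpow_add_one {a : ℝ} (ha : 0 < a) :
    (fun T : ℝ => (T + 1) ^ a) =O[atTop] fun T : ℝ => T ^ a := by
  refine Asymptotics.IsBigO.of_bound (2 ^ a) ?_
  filter_upwards [eventually_ge_atTop 1] with T hT
  have hT0 : 0 < T := by linarith
  rw [Real.norm_of_nonneg (by positivity), Real.norm_of_nonneg (by positivity),
    ← Real.mul_rpow (by norm_num) hT0.le]
  exact Real.rpow_le_rpow (by positivity) (by linarith) ha.le

lemma isBigO_const_rpow {a : ℝ} (ha : 0 < a) {f : ℝ → ℂ} {C : ℝ}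
    (hf : ∀ T : ℝ, 1 ≤ T → ‖f T‖ ≤ C) : f =O[atTop] fun T : ℝ => T ^ a := by
  refine Asymptotics.IsBigO.of_bound C ?_
  filter_upwards [eventually_ge_atTop 1] with T hT
  have hT0 : 0 < T := by linarith
  have h1 : (1:ℝ) ≤ T ^ a := Real.one_le_rpow hT ha.le
  have hC : 0 ≤ C := (norm_nonneg _).trans (hf T hT)
  rw [Real.norm_of_nonneg (by positivity)]
  calc _ ≤ C := hf T hT
    _ = C * 1 := (mul_one _).symm
    _ ≤ _ := by gcongr

lemma Setup.vanE (h : Setup k Λ a c) {θ : Ix k → ℝ} (hθ : θ ∈ Λ)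
    (hs : pairing θ (fun _ => 1) ≠ 0) : ∀ᵐ γ : Ix k → ℝ, c γ θ = 0 := by
  classical
  have h3 : ∀ᵐ γ : Ix k → ℝ, ∀ θ' : Λ,
      pairing θ γ ≠ pairing θ'.1 γ + pairing θ'.1 (fun _ => 1) := by
    rw [ae_all_iff]
    intro θ'
    by_cases hne : θ = θ'.1
    · refine Eventually.of_forall fun γ h => hs ?_
      rw [← hne] at h
      linarith
    · exact ae_pairing_ne hne _
  filter_upwards [h.hc, ae_add h.hc (fun _ => 1), ae_gen Λ, h3] with γ h1 h2 h4 h5
  have e1 : (fun T : ℝ => Mr γ (T + 1) - ∑ θ ∈ Λ, c γ θ * mono (pairing θ γ) (T + 1)) =O[atTop]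
      fun T : ℝ => T ^ a :=
    (IsBigO.comp_tendsto h1 (tendsto_atTop_add_const_right _ 1 tendsto_id)).trans
      (isBigO_rpow_add_one h.ha0)
  have e2 : (fun T : ℝ => ∑ θ ∈ Λ, c γ θ * (mono (pairing θ γ) (T + 1) - mono (pairing θ γ) T))
      =O[atTop] fun T : ℝ => T ^ a := by
    refine Asymptotics.IsBigO.fun_sum fun θ _ => Asymptotics.IsBigO.const_mul_left ?_ _
    exact isBigO_const_rpow h.ha0 fun T hT => norm_mono_add_one_sub hT
  have e3 : (fun _ : ℝ => Mr γ 1) =O[atTop] fun T : ℝ => T ^ a :=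
    isBigO_const_rpow h.ha0 fun T _ => le_refl _
  have e4 := ((h2.sub e1).sub e2).add e3
  have h6 := unique_one (Λ.disjSum Λ) (ω := Sum.elim (fun θ => pairing θ γ)
      (fun θ => pairing θ (γ + fun _ => 1))) (b := Sum.elim (c γ)
      (fun θ => -c (γ + fun _ => 1) θ)) h.ha1 (by
    refine e4.congr_left fun T => ?_
    rw [Finset.sum_disjSum]
    simp only [Sum.elim_inl, Sum.elim_inr, neg_mul, Finset.sum_neg_distrib, mul_sub,
      Finset.sum_sub_distrib]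
    rw [Mr_add_one]
    ring) (i₀ := Sum.inl θ) (Finset.inl_mem_disjSum.2 hθ) ?_
  · exact h6
  · rintro (θ' | θ') hi hne
    · intro heq
      apply hne
      exact congrArg Sum.inl (h4.injOn (Finset.inl_mem_disjSum.1 hi) hθ heq)
    · intro heq
      simp only [Sum.elim_inl, Sum.elim_inr] at heq
      rw [pairing_add] at heq
      exact h5 ⟨θ', Finset.inr_mem_disjSum.1 hi⟩ heq.symm

/-- The action of the change of charts on the frequency vectors. -/
noncomputable def star (S : Finset (Ix k)) (σ : Equiv.Perm (Ix k)) (ϑ : Ix k → ℝ) : Ix k → ℝ :=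
  fun i => corner S i + sg i * sg (σ.symm i) * ϑ (σ.symm i)

lemma pairing_star (S : Finset (Ix k)) (σ : Equiv.Perm (Ix k)) (ϑ γ : Ix k → ℝ) :
    pairing (star S σ ϑ) γ = pairing ϑ (fun i => γ (σ i)) + pairing (corner S) γ := by
  rw [pairing_eq_sum, pairing_eq_sum, pairing_eq_sum, ← Equiv.sum_comp σ.symm
    (fun i => sg i * ϑ i * γ (σ i)), ← Finset.sum_add_distrib]
  refine Finset.sum_congr rfl fun i _ => ?_
  rw [Equiv.apply_symm_apply]
  unfold star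
  have := sg_mul_self i
  linear_combination (sg (σ.symm i) * ϑ (σ.symm i) * γ i) * this

lemma Setup.transfer (h : Setup k Λ a c) {S : Finset (Ix k)} (hS : S.card = k)
    {σ : Equiv.Perm (Ix k)} (hσ : ∀ γ : Ix k → ℝ, Function.Injective γ → ∀ t : ℝ,
      Z (fun j => γ (Sum.inl j)) (fun j => γ (Sum.inr j)) t -
        Q (fun j => γ (Sum.inl j)) (fun j => γ (Sum.inr j)) t =
      G S (fun i => (γ i : ℂ)) (t : ℂ) *
        (Z (fun j => γ (σ (Sum.inl j))) (fun j => γ (σ (Sum.inr j))) t -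
          Q (fun j => γ (σ (Sum.inl j))) (fun j => γ (σ (Sum.inr j))) t))
    {θ : Ix k → ℝ} (hθ : θ ∈ Λ)
    (hv : ∀ ϑ ∈ Λ, star S σ ϑ = θ → ∀ᵐ γ : Ix k → ℝ, c γ ϑ - qcs γ ϑ = 0) :
    ∀ᵐ γ : Ix k → ℝ, c γ θ - qcs γ θ = 0 := by
  classical
  have h3 : ∀ᵐ γ : Ix k → ℝ, ∀ ϑ : Λ, star S σ ϑ.1 ≠ θ →
      pairing θ γ ≠ pairing (star S σ ϑ.1) γ := by
    rw [ae_all_iff]
    intro ϑ
    by_cases hne : θ = star S σ ϑ.1
    · exact Eventually.of_forall fun γ h => absurd hne.symm h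
    · filter_upwards [ae_pairing_ne hne 0] with γ hγ _
      simpa using hγ
  have h4 : ∀ᵐ γ : Ix k → ℝ, ∀ ϑ : Λ, star S σ ϑ.1 = θ →
      c (fun i => γ (σ i)) ϑ.1 - qcs (fun i => γ (σ i)) ϑ.1 = 0 := by
    rw [ae_all_iff]
    intro ϑ
    by_cases heq : star S σ ϑ.1 = θ
    · filter_upwards [ae_perm (hv ϑ.1 ϑ.2 heq) σ] with γ hγ _ using hγ
    · exact Eventually.of_forall fun γ h => absurd h heq
  filter_upwards [h.hE, ae_perm h.hE σ, ae_injective, ae_gen Λ, h3, h4] with γ e1 e2 hγ hg h5 h6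
  set δ : Ix k → ℝ := fun i => γ (σ i) with hδ
  have hδi : Function.Injective δ := hγ.comp σ.injective
  obtain ⟨hh, g, C, t₀, ht₀, hC, p1, p2, p3, p4, p5, p6⟩ := exists_G_asymp S hS γ
  have h7 := partial_sum (f := fun t : ℝ => Z (fun j => δ (Sum.inl j)) (fun j => δ (Sum.inr j)) t -
      Q (fun j => δ (Sum.inl j)) (fun j => δ (Sum.inr j)) t)
    ((continuous_Z_t δ).sub (continuous_Q_t hδi)) p6 ht₀ hC h.ha0 p1 p2 p3 p4 p5 Λ
    (fun ϑ => pairing ϑ δ) (fun ϑ => c δ ϑ - qcs δ ϑ) e2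
  have e3 : ∀ T : ℝ, Er γ T = ∫ t in (0:ℝ)..T, G S (fun i => (γ i : ℂ)) (t : ℂ) *
      (Z (fun j => δ (Sum.inl j)) (fun j => δ (Sum.inr j)) t -
        Q (fun j => δ (Sum.inl j)) (fun j => δ (Sum.inr j)) t) := by
    intro T
    unfold Er E
    congr 1
    funext t
    exact hσ γ hγ t
  set κ : (Ix k → ℝ) → ℂ := fun ϑ => (c δ ϑ - qcs δ ϑ) *
    ((2 * Real.pi : ℝ) : ℂ) ^ (I * pairing (corner S) γ) * (1 - I * pairing ϑ δ) /
      (1 - I * (pairing ϑ δ + pairing (corner S) γ : ℝ)) with hκ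
  have e4 := h7.sub e1
  have h8 := unique_one (Λ.disjSum (Λ.filter fun ϑ => star S σ ϑ ≠ θ))
      (ω := Sum.elim (fun θ => pairing θ γ) (fun ϑ => pairing ϑ δ + pairing (corner S) γ))
      (b := Sum.elim (fun θ => c γ θ - qcs γ θ) (fun ϑ => -κ ϑ)) h.ha1 (by
    refine e4.congr_left fun T => ?_
    rw [Finset.sum_disjSum, Finset.sum_filter]
    simp only [Sum.elim_inl, Sum.elim_inr]
    have e5 : ∀ ϑ ∈ Λ, (if star S σ ϑ ≠ θ then
        -κ ϑ * mono (pairing ϑ δ + pairing (corner S) γ) T else 0) =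
        -(κ ϑ * mono (pairing ϑ δ + pairing (corner S) γ) T) := by
      intro ϑ hϑ
      by_cases hst : star S σ ϑ = θ
      · rw [if_neg (by simpa using hst)]
        have := h6 ⟨ϑ, hϑ⟩ hst
        have hk : κ ϑ = 0 := by
          rw [hκ]
          simp only
          rw [this]
          ring
        rw [hk]
        ring
      · rw [if_pos hst]
        ring
    rw [Finset.sum_congr rfl e5, Finset.sum_neg_distrib, e3 T]
    ring) (i₀ := Sum.inl θ) (Finset.inl_mem_disjSum.2 hθ) ?_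
  · exact h8
  · rintro (θ' | ϑ) hi hne
    · intro heq
      apply hne
      exact congrArg Sum.inl (hg.injOn (Finset.inl_mem_disjSum.1 hi) hθ heq)
    · intro heq
      simp only [Sum.elim_inl, Sum.elim_inr] at heq
      have hm := Finset.mem_filter.1 (Finset.inr_mem_disjSum.1 hi)
      rw [← pairing_star] at heq
      exact h5 ⟨ϑ, hm.1⟩ hm.2 heq.symm

end Pool.Agent.H26
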