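import Pool.Agent.H26.RG.Defs

/-!
Uniqueness of expansions and generic shifts.
-/

namespace Pool.Agent.H26

open Complex Finset MeasureTheory Filter Asymptotics Topology

variable {k : ℕ}

lemma tendsto_exp_sum_zero {ι : Type*} [DecidableEq ι] (s : Finset ι) :
    ∀ (ω : ι → ℝ), Set.InjOn ω s → ∀ b : ι → ℂ,
    Tendsto (fun L : ℝ => ∑ i ∈ s, b i * cexp (-(I * ω i * L))) atTop (𝓝 0) →
    ∀ i ∈ s, b i = 0 := by
  induction s using Finset.induction_on with
  | empty => intro ω _ b _ i hi; simp at hi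
  | insert j s hj ih =>
    intro ω hω b hb
    have hsub : Set.InjOn ω s := hω.mono (by simp)
    have key : ∀ h : ℝ, ∀ i ∈ s, b i * (cexp (-(I * ω i * h)) - cexp (-(I * ω j * h))) = 0 := by
      intro h
      refine ih ω hsub (fun i => b i * (cexp (-(I * ω i * h)) - cexp (-(I * ω j * h)))) ?_
      have h1 : Tendsto (fun L : ℝ => (∑ i ∈ insert j s, b i * cexp (-(I * ω i * (L + h : ℝ)))) -
          cexp (-(I * ω j * h)) * ∑ i ∈ insert j s, b i * cexp (-(I * ω i * L))) atTop
          (𝓝 (0 - cexp (-(I * ω j * h)) * 0)) := by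
        refine Tendsto.sub ?_ (hb.const_mul _)
        exact hb.comp (tendsto_atTop_add_const_right _ h tendsto_id)
      rw [mul_zero, sub_zero] at h1
      refine h1.congr fun L => ?_
      rw [Finset.sum_insert hj, Finset.sum_insert hj]
      have e1 : ∀ i, cexp (-(I * ω i * (L + h : ℝ))) =
          cexp (-(I * ω i * L)) * cexp (-(I * ω i * h)) := by
        intro i
        rw [← Complex.exp_add]
        congr 1
        push_cast
        ring
      have e2 : ∑ i ∈ s, b i * cexp (-(I * ω i * (L + h : ℝ))) =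
          ∑ i ∈ s, b i * (cexp (-(I * ω i * L)) * cexp (-(I * ω i * h))) :=
        Finset.sum_congr rfl fun i _ => by rw [e1 i]
      rw [e1 j, e2, mul_add, Finset.mul_sum]
      have e3 : ∑ i ∈ s, b i * (cexp (-(I * ω i * L)) * cexp (-(I * ω i * h))) -
          ∑ i ∈ s, cexp (-(I * ω j * h)) * (b i * cexp (-(I * ω i * L))) =
          ∑ i ∈ s, b i * (cexp (-(I * ω i * h)) - cexp (-(I * ω j * h))) *
            cexp (-(I * ω i * L)) := by
        rw [← Finset.sum_sub_distrib]
        exact Finset.sum_congr rfl fun i _ => by ring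
      rw [← e3]
      ring
    have hs : ∀ i ∈ s, b i = 0 := by
      intro i hi
      have hne : ω i ≠ ω j := by
        intro h
        have := hω (by simp [hi]) (by simp) h
        exact hj (this ▸ hi)
      have hd : ω i - ω j ≠ 0 := sub_ne_zero.2 hne
      have h1 := key (1 / (ω i - ω j)) i hi
      rcases mul_eq_zero.1 h1 with h2 | h2
      · exact h2
      · exfalso
        have h3 : cexp (-(I * ω i * (1 / (ω i - ω j) : ℝ))) =
            cexp (-(I * ω j * (1 / (ω i - ω j) : ℝ))) := sub_eq_zero.1 h2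
        have h4 : cexp (-I) = 1 := by
          have e : (-I : ℂ) = -(I * ω i * (1 / (ω i - ω j) : ℝ)) -
              (-(I * ω j * (1 / (ω i - ω j) : ℝ))) := by
            have hd' : ((ω i : ℂ) - ω j) ≠ 0 := by exact_mod_cast hd
            push_cast
            field_simp
            ring
          rw [e, Complex.exp_sub, h3, div_self (Complex.exp_ne_zero _)]
        have h5 : Real.cos 1 = 1 := by
          have h6 := congrArg Complex.re h4
          rw [Complex.exp_re] at h6
          simpa using h6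
        have h7 := Real.cos_one_le
        linarith
    intro i hi
    rcases Finset.mem_insert.1 hi with rfl | hi
    · have h1 : Tendsto (fun L : ℝ => ‖∑ l ∈ insert i s, b l * cexp (-(I * ω l * L))‖) atTop
          (𝓝 0) := by
        have := hb.norm
        rwa [norm_zero] at this
      have h2 : ∀ L : ℝ, ‖∑ l ∈ insert i s, b l * cexp (-(I * ω l * L))‖ = ‖b i‖ := by
        intro L
        rw [Finset.sum_insert hj]
        have : ∑ l ∈ s, b l * cexp (-(I * ω l * L)) = 0 :=
          Finset.sum_eq_zero fun l hl => by rw [hs l hl, zero_mul]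
        rw [this, add_zero, norm_mul]
        have e : (-(I * ω i * L) : ℂ) = ((-(ω i * L) : ℝ) : ℂ) * I := by push_cast; ring
        rw [e, Complex.norm_exp_ofReal_mul_I, mul_one]
      have h3 : Tendsto (fun _ : ℝ => ‖b i‖) atTop (𝓝 0) := h1.congr h2
      have h4 := tendsto_nhds_unique h3 tendsto_const_nhds
      exact norm_eq_zero.1 h4.symm
    · exact hs i hi

lemma mono_eq {T : ℝ} (hT : 0 < T) (ω : ℝ) : mono ω T = T * cexp (-(I * ω * (Real.log T : ℝ))) := by
  have hT' : (T : ℂ) ≠ 0 := by exact_mod_cast hT.ne'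
  unfold mono
  rw [Complex.cpow_sub _ _ hT', Complex.cpow_one, Complex.exp_neg, div_eq_mul_inv,
    Complex.cpow_def_of_ne_zero hT', Complex.ofReal_log hT.le]
  congr 2
  ring_nf

lemma norm_mono {T : ℝ} (hT : 0 < T) (ω : ℝ) : ‖mono ω T‖ = T := by
  unfold mono
  rw [Complex.norm_cpow_eq_rpow_re_of_pos hT]
  simp

/-- Uniqueness of the coefficients of an expansion. -/
theorem unique_exp {ι : Type*} [DecidableEq ι] (s : Finset ι) {ω : ι → ℝ} (hω : Set.InjOn ω s)
    {b : ι → ℂ} {a : ℝ} (ha : a < 1)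
    (h : (fun T : ℝ => ∑ i ∈ s, b i * mono (ω i) T) =O[atTop] fun T : ℝ => T ^ a) :
    ∀ i ∈ s, b i = 0 := by
  refine tendsto_exp_sum_zero s ω hω b ?_
  have h1 : Tendsto (fun T : ℝ => T ^ (a - 1)) atTop (𝓝 0) := by
    have := tendsto_rpow_neg_atTop (y := 1 - a) (by linarith)
    simpa using this
  have h2 : (fun T : ℝ => ∑ i ∈ s, b i * cexp (-(I * ω i * (Real.log T : ℝ)))) =O[atTop]
      fun T : ℝ => T ^ (a - 1) := by
    obtain ⟨c, hc⟩ := h.bound
    refine Asymptotics.IsBigO.of_bound c ?_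
    filter_upwards [hc, eventually_gt_atTop 0] with T hT hT0
    have e1 : ∑ i ∈ s, b i * mono (ω i) T =
        (T : ℂ) * ∑ i ∈ s, b i * cexp (-(I * ω i * (Real.log T : ℝ))) := by
      rw [Finset.mul_sum]
      refine Finset.sum_congr rfl fun i _ => ?_
      rw [mono_eq hT0]
      ring
    rw [e1, norm_mul, Complex.norm_real, Real.norm_of_nonneg hT0.le,
      Real.norm_of_nonneg (by positivity)] at hT
    rw [Real.norm_of_nonneg (by positivity), Real.rpow_sub hT0, Real.rpow_one]
    calc _ = (T * ‖∑ i ∈ s, b i * cexp (-(I * ω i * (Real.log T : ℝ)))‖) / T := by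
          rw [mul_div_cancel_left₀ _ hT0.ne']
      _ ≤ (c * T ^ a) / T := by gcongr
      _ = _ := by ring
  have h3 := h2.trans_tendsto h1
  have h4 := h3.comp Real.tendsto_exp_atTop
  refine h4.congr fun L => ?_
  simp [Real.log_exp]

lemma mono_two_ne {k : ℕ} {θ θ' : Ix k → ℝ} (hne : θ ≠ θ') :
    ∀ᵐ γ : Ix k → ℝ, mono (pairing θ γ) 2 ≠ mono (pairing θ' γ) 2 := by
  classical
  have hlog : 0 < Real.log 2 := Real.log_pos (by norm_num)
  have hL : ∀ c : ℝ, ∀ᵐ γ : Ix k → ℝ, pairing (θ - θ') γ ≠ c := by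
    intro c
    set L : (Ix k → ℝ) →ₗ[ℝ] ℝ := ∑ j, (θ - θ') (Sum.inl j) • LinearMap.proj (Sum.inl j) -
      ∑ l, (θ - θ') (Sum.inr l) • LinearMap.proj (Sum.inr l) with hLdef
    have hLap : ∀ γ, L γ = pairing (θ - θ') γ := by
      intro γ
      simp [hLdef, pairing, LinearMap.sub_apply, LinearMap.sum_apply]
    have hker : LinearMap.ker L ≠ ⊤ := by
      intro h
      apply hne
      have h1 : ∀ γ, L γ = 0 := fun γ => by
        have : γ ∈ LinearMap.ker L := by rw [h]; trivial
        exact LinearMap.mem_ker.1 this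
      funext i
      have h2 := h1 (Pi.single i 1)
      rw [hLap] at h2
      unfold pairing at h2
      rcases i with j | l
      · have e1 : ∑ j', (θ - θ') (Sum.inl j') * (Pi.single (Sum.inl j) (1:ℝ) : Ix k → ℝ)
            (Sum.inl j') = (θ - θ') (Sum.inl j) := by
          rw [Finset.sum_eq_single j]
          · simp
          · intro b _ hb; simp [hb]
          · simp
        have e2 : ∑ l, (θ - θ') (Sum.inr l) * (Pi.single (Sum.inl j) (1:ℝ) : Ix k → ℝ)
            (Sum.inr l) = 0 := by
          apply Finset.sum_eq_zero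
          intro l _
          simp
        rw [e1, e2, sub_zero] at h2
        simpa [sub_eq_zero] using h2
      · have e1 : ∑ j', (θ - θ') (Sum.inl j') * (Pi.single (Sum.inr l) (1:ℝ) : Ix k → ℝ)
            (Sum.inl j') = 0 := by
          apply Finset.sum_eq_zero
          intro l _
          simp
        have e2 : ∑ l', (θ - θ') (Sum.inr l') * (Pi.single (Sum.inr l) (1:ℝ) : Ix k → ℝ)
            (Sum.inr l') = (θ - θ') (Sum.inr l) := by
          rw [Finset.sum_eq_single l]
          · simp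
          · intro b _ hb; simp [hb]
          · simp
        rw [e1, e2, zero_sub, neg_eq_zero] at h2
        simpa [sub_eq_zero] using h2
    have hk0 : volume (LinearMap.ker L : Set (Ix k → ℝ)) = 0 :=
      Measure.addHaar_submodule (volume : Measure (Ix k → ℝ)) _ hker
    by_cases hex : ∃ γ₁ : Ix k → ℝ, pairing (θ - θ') γ₁ = c
    · obtain ⟨γ₁, hγ₁⟩ := hex
      have h3 : volume ((fun γ => γ + (-γ₁)) ⁻¹' (LinearMap.ker L : Set (Ix k → ℝ))) = 0 := by
        rw [measure_preimage_add_right]
        exact hk0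
      refine measure_mono_null ?_ h3
      intro γ hγ
      simp only [Set.mem_compl_iff, Set.mem_ofPred_eq, not_not] at hγ
      show γ + (-γ₁) ∈ LinearMap.ker L
      rw [LinearMap.mem_ker, map_add, map_neg, hLap, hLap, hγ, hγ₁]
      ring
    · exact Eventually.of_forall fun γ h => hex ⟨γ, h⟩
  have hall : ∀ᵐ γ : Ix k → ℝ, ∀ n : ℤ, pairing (θ - θ') γ ≠ n * (2 * Real.pi) / Real.log 2 := by
    rw [ae_all_iff]
    exact fun n => hL _
  filter_upwards [hall] with γ hγ heq
  rw [mono_eq (by norm_num), mono_eq (by norm_num)] at heq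
  have h1 : cexp (-(I * (pairing θ γ : ℝ) * (Real.log 2 : ℝ))) =
      cexp (-(I * (pairing θ' γ : ℝ) * (Real.log 2 : ℝ))) := by
    have h2 : ((2:ℝ) : ℂ) ≠ 0 := by norm_num
    exact mul_left_cancel₀ h2 heq
  rw [Complex.exp_eq_exp_iff_exists_int] at h1
  obtain ⟨n, hn⟩ := h1
  have h3 : pairing θ γ * Real.log 2 = pairing θ' γ * Real.log 2 - n * (2 * Real.pi) := by
    have h4 : -(I * ((pairing θ γ * Real.log 2 : ℝ) : ℂ)) =
        -(I * ((pairing θ' γ * Real.log 2 - n * (2 * Real.pi) : ℝ) : ℂ)) := by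
      push_cast
      linear_combination hn
    have h5 := mul_left_cancel₀ I_ne_zero (neg_injective h4)
    exact_mod_cast h5
  have h5 : pairing (θ - θ') γ = pairing θ γ - pairing θ' γ := by
    unfold pairing
    simp only [Pi.sub_apply, sub_mul, Finset.sum_sub_distrib]
    ring
  apply hγ (-n)
  rw [h5, eq_div_iff hlog.ne']
  push_cast
  linarith

theorem ae_gen (Λ : Finset (Ix k → ℝ)) : ∀ᵐ γ : Ix k → ℝ, Gen Λ γ := by
  have h : ∀ᵐ γ : Ix k → ℝ, ∀ θ : Λ, ∀ θ' : Λ, θ ≠ θ' →
      mono (pairing θ.1 γ) 2 ≠ mono (pairing θ'.1 γ) 2 := by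
    rw [ae_all_iff]
    intro θ
    rw [ae_all_iff]
    intro θ'
    by_cases hne : θ = θ'
    · exact Eventually.of_forall fun γ h => absurd hne h
    · filter_upwards [mono_two_ne (k := k) (θ := θ.1) (θ' := θ'.1)
        (fun h => hne (Subtype.ext h))] with γ hγ _ using hγ
  filter_upwards [h] with γ hγ θ hθ θ' hθ' heq
  by_contra hne
  exact hγ ⟨θ, hθ⟩ ⟨θ', hθ'⟩ (fun h => hne (congrArg Subtype.val h)) heq

/-- At a generic shift the frequencies are distinct. -/
lemma Gen.injOn {Λ : Finset (Ix k → ℝ)} {γ : Ix k → ℝ} (h : Gen Λ γ) :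
    Set.InjOn (fun θ => pairing θ γ) Λ := fun θ hθ θ' hθ' heq =>
  h hθ hθ' (by simp only at heq ⊢; rw [heq])

end Pool.Agent.H26
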