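import Pool.Agent.H26.RG.Generic
import Pool.Agent.H26.HoloInt

/-!
A kernel of exponential type with a compactly supported Fourier transform.
-/

namespace Pool.Agent.H26

open Complex MeasureTheory Filter Topology FourierTransform Set

theorem exists_kernel {ρ : ℝ} (hρ : 0 < ρ) : ∃ (V : ℂ → ℂ) (φ : ℝ → ℝ) (C : ℝ), 0 ≤ C ∧
    Differentiable ℂ V ∧ (∀ z : ℂ, ‖V z‖ ≤ C * Real.exp (ρ * |z.im|)) ∧
    Integrable (fun x : ℝ => V x) ∧ φ 0 = 1 ∧ (∀ s : ℝ, ρ ≤ |s| → φ s = 0) ∧
    ∀ s : ℝ, ∫ y : ℝ, V y * cexp (-(I * s * y)) = 2 * Real.pi * φ s := by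
  set bp : ContDiffBump (0:ℝ) := ⟨ρ / 2, ρ, by linarith, by linarith⟩ with hbp
  set φ : ℝ → ℝ := fun x => bp x with hφ
  have hφc : Continuous φ := bp.continuous
  have hφs : ∀ s : ℝ, ρ ≤ |s| → φ s = 0 := by
    intro s hs
    refine bp.zero_of_le_dist ?_
    simpa [hbp] using hs
  have hφ0 : φ 0 = 1 := bp.one_of_mem_closedBall (by
    rw [Metric.mem_closedBall, dist_self]; exact bp.rIn_pos.le)
  have hφn : ∀ s, |φ s| ≤ 1 := fun s => by
    rw [abs_of_nonneg bp.nonneg]
    exact bp.le_one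
  set f : ℝ → ℂ := fun x => ((φ x : ℝ) : ℂ) with hf
  have hfc : Continuous f := Complex.continuous_ofReal.comp hφc
  have hcs : HasCompactSupport f := by
    refine HasCompactSupport.intro (isCompact_Icc (a := -ρ) (b := ρ)) fun x hx => ?_
    have h1 : ρ ≤ |x| := by
      by_contra h
      push Not at h
      exact hx ⟨by linarith [(abs_lt.1 h).1], (abs_lt.1 h).2.le⟩
    simp [hf, hφs x h1]
  have hsm : ContDiff ℝ (⊤ : ℕ∞) f := Complex.ofRealCLM.contDiff.comp bp.contDiff
  set F : SchwartzMap ℝ ℂ := hcs.toSchwartzMap hsm with hF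
  have hFf : ∀ x, F x = f x := fun x => rfl
  set V : ℂ → ℂ := fun z => ∫ ξ : ℝ, f ξ * cexp (I * ξ * z) with hV
  have hsupp : ∀ ξ : ℝ, ξ ∉ Icc (-ρ) ρ → f ξ = 0 := by
    intro x hx
    have h1 : ρ ≤ |x| := by
      by_contra h
      push Not at h
      exact hx ⟨by linarith [(abs_lt.1 h).1], (abs_lt.1 h).2.le⟩
    simp [hf, hφs x h1]
  have hbnd : ∀ (z : ℂ) (Y : ℝ), |z.im| ≤ Y → ∀ ξ : ℝ, ‖f ξ * cexp (I * ξ * z)‖ ≤
      (Icc (-ρ) ρ).indicator (fun _ => Real.exp (ρ * Y)) ξ := by
    intro z Y hY ξ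
    by_cases hξ : ξ ∈ Icc (-ρ) ρ
    · rw [indicator_of_mem hξ, norm_mul, Complex.norm_exp]
      have h1 : ‖f ξ‖ ≤ 1 := by
        rw [hf]
        simp only
        rw [Complex.norm_real]
        exact hφn ξ
      have h2 : (I * ξ * z).re = -(ξ * z.im) := by simp
      have h3 : -(ξ * z.im) ≤ ρ * Y := by
        have h4 : |ξ| ≤ ρ := abs_le.2 hξ
        calc -(ξ * z.im) ≤ |ξ * z.im| := neg_le_abs _
          _ = |ξ| * |z.im| := abs_mul _ _
          _ ≤ ρ * Y := by gcongr
      calc ‖f ξ‖ * Real.exp (I * ξ * z).re ≤ 1 * Real.exp (ρ * Y) := by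
            rw [h2]; gcongr
        _ = _ := one_mul _
    · rw [indicator_of_notMem hξ, hsupp ξ hξ, zero_mul, norm_zero]
  have hind : ∀ c : ℝ, Integrable ((Icc (-ρ) ρ).indicator (fun _ : ℝ => c)) := by
    intro c
    rw [integrable_indicator_iff measurableSet_Icc]
    exact continuousOn_const.integrableOn_Icc
  have hmeas : ∀ z : ℂ, AEStronglyMeasurable (fun ξ : ℝ => f ξ * cexp (I * ξ * z)) volume := by
    intro z
    have : Continuous fun ξ : ℝ => f ξ * cexp (I * ξ * z) := hfc.mul (by fun_prop)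
    exact this.aestronglyMeasurable
  have hVd : Differentiable ℂ V := by
    intro z
    have hU : IsOpen {w : ℂ | |w.im| < |z.im| + 1} :=
      isOpen_lt (continuous_abs.comp Complex.continuous_im) continuous_const
    have h := differentiableOn_integral_of_majorant (μ := (volume : Measure ℝ))
      (Φ := fun z ξ => f ξ * cexp (I * ξ * z)) hU (fun w _ => hmeas w)
      (Eventually.of_forall fun ξ => by
        refine Differentiable.differentiableOn ?_
        exact (differentiable_const _).mul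
          (Complex.differentiable_exp.comp (differentiable_id.const_mul _)))
      (bound := (Icc (-ρ) ρ).indicator (fun _ => Real.exp (ρ * (|z.im| + 1))))
      (Eventually.of_forall fun ξ w hw => hbnd w _ (le_of_lt hw) ξ) (hind _)
    exact h.differentiableAt (hU.mem_nhds (by simp))
  have hVb : ∀ z : ℂ, ‖V z‖ ≤ (2 * ρ) * Real.exp (ρ * |z.im|) := by
    intro z
    have h := norm_integral_le_of_norm_le (hind (Real.exp (ρ * |z.im|)))
      (Eventually.of_forall fun ξ => hbnd z _ le_rfl ξ)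
    refine h.trans (le_of_eq ?_)
    rw [integral_indicator measurableSet_Icc, setIntegral_const]
    simp only [smul_eq_mul, Measure.real, Real.volume_Icc]
    rw [ENNReal.toReal_ofReal (by linarith)]
    ring
  -- relation with the Fourier transform
  have hVF : ∀ x : ℝ, V x = 𝓕 F (-(x / (2 * Real.pi))) := by
    intro x
    rw [SchwartzMap.fourier_coe, Real.fourier_real_eq_integral_exp_smul]
    simp only [hV]
    congr 1
    funext ξ
    rw [hFf, smul_eq_mul, mul_comm (f ξ)]
    congr 2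
    have hpi : (Real.pi : ℂ) ≠ 0 := by exact_mod_cast Real.pi_ne_zero
    push_cast
    field_simp
  have hVi : Integrable (fun x : ℝ => V x) := by
    have h1 : Integrable (fun x : ℝ => 𝓕 F x) := (𝓕 F).integrable
    have h2 : Integrable (fun x : ℝ => 𝓕 F (-(1 / (2 * Real.pi)) * x)) :=
      h1.comp_mul_left' (by
        have := Real.pi_pos
        intro h
        rw [neg_eq_zero] at h
        exact absurd h (by positivity))
    refine h2.congr (Eventually.of_forall fun x => ?_)
    simp only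
    rw [hVF x]
    congr 1
    ring
  refine ⟨V, φ, 2 * ρ, by positivity, hVd, hVb, hVi, hφ0, hφs, fun s => ?_⟩
  have hinv : 𝓕⁻ (𝓕 F) = F := by simp
  have h1 : (𝓕⁻ (𝓕 F)) s = f s := by rw [hinv, hFf]
  rw [SchwartzMap.fourierInv_coe, Real.fourierInv_eq'] at h1
  have hpi0 : (0:ℝ) < 2 * Real.pi := by positivity
  set g : ℝ → ℂ := fun y => cexp (((2 * Real.pi * (y * s) : ℝ) : ℂ) * I) * 𝓕 F y with hg
  have h2 : ∫ y : ℝ, g y = f s := by
    rw [← h1]
    congr 1
    funext y
    rw [hg]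
    simp only [smul_eq_mul]
    congr 3
    simp [mul_comm]
  have h3 : ∫ y : ℝ, V y * cexp (-(I * s * y)) = ∫ y : ℝ, g (-(1 / (2 * Real.pi)) * y) := by
    congr 1
    funext y
    rw [hVF, hg]
    simp only
    rw [mul_comm]
    congr 2
    · have hpi : (Real.pi : ℂ) ≠ 0 := by exact_mod_cast Real.pi_ne_zero
      push_cast
      field_simp
    · ring
  rw [h3, Measure.integral_comp_mul_left, h2, hf]
  have e : |(-(1 / (2 * Real.pi)))⁻¹| = 2 * Real.pi := by
    rw [inv_neg, abs_neg, one_div, inv_inv, abs_of_pos hpi0]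
  rw [e]
  simp

end Pool.Agent.H26
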