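import Pool.Agent.H26.RG.Chart

/-!
Averages over one shift: negative frequencies do not occur.
-/

namespace Pool.Agent.H26

open Complex Finset MeasureTheory Filter Asymptotics Topology

lemma norm_zeta_line {σ u : ℝ} (hσ : 1 / 2 ≤ σ) (h : σ = 1 / 2 ∨ 3 / 2 ≤ σ ∨ 1 ≤ |u|) :
    ‖riemannZeta (σ + I * u)‖ ≤ 4 * (1 + |u|) := by
  have hu := abs_nonneg u
  have hre : ((σ : ℂ) + I * u).re = σ := by simp
  have him : ((σ : ℂ) + I * u).im = u := by simp
  have hsub : 1 / 2 ≤ ‖(σ : ℂ) + I * u - 1‖ := by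
    rcases h with h | h | h
    · have h1 := Complex.abs_re_le_norm ((σ : ℂ) + I * u - 1)
      have e : ((σ : ℂ) + I * u - 1).re = σ - 1 := by simp
      rw [e, h] at h1
      norm_num at h1
      rw [h]
      push_cast
      linarith
    · have h1 := Complex.abs_re_le_norm ((σ : ℂ) + I * u - 1)
      have e : ((σ : ℂ) + I * u - 1).re = σ - 1 := by simp
      rw [e, abs_of_nonneg (by linarith)] at h1
      linarith
    · have h1 := Complex.abs_im_le_norm ((σ : ℂ) + I * u - 1)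
      have e : ((σ : ℂ) + I * u - 1).im = u := by simp
      rw [e] at h1
      linarith
  have hne : (σ : ℂ) + I * u ≠ 1 := by
    intro h0
    rw [h0, sub_self, norm_zero] at hsub
    linarith
  have h1 := norm_riemannZeta_le (s := (σ : ℂ) + I * u) (by rw [hre]; linarith) hne
  have h2 : ‖(σ : ℂ) + I * u - 1‖⁻¹ ≤ 2 := by
    rw [inv_le_comm₀ (by linarith) (by norm_num)]
    linarith
  have h3 : ‖(σ : ℂ) + I * u‖ / ((σ : ℂ) + I * u).re ≤ 1 + 2 * |u| := by
    rw [hre, div_le_iff₀ (by linarith)]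
    have h4 := Complex.norm_le_abs_re_add_abs_im ((σ : ℂ) + I * u)
    rw [hre, him, abs_of_nonneg (by linarith)] at h4
    nlinarith
  linarith

lemma one_add_abs_add_le (x τ : ℝ) : 1 + |x + τ| ≤ (1 + |x|) * (1 + |τ|) := by
  have h1 := abs_add_le x τ
  have h2 := mul_nonneg (abs_nonneg x) (abs_nonneg τ)
  nlinarith

lemma inv_cube_mul_le (x : ℝ) : (1 + |x|) / (1 + |x|) ^ 3 ≤ (1 + x ^ 2)⁻¹ := by
  have hx := abs_nonneg x
  have h1 : (1 + |x|) / (1 + |x|) ^ 3 = ((1 + |x|) ^ 2)⁻¹ := by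
    field_simp
  rw [h1]
  exact inv_sq_le x

/-- The average of a zeta function over a line. -/
lemma zeta_avg {n : ℕ} {Y M M₁ : ℝ} (hY : 1 ≤ Y) {w : ℂ → ℂ} (hw : Differentiable ℂ w)
    (hb : ∀ z : ℂ, -Y ≤ z.im → z.im ≤ 0 → (1 + |z.re|) ^ (n + 3) * ‖w z‖ ≤ M)
    (hb1 : ∀ z : ℂ, z.im = -Y → (1 + |z.re|) ^ 3 * ‖w z‖ ≤ M₁) (τ : ℝ) :
    ‖∫ x : ℝ, w x * riemannZeta (1 / 2 + I * (x + τ))‖ ≤
      (16 * Y * 3 ^ (n + 3) + 16) * (1 + |τ|) * (M₁ + M / (1 + |τ|) ^ n) := by
  have hM : 0 ≤ M := (by positivity : (0:ℝ) ≤ (1 + |(0:ℂ).re|) ^ (n + 3) * ‖w 0‖).trans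
    (hb 0 (by simp; linarith) (by simp))
  have hM₁ : 0 ≤ M₁ := (by positivity : (0:ℝ) ≤ (1 + |((-Y : ℝ) * I : ℂ).re|) ^ 3 *
    ‖w ((-Y : ℝ) * I)‖).trans (hb1 _ (by simp))
  have hτ := abs_nonneg τ
  set F : ℂ → ℂ := fun z => w z * riemannZeta (1 / 2 + I * (z + τ)) with hF
  -- bound on the real line
  have hline : ∀ x : ℝ, ‖F x‖ ≤ 4 * (1 + |τ|) * (M / (1 + |x|) ^ n) * (1 + x ^ 2)⁻¹ := by
    intro x
    have hx := abs_nonneg x
    have h1 := hb x (by simp; linarith) (by simp)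
    rw [Complex.ofReal_re] at h1
    have h2 : ‖w x‖ ≤ M / (1 + |x|) ^ (n + 3) := by
      rw [le_div_iff₀ (by positivity), mul_comm]; exact h1
    have h3 := norm_zeta_line (σ := 1 / 2) (u := x + τ) le_rfl (Or.inl rfl)
    have e : (((1 / 2 : ℝ) : ℂ) + I * ((x + τ : ℝ) : ℂ)) = 1 / 2 + I * ((x : ℂ) + τ) := by
      push_cast; ring
    rw [e] at h3
    rw [hF]
    simp only
    rw [norm_mul]
    calc _ ≤ (M / (1 + |x|) ^ (n + 3)) * (4 * ((1 + |x|) * (1 + |τ|))) := by
          gcongr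
          exact h3.trans (by gcongr; exact one_add_abs_add_le x τ)
      _ = 4 * (1 + |τ|) * (M / (1 + |x|) ^ n) * ((1 + |x|) / (1 + |x|) ^ 3) := by
          rw [pow_add]
          field_simp
      _ ≤ _ := by
          gcongr
          exact inv_cube_mul_le x
  have hFc : Continuous fun x : ℝ => F x := by
    refine (hw.continuous.comp Complex.continuous_ofReal).mul ?_
    rw [continuous_iff_continuousAt]
    intro x
    have h1 : (1 / 2 + I * ((x : ℂ) + τ) : ℂ) ≠ 1 := by
      intro h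
      have := congrArg Complex.re h
      simp at this
    have h2 := (differentiableAt_riemannZeta h1).continuousAt
    exact ContinuousAt.comp (f := fun x : ℝ => (1 / 2 + I * ((x : ℂ) + τ) : ℂ)) h2 (by fun_prop)
  have hint : Integrable (fun x : ℝ => F x) := by
    refine Integrable.mono' (integrable_inv_one_add_sq.const_mul (4 * (1 + |τ|) * M))
      hFc.aestronglyMeasurable (Eventually.of_forall fun x => (hline x).trans ?_)
    have hx := abs_nonneg x
    have : M / (1 + |x|) ^ n ≤ M := div_le_self hM (one_le_pow₀ (by linarith))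
    gcongr
  have hpi : Real.pi ≤ 4 := Real.pi_le_four
  have hmain : ‖∫ x : ℝ, F x‖ ≤
      (16 * Y * 3 ^ (n + 3) + 16) * (1 + |τ|) * (M₁ + M / (1 + |τ|) ^ n) := by
    by_cases h2 : |τ| < 2
    · have h3 : ‖∫ x : ℝ, F x‖ ≤ 4 * (1 + |τ|) * M * Real.pi := by
        have h4 := norm_integral_le_of_norm_le (f := fun x : ℝ => F x)
          (g := fun x : ℝ => 4 * (1 + |τ|) * M * (1 + x ^ 2)⁻¹)
          (integrable_inv_one_add_sq.const_mul _) (Eventually.of_forall fun x =>
            (hline x).trans (by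
              have hx := abs_nonneg x
              have : M / (1 + |x|) ^ n ≤ M := div_le_self hM (one_le_pow₀ (by linarith))
              gcongr))
        rw [integral_const_mul, integral_univ_inv_one_add_sq] at h4
        exact h4
      have h5 : M ≤ 3 ^ n * (M / (1 + |τ|) ^ n) := by
        rw [← mul_div_assoc, le_div_iff₀ (by positivity), mul_comm]
        have : (1 + |τ|) ^ n ≤ 3 ^ n := by gcongr; linarith
        gcongr
      have hMτ : 0 ≤ M / (1 + |τ|) ^ n := by positivity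
      have h6 : (3:ℝ) ^ n ≤ 3 ^ (n + 3) := pow_le_pow_right₀ (by norm_num) (by omega)
      calc ‖∫ x : ℝ, F x‖ ≤ 4 * (1 + |τ|) * M * Real.pi := h3
        _ ≤ 4 * (1 + |τ|) * (3 ^ n * (M / (1 + |τ|) ^ n)) * 4 := by gcongr
        _ = (16 * 1 * 3 ^ n) * (1 + |τ|) * (0 + M / (1 + |τ|) ^ n) := by ring
        _ ≤ (16 * Y * 3 ^ (n + 3) + 16) * (1 + |τ|) * (M₁ + M / (1 + |τ|) ^ n) := by
            have : 16 * 1 * (3:ℝ) ^ n ≤ 16 * Y * 3 ^ (n + 3) + 16 := by
              have : 16 * 1 * (3:ℝ) ^ n ≤ 16 * Y * 3 ^ (n + 3) := by gcongr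
              linarith
            gcongr
    · push Not at h2
      set X : ℝ := |τ| - 1 with hX
      have hX0 : 0 < X := by linarith
      have hX3 : 1 + |τ| ≤ 3 * (1 + X) := by rw [hX]; linarith
      have hMτ : M / (1 + X) ^ n ≤ 3 ^ n * (M / (1 + |τ|) ^ n) := by
        rw [← mul_div_assoc, div_le_div_iff₀ (by positivity) (by positivity)]
        calc M * (1 + |τ|) ^ n ≤ M * (3 * (1 + X)) ^ n := by gcongr
          _ = _ := by rw [mul_pow]; ring
      have hMτ0 : 0 ≤ M / (1 + |τ|) ^ n := by positivity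
      -- tail
      have htail : ‖(∫ x : ℝ, F x) - ∫ x in (-X)..X, F x‖ ≤
          4 * (1 + |τ|) * (M / (1 + X) ^ n) * Real.pi := by
        have h3 : (∫ x : ℝ, F x) - ∫ x in (-X)..X, F x = ∫ x in (Set.Ioc (-X) X)ᶜ, F x := by
          rw [intervalIntegral.integral_of_le (by linarith),
            ← integral_add_compl measurableSet_Ioc hint]
          ring
        rw [h3]
        have h4 := norm_integral_le_of_norm_le (μ := volume.restrict (Set.Ioc (-X) X)ᶜ)
          (f := fun x : ℝ => F x)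
          (g := fun x : ℝ => 4 * (1 + |τ|) * (M / (1 + X) ^ n) * (1 + x ^ 2)⁻¹)
          (integrable_inv_one_add_sq.const_mul _).integrableOn (by
            rw [ae_restrict_iff' measurableSet_Ioc.compl]
            refine Eventually.of_forall fun x hx => (hline x).trans ?_
            have hxX : X ≤ |x| := by
              by_contra hlt
              push Not at hlt
              have := abs_lt.1 hlt
              exact hx ⟨this.1, this.2.le⟩
            gcongr)
        refine h4.trans ?_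
        have h5 := setIntegral_le_integral (s := (Set.Ioc (-X) X)ᶜ)
          (f := fun x : ℝ => 4 * (1 + |τ|) * (M / (1 + X) ^ n) * (1 + x ^ 2)⁻¹)
          (integrable_inv_one_add_sq.const_mul _) (Eventually.of_forall fun x => by positivity)
        refine h5.trans (le_of_eq ?_)
        rw [integral_const_mul, integral_univ_inv_one_add_sq]
      -- shift
      have hfar : ∀ z : ℂ, |z.re| ≤ X → 1 ≤ |z.re + τ| := by
        intro z hz
        have h3 : |τ| ≤ |z.re + τ| + |z.re| := by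
          calc |τ| = |(z.re + τ) + (-z.re)| := by congr 1; ring
            _ ≤ |z.re + τ| + |(-z.re)| := abs_add_le _ _
            _ = _ := by rw [abs_neg]
        linarith
      have earg : ∀ z : ℂ, (1 / 2 + I * (z + τ) : ℂ) =
          ((1 / 2 - z.im : ℝ) : ℂ) + I * ((z.re + τ : ℝ) : ℂ) := by
        intro z
        apply Complex.ext
        · simp
          ring
        · simp
      have hne : ∀ z : ℂ, |z.re| ≤ X → (1 / 2 + I * (z + τ) : ℂ) ≠ 1 := by
        intro z hz h
        rw [earg z] at h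
        have h3 := congrArg Complex.im h
        simp at h3
        have := hfar z hz
        rw [h3, abs_zero] at this
        linarith
      have hH : DifferentiableOn ℂ F (Set.uIcc (-X) X ×ℂ Set.uIcc (-Y) 0) := by
        intro z hz
        rw [Complex.mem_reProdIm] at hz
        obtain ⟨hz1, hz2⟩ := hz
        rw [Set.uIcc_of_le (by linarith)] at hz1
        have h3 := differentiableAt_riemannZeta (hne z (abs_le.2 hz1))
        have h4 : DifferentiableAt ℂ (fun z : ℂ => (1 / 2 + I * (z + τ) : ℂ)) z := by fun_prop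
        exact ((hw z).mul (DifferentiableAt.comp
          (f := fun z : ℂ => (1 / 2 + I * (z + τ) : ℂ)) z h3 h4)).differentiableWithinAt
      have hrect := Complex.integral_boundary_rect_eq_zero_of_differentiableOn F
        (⟨-X, -Y⟩ : ℂ) (⟨X, 0⟩ : ℂ) hH
      simp only at hrect
      have hside : ∀ u : ℝ, |u| = X → ‖∫ y in (-Y : ℝ)..0, F ((u : ℂ) + y * I)‖ ≤
          Y * (4 * 3 ^ (n + 3) * (1 + |τ|) * (M / (1 + |τ|) ^ n)) := by
        intro u hu
        have h := intervalIntegral.norm_integral_le_of_norm_le_const (a := (-Y : ℝ)) (b := 0)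
          (C := 4 * 3 ^ (n + 3) * (1 + |τ|) * (M / (1 + |τ|) ^ n))
          (f := fun y : ℝ => F ((u : ℂ) + y * I)) ?_
        · refine h.trans (le_of_eq ?_)
          have e3 : |(0:ℝ) - -Y| = Y := by rw [zero_sub, neg_neg, abs_of_pos (by linarith)]
          rw [e3]
          ring
        · intro y hy
          rw [Set.uIoc_of_le (by linarith)] at hy
          have hre : ((u : ℂ) + y * I).re = u := by simp
          have him : ((u : ℂ) + y * I).im = y := by simp
          have h3 := hb ((u : ℂ) + y * I) (by rw [him]; exact hy.1.le) (by rw [him]; exact hy.2)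
          rw [hre, hu] at h3
          have h4 : ‖w ((u : ℂ) + y * I)‖ ≤ M / (1 + X) ^ (n + 3) := by
            rw [le_div_iff₀ (by positivity), mul_comm]; exact h3
          have h5 := norm_zeta_line (σ := 1 / 2 - y) (u := u + τ) (by linarith [hy.2])
            (Or.inr (Or.inr (by
              have := hfar ((u : ℂ) + y * I) (by rw [hre, hu])
              rwa [hre] at this)))
          rw [hF]
          simp only
          rw [earg, hre, him, norm_mul]
          have h6 : M / (1 + X) ^ (n + 3) ≤ 3 ^ (n + 3) * (M / (1 + |τ|) ^ (n + 3)) := by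
            rw [← mul_div_assoc, div_le_div_iff₀ (by positivity) (by positivity)]
            calc M * (1 + |τ|) ^ (n + 3) ≤ M * (3 * (1 + X)) ^ (n + 3) := by gcongr
              _ = _ := by rw [mul_pow]; ring
          have h7 : (1 + |u|) ≤ 1 + |τ| := by rw [hu]; linarith
          calc _ ≤ (3 ^ (n + 3) * (M / (1 + |τ|) ^ (n + 3))) *
                (4 * ((1 + |u|) * (1 + |τ|))) := by
                have h8 := one_add_abs_add_le u τ
                gcongr
                · exact h4.trans h6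
                · exact h5.trans (by gcongr)
            _ ≤ (3 ^ (n + 3) * (M / (1 + |τ|) ^ (n + 3))) *
                (4 * ((1 + |τ|) * (1 + |τ|))) := by gcongr
            _ = 4 * 3 ^ (n + 3) * (M / (1 + |τ|) ^ n) * ((1 + |τ|) ^ 2 / (1 + |τ|) ^ 3) := by
                rw [pow_add (1 + |τ|)]
                field_simp
            _ ≤ 4 * 3 ^ (n + 3) * (M / (1 + |τ|) ^ n) * (1 + |τ|) := by
                have : (1 + |τ|) ^ 2 / (1 + |τ|) ^ 3 ≤ 1 + |τ| := by
                  rw [div_le_iff₀ (by positivity)]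
                  have h9 : 1 ≤ (1 + |τ|) ^ 2 := one_le_pow₀ (by linarith)
                  calc (1 + |τ|) ^ 2 = 1 * (1 + |τ|) ^ 2 := (one_mul _).symm
                    _ ≤ (1 + |τ|) ^ 2 * (1 + |τ|) ^ 2 := by gcongr
                    _ = _ := by ring
                gcongr
            _ = _ := by ring
      have hs1 := hside X (abs_of_pos hX0)
      have hs2 := hside (-X) (by rw [abs_neg, abs_of_pos hX0])
      have e : (∫ x in (-X)..X, F ((x:ℂ) + ((0:ℝ):ℂ) * I)) -
          (∫ x in (-X)..X, F ((x:ℂ) + ((-Y:ℝ):ℂ) * I)) =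
          I • (∫ y in (-Y : ℝ)..0, F ((X : ℂ) + y * I)) -
            I • ∫ y in (-Y : ℝ)..0, F (((-X : ℝ) : ℂ) + y * I) := by
        linear_combination -hrect
      have e0 : (∫ x in (-X)..X, F ((x:ℂ) + ((0:ℝ):ℂ) * I)) = ∫ x in (-X)..X, F (x:ℂ) := by
        congr 1
        funext x
        congr 1
        simp
      rw [e0] at e
      have hshift : ‖(∫ x in (-X)..X, F (x:ℂ)) - (∫ x in (-X)..X, F ((x:ℂ) + ((-Y:ℝ):ℂ) * I))‖ ≤
          2 * (Y * (4 * 3 ^ (n + 3) * (1 + |τ|) * (M / (1 + |τ|) ^ n))) := by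
        rw [e]
        refine (norm_sub_le _ _).trans ?_
        rw [norm_smul, norm_smul, norm_I, one_mul, one_mul]
        linarith
      -- far line
      have hfarline : ‖∫ x in (-X)..X, F ((x:ℂ) + ((-Y:ℝ):ℂ) * I)‖ ≤
          4 * (1 + |τ|) * M₁ * Real.pi := by
        have h3 : ∀ x : ℝ, ‖F ((x:ℂ) + ((-Y:ℝ):ℂ) * I)‖ ≤
            4 * (1 + |τ|) * M₁ * (1 + x ^ 2)⁻¹ := by
          intro x
          have hx := abs_nonneg x
          have hre : ((x : ℂ) + ((-Y:ℝ):ℂ) * I).re = x := by simp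
          have him : ((x : ℂ) + ((-Y:ℝ):ℂ) * I).im = -Y := by simp
          have h4 := hb1 ((x : ℂ) + ((-Y:ℝ):ℂ) * I) him
          rw [hre] at h4
          have h5 : ‖w ((x : ℂ) + ((-Y:ℝ):ℂ) * I)‖ ≤ M₁ / (1 + |x|) ^ 3 := by
            rw [le_div_iff₀ (by positivity), mul_comm]; exact h4
          have h6 := norm_zeta_line (σ := 1 / 2 - (-Y)) (u := x + τ) (by linarith)
            (Or.inr (Or.inl (by linarith)))
          rw [hF]
          simp only
          rw [earg, hre, him, norm_mul]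
          calc _ ≤ (M₁ / (1 + |x|) ^ 3) * (4 * ((1 + |x|) * (1 + |τ|))) := by
                gcongr
                exact h6.trans (by gcongr; exact one_add_abs_add_le x τ)
            _ = 4 * (1 + |τ|) * M₁ * ((1 + |x|) / (1 + |x|) ^ 3) := by ring
            _ ≤ _ := by
                gcongr
                exact inv_cube_mul_le x
        have h4 := intervalIntegral.norm_integral_le_of_norm_le (a := -X) (b := X) (by linarith)
          (f := fun x : ℝ => F ((x:ℂ) + ((-Y:ℝ):ℂ) * I))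
          (g := fun x : ℝ => 4 * (1 + |τ|) * M₁ * (1 + x ^ 2)⁻¹)
          (Eventually.of_forall fun x _ => h3 x)
          (integrable_inv_one_add_sq.const_mul _).intervalIntegrable
        refine h4.trans ?_
        rw [intervalIntegral.integral_of_le (by linarith)]
        have h5 := setIntegral_le_integral (s := Set.Ioc (-X) X)
          (f := fun x : ℝ => 4 * (1 + |τ|) * M₁ * (1 + x ^ 2)⁻¹)
          (integrable_inv_one_add_sq.const_mul _) (Eventually.of_forall fun x => by positivity)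
        refine h5.trans (le_of_eq ?_)
        rw [integral_const_mul, integral_univ_inv_one_add_sq]
      have h3n : (3:ℝ) ^ n ≤ 3 ^ (n + 3) := pow_le_pow_right₀ (by norm_num) (by omega)
      calc ‖∫ x : ℝ, F x‖ = ‖((∫ x : ℝ, F x) - ∫ x in (-X)..X, F x) +
            (((∫ x in (-X)..X, F (x:ℂ)) - (∫ x in (-X)..X, F ((x:ℂ) + ((-Y:ℝ):ℂ) * I))) +
            ∫ x in (-X)..X, F ((x:ℂ) + ((-Y:ℝ):ℂ) * I))‖ := by congr 1; ring
        _ ≤ 4 * (1 + |τ|) * (M / (1 + X) ^ n) * Real.pi +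
            (2 * (Y * (4 * 3 ^ (n + 3) * (1 + |τ|) * (M / (1 + |τ|) ^ n))) +
            4 * (1 + |τ|) * M₁ * Real.pi) := by
            refine (norm_add_le _ _).trans (add_le_add htail ?_)
            exact (norm_add_le _ _).trans (add_le_add hshift hfarline)
        _ ≤ 4 * (1 + |τ|) * (3 ^ n * (M / (1 + |τ|) ^ n)) * 4 +
            (2 * (Y * (4 * 3 ^ (n + 3) * (1 + |τ|) * (M / (1 + |τ|) ^ n))) +
            4 * (1 + |τ|) * M₁ * 4) := by gcongr
        _ = (16 * 3 ^ n + 8 * Y * 3 ^ (n + 3)) * (1 + |τ|) * (M / (1 + |τ|) ^ n) +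
            16 * (1 + |τ|) * M₁ := by ring
        _ ≤ (16 * Y * 3 ^ (n + 3) + 16) * (1 + |τ|) * (M / (1 + |τ|) ^ n) +
            (16 * Y * 3 ^ (n + 3) + 16) * (1 + |τ|) * M₁ := by
            have h4 : 16 * (3:ℝ) ^ n + 8 * Y * 3 ^ (n + 3) ≤ 16 * Y * 3 ^ (n + 3) + 16 := by
              have e3 : (3:ℝ) ^ (n + 3) = 27 * 3 ^ n := by rw [pow_add]; ring
              have hp : (0:ℝ) < 3 ^ n := by positivity
              rw [e3]
              nlinarith
            have h5 : (16:ℝ) ≤ 16 * Y * 3 ^ (n + 3) + 16 := by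
              have : 0 ≤ 16 * Y * (3:ℝ) ^ (n + 3) := by positivity
              linarith
            gcongr
        _ = _ := by ring
  exact hmain

variable {k : ℕ}

/-- the zeta factor of one coordinate -/
noncomputable def zf (i : Ix k) (u t : ℝ) : ℂ :=
  Sum.elim (fun _ => riemannZeta (1 / 2 + I * (t + u))) (fun _ => riemannZeta (1 / 2 - I * (t + u)))
    i

/-- the sign of a coordinate -/
def sg (i : Ix k) : ℝ := Sum.elim (fun _ => 1) (fun _ => -1) i

/-- the shift of one coordinate -/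
noncomputable def gs (γ₀ : Ix k → ℝ) (i : Ix k) (x : ℝ) : Ix k → ℝ :=
  Function.update γ₀ i (γ₀ i + sg i * x)

lemma Z_eq_prod (γ : Ix k → ℝ) (t : ℝ) :
    Z (fun j => γ (Sum.inl j)) (fun j => γ (Sum.inr j)) t = ∏ i, zf i (γ i) t := by
  rw [Fintype.prod_sum_type, Z, Finset.prod_mul_distrib]
  rfl

lemma norm_zf_le (i : Ix k) (u t : ℝ) : ‖zf i u t‖ ≤ 4 * (1 + |t + u|) := by
  rcases i with j | j
  · have h := norm_zeta_line (σ := 1 / 2) (u := t + u) le_rfl (Or.inl rfl)
    have e : (((1 / 2 : ℝ) : ℂ) + I * ((t + u : ℝ) : ℂ)) = 1 / 2 + I * ((t : ℂ) + u) := by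
      push_cast; ring
    rw [e] at h
    exact h
  · have h := norm_zeta_line (σ := 1 / 2) (u := -(t + u)) le_rfl (Or.inl rfl)
    have e : (((1 / 2 : ℝ) : ℂ) + I * ((-(t + u) : ℝ) : ℂ)) = 1 / 2 - I * ((t : ℂ) + u) := by
      push_cast; ring
    rw [e, abs_neg] at h
    exact h

lemma zf_shift (i : Ix k) (u x t : ℝ) :
    zf i (u + sg i * x) t = riemannZeta (1 / 2 + I * (x + (sg i * (t + u) : ℝ))) := by
  rcases i with j | j
  · show riemannZeta (1 / 2 + I * (t + (u + 1 * x : ℝ))) = riemannZeta (1 / 2 + I * (x + (1 * (t + u) : ℝ)))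
    congr 1
    push_cast
    ring
  · show riemannZeta (1 / 2 - I * (t + (u + (-1) * x : ℝ))) =
      riemannZeta (1 / 2 + I * (x + ((-1) * (t + u) : ℝ)))
    congr 1
    push_cast
    ring

lemma abs_sg (i : Ix k) : |sg i| = 1 := by
  rcases i with j | j
  · show |(1:ℝ)| = 1
    simp
  · show |(-1:ℝ)| = 1
    simp

lemma pairing_gs (θ γ₀ : Ix k → ℝ) (i : Ix k) (x : ℝ) :
    pairing θ (gs γ₀ i x) = pairing θ γ₀ + x * θ i := by
  unfold pairing gs
  rcases i with j | j
  · have e1 : ∑ j', θ (Sum.inl j') * Function.update γ₀ (Sum.inl j)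
        (γ₀ (Sum.inl j) + sg (Sum.inl j) * x) (Sum.inl j') =
        ∑ j', θ (Sum.inl j') * γ₀ (Sum.inl j') + x * θ (Sum.inl j) := by
      have : ∀ j', θ (Sum.inl j') * Function.update γ₀ (Sum.inl j)
          (γ₀ (Sum.inl j) + sg (Sum.inl j) * x) (Sum.inl j') =
          θ (Sum.inl j') * γ₀ (Sum.inl j') + if j' = j then x * θ (Sum.inl j) else 0 := by
        intro j'
        by_cases h : j' = j
        · subst h
          rw [Function.update_self, if_pos rfl]
          show θ (Sum.inl j') * (γ₀ (Sum.inl j') + 1 * x) = _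
          ring
        · rw [Function.update_of_ne (by simpa using h), if_neg h, add_zero]
      rw [Finset.sum_congr rfl fun j' _ => this j', Finset.sum_add_distrib]
      simp
    have e2 : ∑ l, θ (Sum.inr l) * Function.update γ₀ (Sum.inl j)
        (γ₀ (Sum.inl j) + sg (Sum.inl j) * x) (Sum.inr l) = ∑ l, θ (Sum.inr l) * γ₀ (Sum.inr l) :=
      Finset.sum_congr rfl fun l _ => by rw [Function.update_of_ne (by simp)]
    rw [e1, e2]
    ring
  · have e1 : ∑ j', θ (Sum.inr j') * Function.update γ₀ (Sum.inr j)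
        (γ₀ (Sum.inr j) + sg (Sum.inr j) * x) (Sum.inr j') =
        ∑ j', θ (Sum.inr j') * γ₀ (Sum.inr j') - x * θ (Sum.inr j) := by
      have : ∀ j', θ (Sum.inr j') * Function.update γ₀ (Sum.inr j)
          (γ₀ (Sum.inr j) + sg (Sum.inr j) * x) (Sum.inr j') =
          θ (Sum.inr j') * γ₀ (Sum.inr j') - if j' = j then x * θ (Sum.inr j) else 0 := by
        intro j'
        by_cases h : j' = j
        · subst h
          rw [Function.update_self, if_pos rfl]
          show θ (Sum.inr j') * (γ₀ (Sum.inr j') + (-1) * x) = _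
          ring
        · rw [Function.update_of_ne (by simpa using h), if_neg h, sub_zero]
      rw [Finset.sum_congr rfl fun j' _ => this j', Finset.sum_sub_distrib]
      simp
    have e2 : ∑ l, θ (Sum.inl l) * Function.update γ₀ (Sum.inr j)
        (γ₀ (Sum.inr j) + sg (Sum.inr j) * x) (Sum.inl l) = ∑ l, θ (Sum.inl l) * γ₀ (Sum.inl l) :=
      Finset.sum_congr rfl fun l _ => by rw [Function.update_of_ne (by simp)]
    rw [e1, e2]
    ring

lemma abs_gs_le (γ₀ : Ix k → ℝ) (i : Ix k) (x : ℝ) (i' : Ix k) :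
    |gs γ₀ i x i'| ≤ (∑ i, |γ₀ i|) + |x| := by
  unfold gs
  by_cases h : i' = i
  · subst h
    rw [Function.update_self]
    calc |γ₀ i' + sg i' * x| ≤ |γ₀ i'| + |sg i' * x| := abs_add_le _ _
      _ = |γ₀ i'| + |x| := by rw [abs_mul, abs_sg, one_mul]
      _ ≤ _ := by
        have := abs_apply_le_sum γ₀ i'
        linarith
  · rw [Function.update_of_ne h]
    have := abs_apply_le_sum γ₀ i'
    linarith [abs_nonneg x]

lemma continuous_gs (γ₀ : Ix k → ℝ) (i : Ix k) : Continuous (gs γ₀ i) := by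
  unfold gs
  exact continuous_const.update i (by fun_prop)

lemma dist_gs_lt (γ₀ : Ix k → ℝ) (i : Ix k) {x r : ℝ} (hx : |x| < r) :
    gs γ₀ i x ∈ Metric.ball γ₀ r := by
  have hr : 0 < r := (abs_nonneg x).trans_lt hx
  rw [Metric.mem_ball, dist_pi_lt_iff hr]
  intro i'
  unfold gs
  by_cases h : i' = i
  · subst h
    rw [Function.update_self, Real.dist_eq]
    have e : γ₀ i' + sg i' * x - γ₀ i' = sg i' * x := by ring
    rw [e, abs_mul, abs_sg, one_mul]
    exact hx
  · rw [Function.update_of_ne h, dist_self]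
    exact hr

lemma gs_zero (γ₀ : Ix k → ℝ) (i : Ix k) : gs γ₀ i 0 = γ₀ := by
  unfold gs
  rw [mul_zero, add_zero, Function.update_eq_self]

lemma continuous_zf (i : Ix k) : Continuous fun p : ℝ × ℝ => zf i p.1 p.2 := by
  rw [continuous_iff_continuousAt]
  rintro ⟨u, t⟩
  rcases i with j | j
  · have h1 : (1 / 2 + I * ((t : ℂ) + u) : ℂ) ≠ 1 := by
      intro h
      have := congrArg Complex.re h
      simp at this
    have h2 := (differentiableAt_riemannZeta h1).continuousAt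
    have h3 : ContinuousAt (fun p : ℝ × ℝ => (1 / 2 + I * ((p.2 : ℂ) + p.1) : ℂ)) (u, t) :=
      Continuous.continuousAt (by fun_prop)
    show ContinuousAt (fun p : ℝ × ℝ => riemannZeta (1 / 2 + I * ((p.2 : ℂ) + p.1))) (u, t)
    exact ContinuousAt.comp (x := ((u, t) : ℝ × ℝ)) (g := riemannZeta) h2 h3
  · have h1 : (1 / 2 - I * ((t : ℂ) + u) : ℂ) ≠ 1 := by
      intro h
      have := congrArg Complex.re h
      simp at this
    have h2 := (differentiableAt_riemannZeta h1).continuousAt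
    have h3 : ContinuousAt (fun p : ℝ × ℝ => (1 / 2 - I * ((p.2 : ℂ) + p.1) : ℂ)) (u, t) :=
      Continuous.continuousAt (by fun_prop)
    show ContinuousAt (fun p : ℝ × ℝ => riemannZeta (1 / 2 - I * ((p.2 : ℂ) + p.1))) (u, t)
    exact ContinuousAt.comp (x := ((u, t) : ℝ × ℝ)) (g := riemannZeta) h2 h3

lemma continuous_Mr (T : ℝ) : Continuous fun γ : Ix k → ℝ => Mr γ T := by
  unfold Mr
  refine intervalIntegral.continuous_parametric_intervalIntegral_of_continuous' ?_ _ _
  have e : (Function.uncurry fun (γ : Ix k → ℝ) (t : ℝ) =>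
      Z (fun j => γ (Sum.inl j)) (fun j => γ (Sum.inr j)) t) =
      fun p : (Ix k → ℝ) × ℝ => ∏ i, zf i (p.1 i) p.2 := by
    funext p
    exact Z_eq_prod p.1 p.2
  rw [e]
  refine continuous_finsetProd _ fun i _ => ?_
  exact Continuous.comp (f := fun p : (Ix k → ℝ) × ℝ => (p.1 i, p.2)) (continuous_zf i)
    (by fun_prop)

lemma exists_Mr_poly (k : ℕ) : ∀ (γ : Ix k → ℝ) (B T : ℝ), 0 ≤ B → 1 ≤ T →
    (∀ i, |γ i| ≤ B) → ‖Mr γ T‖ ≤ (8:ℝ) ^ (2 * k) * (1 + B) ^ (2 * k) * T ^ (2 * k + 1) := by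
  intro γ B T hB hT hγ
  have hT0 : 0 ≤ T := by linarith
  unfold Mr
  have h := intervalIntegral.norm_integral_le_of_norm_le_const (a := (0:ℝ)) (b := T)
    (C := (8:ℝ) ^ (2 * k) * (1 + B) ^ (2 * k) * T ^ (2 * k))
    (f := fun t : ℝ => Z (fun j => γ (Sum.inl j)) (fun j => γ (Sum.inr j)) t) ?_
  · refine h.trans (le_of_eq ?_)
    rw [sub_zero, abs_of_nonneg hT0]
    ring
  · intro t ht
    rw [Set.uIoc_of_le hT0] at ht
    rw [Z_eq_prod, norm_prod]
    have h1 : ∀ i ∈ (Finset.univ : Finset (Ix k)), ‖zf i (γ i) t‖ ≤ 8 * (1 + B) * T := by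
      intro i _
      refine (norm_zf_le i (γ i) t).trans ?_
      have h2 : |t + γ i| ≤ T + B := (abs_add_le _ _).trans (by
        rw [abs_of_pos ht.1]
        linarith [ht.2, hγ i])
      nlinarith
    refine (Finset.prod_le_prod (fun i _ => norm_nonneg _) h1).trans (le_of_eq ?_)
    rw [Finset.prod_const, Finset.card_univ, Fintype.card_sum, Fintype.card_fin, ← two_mul,
      mul_pow, mul_pow]

/-- The average of the moment over one shift. -/
lemma exists_one_avg (γ₀ : Ix k → ℝ) (i : Ix k) {Y : ℝ} (hY : 1 ≤ Y) : ∃ C : ℝ, 0 ≤ C ∧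
    ∀ (w : ℂ → ℂ) (M M₁ : ℝ), Differentiable ℂ w →
    (∀ z : ℂ, -Y ≤ z.im → z.im ≤ 0 → (1 + |z.re|) ^ (2 * k + 3 + 3) * ‖w z‖ ≤ M) →
    (∀ z : ℂ, z.im = -Y → (1 + |z.re|) ^ 3 * ‖w z‖ ≤ M₁) → ∀ T : ℝ, 1 ≤ T →
    ‖∫ x : ℝ, w x * Mr (gs γ₀ i x) T‖ ≤ C * (M₁ * T ^ (2 * k + 2) + M) := by
  set B : ℝ := ∑ i, |γ₀ i| with hBdef
  have hB : 0 ≤ B := Finset.sum_nonneg fun _ _ => abs_nonneg _
  set CY : ℝ := 16 * Y * 3 ^ (2 * k + 3 + 3) + 16 with hCY
  have hCY0 : 0 ≤ CY := by positivity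
  set D : ℝ := (4 * (1 + B) * (1 + B)) ^ (2 * k) with hD
  have hD0 : 0 ≤ D := by positivity
  refine ⟨D * CY * ((2 * (1 + B)) ^ (2 * k + 1) + 4), by positivity,
    fun w M M₁ hw hb hb1 T hT => ?_⟩
  have hT0 : 0 ≤ T := by linarith
  have hM : 0 ≤ M := (by positivity : (0:ℝ) ≤ (1 + |(0:ℂ).re|) ^ (2 * k + 3 + 3) * ‖w 0‖).trans
    (hb 0 (by simp; linarith) (by simp))
  have hM₁ : 0 ≤ M₁ := (by positivity : (0:ℝ) ≤ (1 + |((-Y : ℝ) * I : ℂ).re|) ^ 3 *
    ‖w ((-Y : ℝ) * I)‖).trans (hb1 _ (by simp))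
  set O : ℝ → ℂ := fun t => ∏ i' ∈ univ.erase i, zf i' (γ₀ i') t with hO
  have hOc : Continuous O := continuous_finsetProd _ fun i' _ =>
    (continuous_zf i').comp (continuous_const.prodMk continuous_id)
  have hZ : ∀ x t : ℝ, Z (fun j => gs γ₀ i x (Sum.inl j)) (fun j => gs γ₀ i x (Sum.inr j)) t =
      riemannZeta (1 / 2 + I * (x + (sg i * (t + γ₀ i) : ℝ))) * O t := by
    intro x t
    rw [Z_eq_prod (gs γ₀ i x) t, ← Finset.mul_prod_erase univ _ (Finset.mem_univ i), hO]
    congr 1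
    · unfold gs
      rw [Function.update_self, zf_shift]
    · refine Finset.prod_congr rfl fun i' hi' => ?_
      unfold gs
      rw [Function.update_of_ne (Finset.ne_of_mem_erase hi')]
  have hOb : ∀ t, ‖O t‖ ≤ (4 * (1 + B) * (1 + |t|)) ^ (2 * k) := by
    intro t
    have ht := abs_nonneg t
    rw [hO, norm_prod]
    have h1 : ∀ i' ∈ univ.erase i, ‖zf i' (γ₀ i') t‖ ≤ 4 * (1 + B) * (1 + |t|) := by
      intro i' _
      refine (norm_zf_le i' (γ₀ i') t).trans ?_
      have h2 : |t + γ₀ i'| ≤ |t| + B := (abs_add_le _ _).trans (by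
        linarith [abs_apply_le_sum γ₀ i'])
      nlinarith [mul_nonneg hB ht]
    refine (Finset.prod_le_prod (fun i _ => norm_nonneg _) h1).trans ?_
    rw [Finset.prod_const]
    have h3 : 1 ≤ 4 * (1 + B) * (1 + |t|) := by nlinarith [mul_nonneg hB ht]
    refine pow_le_pow_right₀ h3 ?_
    have := Finset.card_le_univ (univ.erase i)
    rw [Fintype.card_sum, Fintype.card_fin] at this
    omega
  -- Fubini
  set f : ℝ → ℝ → ℂ := fun x t => w x * (riemannZeta (1 / 2 + I * (x +
    (sg i * (t + γ₀ i) : ℝ))) * O t) with hf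
  have hfc : Continuous (Function.uncurry f) := by
    refine (hw.continuous.comp (Complex.continuous_ofReal.comp continuous_fst)).mul
      (Continuous.mul ?_ (hOc.comp continuous_snd))
    have h1 : Continuous fun p : ℝ × ℝ => zf i (γ₀ i + sg i * p.1) p.2 :=
      Continuous.comp (f := fun p : ℝ × ℝ => (γ₀ i + sg i * p.1, p.2)) (continuous_zf i)
        (by fun_prop)
    refine h1.congr fun p => ?_
    exact zf_shift i (γ₀ i) p.1 p.2
  have hfb : ∀ x ∉ (∅ : Set ℝ), ∀ t, 0 ≤ t → t ≤ T → ‖f x t‖ ≤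
      (4 * M * (1 + (T + B)) * (4 * (1 + B) * (1 + T)) ^ (2 * k)) * (1 + x ^ 2)⁻¹ := by
    intro x _ t ht0 htT
    have hx := abs_nonneg x
    have h1 := hb x (by simp; linarith) (by simp)
    rw [Complex.ofReal_re] at h1
    have h2 : ‖w x‖ ≤ M / (1 + |x|) ^ 3 := by
      rw [le_div_iff₀ (by positivity), mul_comm]
      refine le_trans ?_ h1
      gcongr
      · linarith
      · omega
    have h3 := norm_zeta_line (σ := 1 / 2) (u := x + sg i * (t + γ₀ i)) le_rfl (Or.inl rfl)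
    have e : (((1 / 2 : ℝ) : ℂ) + I * ((x + sg i * (t + γ₀ i) : ℝ) : ℂ)) =
        1 / 2 + I * ((x : ℂ) + (sg i * (t + γ₀ i) : ℝ)) := by
      push_cast; ring
    rw [e] at h3
    have h4 : |sg i * (t + γ₀ i)| ≤ T + B := by
      rw [abs_mul, abs_sg, one_mul]
      refine (abs_add_le _ _).trans ?_
      rw [abs_of_nonneg ht0]
      linarith [abs_apply_le_sum γ₀ i]
    have h5 : 1 + |x + sg i * (t + γ₀ i)| ≤ (1 + |x|) * (1 + (T + B)) :=
      (one_add_abs_add_le _ _).trans (by gcongr)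
    have h6 : ‖O t‖ ≤ (4 * (1 + B) * (1 + T)) ^ (2 * k) := by
      refine (hOb t).trans ?_
      rw [abs_of_nonneg ht0]
      gcongr
    rw [hf]
    simp only
    rw [norm_mul, norm_mul]
    calc _ ≤ (M / (1 + |x|) ^ 3) * ((4 * ((1 + |x|) * (1 + (T + B)))) *
          (4 * (1 + B) * (1 + T)) ^ (2 * k)) := by
          gcongr
          exact h3.trans (by gcongr)
      _ = (4 * M * (1 + (T + B)) * (4 * (1 + B) * (1 + T)) ^ (2 * k)) *
          ((1 + |x|) / (1 + |x|) ^ 3) := by ring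
      _ ≤ _ := by
          gcongr
          exact inv_cube_mul_le x
  have hswap := integral_swap_of_bound hT0 Set.finite_empty
    (fun x _ t => hfc.continuousAt) hfb
  have e1 : (∫ x : ℝ, w x * Mr (gs γ₀ i x) T) = ∫ t in (0:ℝ)..T, ∫ x : ℝ, f x t := by
    rw [← hswap.1]
    congr 1
    funext x
    rw [Mr, ← intervalIntegral.integral_const_mul]
    congr 1
    funext t
    rw [hf, hZ]
  have e2 : ∀ t, (∫ x : ℝ, f x t) = O t * ∫ x : ℝ, w x * riemannZeta (1 / 2 + I * (x +
      (sg i * (t + γ₀ i) : ℝ))) := by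
    intro t
    rw [← integral_const_mul]
    congr 1
    funext x
    rw [hf]
    ring
  have hpt : ∀ t ∈ Set.Ioc (0:ℝ) T, ‖∫ x : ℝ, f x t‖ ≤
      D * CY * ((2 * (1 + B) * T) ^ (2 * k + 1) * M₁) +
        D * CY * M * (1 + (t + γ₀ i) ^ 2)⁻¹ := by
    intro t ht
    set τ : ℝ := sg i * (t + γ₀ i) with hτ
    have hτa : |τ| = |t + γ₀ i| := by rw [hτ, abs_mul, abs_sg, one_mul]
    have hτ0 := abs_nonneg τ
    have h1 := zeta_avg (n := 2 * k + 3) hY hw hb hb1 τ
    have h2 : ‖O t‖ ≤ D * (1 + |τ|) ^ (2 * k) := by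
      refine (hOb t).trans ?_
      rw [hD, ← mul_pow]
      have h3 := one_add_abs_le (t := t) (b := γ₀ i) (B := B) (abs_apply_le_sum γ₀ i)
      rw [← hτa] at h3
      calc (4 * (1 + B) * (1 + |t|)) ^ (2 * k) ≤ (4 * (1 + B) * ((1 + B) * (1 + |τ|))) ^ (2 * k) := by
            gcongr
        _ = _ := by ring
    rw [e2, norm_mul]
    have h4 : (1 + |τ|) ≤ 2 * (1 + B) * T := by
      rw [hτa]
      have h5 : |t + γ₀ i| ≤ T + B := (abs_add_le _ _).trans (by
        rw [abs_of_pos ht.1]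
        linarith [ht.2, abs_apply_le_sum γ₀ i])
      nlinarith
    have h6 : (1 + |τ|) ^ (2 * k + 1) * (M / (1 + |τ|) ^ (2 * k + 3)) ≤
        M * (1 + (t + γ₀ i) ^ 2)⁻¹ := by
      have h7 := inv_sq_le τ
      have e5 : τ ^ 2 = (t + γ₀ i) ^ 2 := by rw [← sq_abs, hτa, sq_abs]
      rw [e5] at h7
      calc (1 + |τ|) ^ (2 * k + 1) * (M / (1 + |τ|) ^ (2 * k + 3))
          = M * ((1 + |τ|) ^ 2)⁻¹ := by
            have e6 : (1 + |τ|) ^ (2 * k + 3) = (1 + |τ|) ^ (2 * k + 1) * (1 + |τ|) ^ 2 := by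
              rw [← pow_add]
            rw [e6]
            field_simp
        _ ≤ _ := by gcongr
    calc ‖O t‖ * ‖∫ x : ℝ, w x * riemannZeta (1 / 2 + I * (x + (τ : ℝ)))‖
        ≤ (D * (1 + |τ|) ^ (2 * k)) * (CY * (1 + |τ|) * (M₁ + M / (1 + |τ|) ^ (2 * k + 3))) := by
          gcongr
      _ = D * CY * ((1 + |τ|) ^ (2 * k + 1) * M₁) + D * CY *
          ((1 + |τ|) ^ (2 * k + 1) * (M / (1 + |τ|) ^ (2 * k + 3))) := by ring
      _ ≤ D * CY * ((2 * (1 + B) * T) ^ (2 * k + 1) * M₁) +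
          D * CY * (M * (1 + (t + γ₀ i) ^ 2)⁻¹) := by gcongr
      _ = _ := by ring
  rw [e1]
  have hgi : Integrable (fun t : ℝ => (1 + (t + γ₀ i) ^ 2)⁻¹) :=
    integrable_inv_one_add_sq.comp_add_right (γ₀ i)
  have h7 := intervalIntegral.norm_integral_le_of_norm_le (a := 0) (b := T) hT0
    (f := fun t : ℝ => ∫ x : ℝ, f x t)
    (g := fun t => D * CY * ((2 * (1 + B) * T) ^ (2 * k + 1) * M₁) +
        D * CY * M * (1 + (t + γ₀ i) ^ 2)⁻¹)
    (Eventually.of_forall fun t ht => hpt t ht)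
    (intervalIntegrable_const.add (hgi.const_mul _).intervalIntegrable)
  refine h7.trans ?_
  rw [intervalIntegral.integral_add intervalIntegrable_const
    (hgi.const_mul _).intervalIntegrable, intervalIntegral.integral_const,
    intervalIntegral.integral_const_mul, sub_zero, smul_eq_mul]
  have h8 : ∫ t in (0:ℝ)..T, (1 + (t + γ₀ i) ^ 2)⁻¹ ≤ 4 := by
    rw [intervalIntegral.integral_of_le hT0]
    have h9 := setIntegral_le_integral (s := Set.Ioc 0 T)
      (f := fun t : ℝ => (1 + (t + γ₀ i) ^ 2)⁻¹) hgi (Eventually.of_forall fun x => by positivity)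
    refine h9.trans ?_
    have h10 : ∫ t : ℝ, (1 + (t + γ₀ i) ^ 2)⁻¹ = Real.pi := by
      rw [integral_add_right_eq_self (fun t : ℝ => (1 + t ^ 2)⁻¹) (γ₀ i),
        integral_univ_inv_one_add_sq]
    rw [h10]
    exact Real.pi_le_four
  have e7 : T * (D * CY * ((2 * (1 + B) * T) ^ (2 * k + 1) * M₁)) =
      D * CY * (2 * (1 + B)) ^ (2 * k + 1) * (M₁ * T ^ (2 * k + 2)) := by
    rw [mul_pow]
    ring
  rw [e7]
  have hMT : 0 ≤ M₁ * T ^ (2 * k + 2) := by positivity
  calc D * CY * (2 * (1 + B)) ^ (2 * k + 1) * (M₁ * T ^ (2 * k + 2)) +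
        D * CY * M * ∫ t in (0:ℝ)..T, (1 + (t + γ₀ i) ^ 2)⁻¹
      ≤ D * CY * (2 * (1 + B)) ^ (2 * k + 1) * (M₁ * T ^ (2 * k + 2)) + D * CY * M * 4 := by
        gcongr
    _ ≤ D * CY * ((2 * (1 + B)) ^ (2 * k + 1) + 4) * (M₁ * T ^ (2 * k + 2)) +
        D * CY * ((2 * (1 + B)) ^ (2 * k + 1) + 4) * M := by
        have h11 : 0 ≤ (2 * (1 + B)) ^ (2 * k + 1) := by positivity
        have h12 : D * CY * (2 * (1 + B)) ^ (2 * k + 1) ≤
            D * CY * ((2 * (1 + B)) ^ (2 * k + 1) + 4) := by gcongr; linarith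
        have h13 : D * CY * M * 4 ≤ D * CY * ((2 * (1 + B)) ^ (2 * k + 1) + 4) * M := by
          have : D * CY * 4 ≤ D * CY * ((2 * (1 + B)) ^ (2 * k + 1) + 4) := by gcongr; linarith
          calc D * CY * M * 4 = D * CY * 4 * M := by ring
            _ ≤ _ := by gcongr
        have h14 := mul_le_mul_of_nonneg_right h12 hMT
        linarith
    _ = _ := by ring

end Pool.Agent.H26
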