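import Pool.Agent.H26.RG.Generic

/-!
Partial summation with an expansion and a power saving.
-/

namespace Pool.Agent.H26

open Complex Finset MeasureTheory Filter Asymptotics Topology

lemma hasDerivAt_mono (ω : ℝ) {t : ℝ} (ht : 0 < t) :
    HasDerivAt (mono ω) ((1 - I * ω) * (t : ℂ) ^ (-(I * ω))) t := by
  have h1 : HasDerivAt (fun z : ℂ => z ^ (1 - I * ω)) ((1 - I * ω) * (t : ℂ) ^ (1 - I * ω - 1))
      (t : ℂ) := by
    have := (hasDerivAt_id (t : ℂ)).cpow_const (c := 1 - I * ω) (by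
      left; simpa using ht)
    simpa using this
  have h2 := h1.comp_ofReal
  have e : (1 - I * ω - 1 : ℂ) = -(I * ω) := by ring
  rw [e] at h2
  exact h2

lemma norm_cpow_neg_I {t : ℝ} (ht : 0 < t) (ω : ℝ) : ‖(t : ℂ) ^ (-(I * ω))‖ = 1 := by
  rw [Complex.norm_cpow_eq_rpow_re_of_pos ht]
  simp

lemma one_sub_I_mul_ne (ω : ℝ) : (1 - I * ω : ℂ) ≠ 0 := by
  intro h
  have := congrArg Complex.re h
  simp at this

lemma continuousOn_cpow_neg_I (ω : ℝ) {a b : ℝ} (ha : 0 < a) :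
    ContinuousOn (fun t : ℝ => (t : ℂ) ^ (-(I * ω))) (Set.Icc a b) := by
  intro t ht
  have h0 : (0:ℝ) < t := lt_of_lt_of_le ha ht.1
  refine ContinuousAt.continuousWithinAt ?_
  have : ContinuousAt (fun z : ℂ => z ^ (-(I * ω))) (t : ℂ) :=
    continuousAt_cpow_const (Complex.ofReal_mem_slitPlane.2 h0)
  exact this.comp (f := fun t : ℝ => (t : ℂ)) Complex.continuous_ofReal.continuousAt

lemma integral_cpow_neg_I (ω : ℝ) {a b : ℝ} (ha : 0 < a) (hab : a ≤ b) :
    ∫ t in a..b, (t : ℂ) ^ (-(I * ω)) = (mono ω b - mono ω a) / (1 - I * ω) := by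
  have h1 : ∫ t in a..b, (1 - I * ω) * (t : ℂ) ^ (-(I * ω)) = mono ω b - mono ω a := by
    refine intervalIntegral.integral_eq_sub_of_hasDerivAt (fun t ht => ?_) ?_
    · rw [Set.uIcc_of_le hab] at ht
      exact hasDerivAt_mono ω (lt_of_lt_of_le ha ht.1)
    · refine ContinuousOn.intervalIntegrable ?_
      rw [Set.uIcc_of_le hab]
      exact (continuousOn_cpow_neg_I ω ha).const_mul _ |>.congr fun t _ => rfl
  rw [intervalIntegral.integral_const_mul] at h1
  rw [eq_div_iff (one_sub_I_mul_ne ω), mul_comm]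
  exact h1

lemma integral_rpow_sub_one_le {a x y : ℝ} (ha : 0 < a) (hx : 0 < x) (_hxy : x ≤ y) :
    ∫ t in x..y, t ^ (a - 1) ≤ y ^ a / a := by
  rw [integral_rpow (Or.inl (by linarith))]
  have e : a - 1 + 1 = a := by ring
  rw [e]
  have : 0 ≤ x ^ a := by positivity
  gcongr
  linarith

theorem partial_sum {f G g : ℝ → ℂ} (hf : Continuous f) (hG : Continuous G) {η C t₀ a : ℝ}
    {h : ℝ → ℂ} (ht₀ : 1 ≤ t₀) (hC : 0 ≤ C) (ha : 0 < a)
    (h1 : ∀ t : ℝ, t₀ ≤ t → G t = ((t / (2 * Real.pi) : ℝ) : ℂ) ^ (-(I * η)) * h t)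
    (h2 : ∀ t : ℝ, t₀ ≤ t → ‖h t - 1‖ ≤ C / t)
    (h3 : ∀ t : ℝ, t₀ ≤ t → HasDerivAt G (g t) t)
    (h4 : ∀ t : ℝ, t₀ ≤ t → ‖g t‖ ≤ C / t) (h5 : ContinuousOn g (Set.Ici t₀))
    {ι : Type*} (s : Finset ι) (ω : ι → ℝ) (b : ι → ℂ)
    (hF : (fun T : ℝ => (∫ t in (0:ℝ)..T, f t) - ∑ i ∈ s, b i * mono (ω i) T) =O[atTop]
      fun T : ℝ => T ^ a) :
    (fun T : ℝ => (∫ t in (0:ℝ)..T, G t * f t) -
      ∑ i ∈ s, (b i * ((2 * Real.pi : ℝ) : ℂ) ^ (I * η) * (1 - I * ω i) /
        (1 - I * (ω i + η : ℝ))) * mono (ω i + η) T) =O[atTop] fun T : ℝ => T ^ a := by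
  obtain ⟨c, hc⟩ := hF.bound
  obtain ⟨T₀, hT₀⟩ := Filter.eventually_atTop.1 hc
  set T₁ : ℝ := max T₀ t₀ with hT₁
  have hT₁t : t₀ ≤ T₁ := le_max_right _ _
  have hT₁0 : 0 < T₁ := by linarith
  set F : ℝ → ℂ := fun T => ∫ t in (0:ℝ)..T, f t with hFdef
  set F0 : ℝ → ℂ := fun T => ∑ i ∈ s, b i * mono (ω i) T with hF0
  set F0' : ℝ → ℂ := fun t => ∑ i ∈ s, b i * ((1 - I * ω i) * (t : ℂ) ^ (-(I * ω i))) with hF0'
  have hFd : ∀ t, HasDerivAt F (f t) t := fun t =>
    intervalIntegral.integral_hasDerivAt_right (hf.intervalIntegrable _ _)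
      (hf.stronglyMeasurableAtFilter _ _) hf.continuousAt
  have hF0d : ∀ t, 0 < t → HasDerivAt F0 (F0' t) t := by
    intro t ht
    exact HasDerivAt.fun_sum (u := s) (A := fun i T => b i * mono (ω i) T)
      (A' := fun i => b i * ((1 - I * ω i) * (t : ℂ) ^ (-(I * ω i)))) (x := t)
      (fun i _ => (hasDerivAt_mono (ω i) ht).const_mul (b i))
  have hc0 : 0 ≤ max c 0 := le_max_right _ _
  have hR : ∀ T, T₁ ≤ T → ‖F T - F0 T‖ ≤ max c 0 * T ^ a := by
    intro T hT
    have h6 := hT₀ T ((le_max_left _ _).trans hT)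
    have hT0 : 0 < T := by linarith
    rw [Real.norm_of_nonneg (by positivity : 0 ≤ T ^ a)] at h6
    exact h6.trans (by gcongr; exact le_max_left _ _)
  have hGn : ∀ t, t₀ ≤ t → ‖G t‖ ≤ 1 + C := by
    intro t ht
    have ht0 : 0 < t := by linarith
    have ht1 : 1 ≤ t := by linarith
    have h6 : 0 < t / (2 * Real.pi) := by positivity
    rw [h1 t ht, norm_mul, norm_cpow_neg_I h6, one_mul]
    have h7 := h2 t ht
    calc ‖h t‖ = ‖1 + (h t - 1)‖ := by ring_nf
      _ ≤ ‖(1:ℂ)‖ + ‖h t - 1‖ := norm_add_le _ _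
      _ ≤ 1 + C / t := by rw [norm_one]; linarith
      _ ≤ 1 + C := by
        have : C / t ≤ C / 1 := by gcongr
        rw [div_one] at this
        linarith
  -- constants
  set K1 : ℝ := ‖∫ t in (0:ℝ)..T₁, G t * f t‖ with hK1
  set K2 : ℝ := ∑ i ∈ s, ‖b i‖ * (1 + |ω i|) * (T₁ + C * (1 / a)) with hK2
  set K3 : ℝ := (1 + C) * (max c 0) + (1 + C) * ((max c 0) * T₁ ^ a) + C * (max c 0) / a with hK3
  refine Asymptotics.IsBigO.of_bound (K1 + K3 + K2) ?_
  filter_upwards [eventually_ge_atTop T₁] with T hT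
  have hT0 : 0 < T := by linarith
  have hT1 : 1 ≤ T := by linarith
  have hTa : 1 ≤ T ^ a := Real.one_le_rpow hT1 ha.le
  have hicc : Set.uIcc T₁ T = Set.Icc T₁ T := Set.uIcc_of_le hT
  have hge : ∀ t ∈ Set.Icc T₁ T, t₀ ≤ t := fun t ht => hT₁t.trans ht.1
  have hgc : ContinuousOn g (Set.Icc T₁ T) := h5.mono fun t ht => hge t ht
  have hgi : IntervalIntegrable g volume T₁ T := by
    refine ContinuousOn.intervalIntegrable ?_
    rw [hicc]; exact hgc
  have hFc : Continuous F := continuous_iff_continuousAt.2 fun t => (hFd t).continuousAt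
  have hF0c : ContinuousOn F0 (Set.Icc T₁ T) := fun t ht =>
    (hF0d t (by linarith [ht.1])).continuousAt.continuousWithinAt
  have hF0'c : ContinuousOn F0' (Set.Icc T₁ T) := by
    refine continuousOn_finsetSum _ fun i _ => ?_
    exact ((continuousOn_cpow_neg_I (ω i) hT₁0).const_mul _).const_mul _ |>.congr fun t _ => rfl
  -- integration by parts
  have hp1 : ∫ t in T₁..T, G t * f t = G T * F T - G T₁ * F T₁ - ∫ t in T₁..T, g t * F t := by
    refine intervalIntegral.integral_mul_deriv_eq_deriv_mul (fun t ht => ?_) (fun t _ => hFd t)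
      hgi (hf.intervalIntegrable _ _)
    rw [hicc] at ht
    exact h3 t (hge t ht)
  have hp2 : ∫ t in T₁..T, G t * F0' t =
      G T * F0 T - G T₁ * F0 T₁ - ∫ t in T₁..T, g t * F0 t := by
    refine intervalIntegral.integral_mul_deriv_eq_deriv_mul (fun t ht => ?_) (fun t ht => ?_)
      hgi ?_
    · rw [hicc] at ht
      exact h3 t (hge t ht)
    · rw [hicc] at ht
      exact hF0d t (by linarith [ht.1])
    · refine ContinuousOn.intervalIntegrable ?_
      rw [hicc]; exact hF0'c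
  have hsub : (∫ t in T₁..T, G t * f t) - (∫ t in T₁..T, G t * F0' t) =
      G T * (F T - F0 T) - G T₁ * (F T₁ - F0 T₁) - ∫ t in T₁..T, g t * (F t - F0 t) := by
    have e1 : ∫ t in T₁..T, g t * (F t - F0 t) =
        (∫ t in T₁..T, g t * F t) - ∫ t in T₁..T, g t * F0 t := by
      rw [← intervalIntegral.integral_sub]
      · congr 1; funext t; ring
      · refine ContinuousOn.intervalIntegrable ?_
        rw [hicc]; exact hgc.mul hFc.continuousOn
      · refine ContinuousOn.intervalIntegrable ?_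
        rw [hicc]; exact hgc.mul hF0c
    rw [hp1, hp2, e1]
    ring
  have hb1 : ‖(∫ t in T₁..T, G t * f t) - (∫ t in T₁..T, G t * F0' t)‖ ≤ K3 * T ^ a := by
    rw [hsub]
    have b1 : ‖G T * (F T - F0 T)‖ ≤ (1 + C) * (max c 0) * T ^ a := by
      rw [norm_mul]
      calc _ ≤ (1 + C) * ((max c 0) * T ^ a) := by
            have h6 := hGn T (hT₁t.trans hT)
            have h7 := hR T hT
            gcongr
        _ = _ := by ring
    have b2 : ‖G T₁ * (F T₁ - F0 T₁)‖ ≤ (1 + C) * ((max c 0) * T₁ ^ a) * T ^ a := by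
      rw [norm_mul]
      have h6 := hGn T₁ hT₁t
      have h7 := hR T₁ le_rfl
      calc _ ≤ (1 + C) * ((max c 0) * T₁ ^ a) := by gcongr
        _ ≤ _ := le_mul_of_one_le_right (by positivity) hTa
    have b3 : ‖∫ t in T₁..T, g t * (F t - F0 t)‖ ≤ C * (max c 0) / a * T ^ a := by
      have hle : ∀ t ∈ Set.Ioc T₁ T, ‖g t * (F t - F0 t)‖ ≤ C * (max c 0) * t ^ (a - 1) := by
        intro t ht
        have ht0 : 0 < t := by linarith [ht.1]
        have h6 := h4 t (by linarith [ht.1])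
        have h7 := hR t ht.1.le
        rw [norm_mul]
        calc _ ≤ (C / t) * ((max c 0) * t ^ a) := by gcongr
          _ = C * (max c 0) * (t ^ a / t) := by ring
          _ = _ := by rw [Real.rpow_sub ht0, Real.rpow_one]
      have hint : IntervalIntegrable (fun t : ℝ => C * (max c 0) * t ^ (a - 1)) volume T₁ T :=
        (intervalIntegral.intervalIntegrable_rpow' (by linarith)).const_mul _
      have h6 := intervalIntegral.norm_integral_le_of_norm_le hT (f := fun t => g t * (F t - F0 t))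
        (g := fun t => C * (max c 0) * t ^ (a - 1)) (Eventually.of_forall fun t ht => hle t ht) hint
      refine h6.trans ?_
      rw [intervalIntegral.integral_const_mul]
      have h7 := integral_rpow_sub_one_le ha hT₁0 hT
      calc C * (max c 0) * ∫ t in T₁..T, t ^ (a - 1) ≤ C * (max c 0) * (T ^ a / a) := by gcongr
        _ = _ := by ring
    calc _ ≤ ‖G T * (F T - F0 T)‖ + ‖G T₁ * (F T₁ - F0 T₁)‖ +
          ‖∫ t in T₁..T, g t * (F t - F0 t)‖ :=
          (norm_sub_le _ _).trans (by gcongr; exact norm_sub_le _ _)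
      _ ≤ (1 + C) * (max c 0) * T ^ a + (1 + C) * ((max c 0) * T₁ ^ a) * T ^ a +
          C * (max c 0) / a * T ^ a := by gcongr
      _ = _ := by rw [hK3]; ring
  -- the main terms
  have hmain : ∀ i ∈ s, ‖(∫ t in T₁..T, G t * (b i * ((1 - I * ω i) * (t : ℂ) ^ (-(I * ω i))))) -
      (b i * ((2 * Real.pi : ℝ) : ℂ) ^ (I * η) * (1 - I * ω i) /
        (1 - I * (ω i + η : ℝ))) * mono (ω i + η) T‖ ≤
      ‖b i‖ * (1 + |ω i|) * (T₁ + C * (1 / a)) * T ^ a := by
    intro i _
    have hpi : (0:ℝ) < 2 * Real.pi := by positivity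
    set A : ℂ := b i * ((2 * Real.pi : ℝ) : ℂ) ^ (I * η) * (1 - I * ω i) with hA
    have hAn : ‖A‖ ≤ ‖b i‖ * (1 + |ω i|) := by
      rw [hA, norm_mul, norm_mul, Complex.norm_cpow_eq_rpow_re_of_pos hpi]
      have e1 : (I * (η : ℂ)).re = 0 := by simp
      rw [e1, Real.rpow_zero, mul_one]
      gcongr
      calc ‖(1 - I * ω i : ℂ)‖ ≤ ‖(1:ℂ)‖ + ‖I * (ω i : ℂ)‖ := norm_sub_le _ _
        _ = 1 + |ω i| := by simp
    have heq : ∀ t ∈ Set.Icc T₁ T, G t * (b i * ((1 - I * ω i) * (t : ℂ) ^ (-(I * ω i)))) =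
        A * (t : ℂ) ^ (-(I * ((ω i + η : ℝ) : ℂ))) +
          A * ((t : ℂ) ^ (-(I * ((ω i + η : ℝ) : ℂ))) * (h t - 1)) := by
      intro t ht
      have ht0 : 0 < t := by linarith [ht.1]
      have htc : (t : ℂ) ≠ 0 := by exact_mod_cast ht0.ne'
      have e1 : ((t / (2 * Real.pi) : ℝ) : ℂ) ^ (-(I * (η : ℂ))) =
          (t : ℂ) ^ (-(I * (η : ℂ))) * ((2 * Real.pi : ℝ) : ℂ) ^ (I * (η : ℂ)) := by
        rw [div_eq_mul_inv, Complex.ofReal_mul,
          Complex.mul_cpow_ofReal_nonneg ht0.le (inv_nonneg.2 hpi.le), Complex.ofReal_inv,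
          Complex.inv_cpow _ _ (by
            rw [Complex.arg_ofReal_of_nonneg hpi.le]; exact Real.pi_pos.ne),
          ← Complex.cpow_neg, neg_neg]
      have e2 : (t : ℂ) ^ (-(I * ((ω i + η : ℝ) : ℂ))) =
          (t : ℂ) ^ (-(I * (η : ℂ))) * (t : ℂ) ^ (-(I * (ω i : ℂ))) := by
        rw [← Complex.cpow_add _ _ htc]
        congr 1
        push_cast
        ring
      rw [h1 t (hge t ht), e1, e2, hA]
      ring
    have hhc : ContinuousOn (fun t : ℝ => (t : ℂ) ^ (-(I * ((ω i + η : ℝ) : ℂ))) * (h t - 1))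
        (Set.Icc T₁ T) := by
      refine (continuousOn_cpow_neg_I (ω i + η) hT₁0).mul (ContinuousOn.sub ?_ continuousOn_const)
      have e3 : ∀ t ∈ Set.Icc T₁ T, h t =
          G t * ((((t / (2 * Real.pi) : ℝ) : ℂ) ^ (-(I * (η : ℂ))))⁻¹) := by
        intro t ht
        have ht0 : 0 < t := by linarith [ht.1]
        have h6 : 0 < t / (2 * Real.pi) := by positivity
        have h7 : (((t / (2 * Real.pi) : ℝ) : ℂ) ^ (-(I * (η : ℂ)))) ≠ 0 := by
          intro h8
          have := norm_cpow_neg_I h6 η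
          rw [h8, norm_zero] at this
          exact zero_ne_one this
        rw [h1 t (hge t ht)]
        field_simp
      refine ContinuousOn.congr (f := fun t : ℝ => G t *
        ((((t / (2 * Real.pi) : ℝ) : ℂ) ^ (-(I * (η : ℂ))))⁻¹)) ?_ e3
      refine hG.continuousOn.mul (ContinuousOn.inv₀ ?_ ?_)
      · intro t ht
        have ht0 : 0 < t := by linarith [ht.1]
        have h6 : 0 < t / (2 * Real.pi) := by positivity
        refine ContinuousAt.continuousWithinAt ?_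
        have h7 : ContinuousAt (fun z : ℂ => z ^ (-(I * (η : ℂ)))) ((t / (2 * Real.pi) : ℝ) : ℂ) :=
          continuousAt_cpow_const (Complex.ofReal_mem_slitPlane.2 h6)
        have h8 : ContinuousAt (fun t : ℝ => ((t / (2 * Real.pi) : ℝ) : ℂ)) t := by fun_prop
        exact ContinuousAt.comp (f := fun t : ℝ => ((t / (2 * Real.pi) : ℝ) : ℂ)) h7 h8
      · intro t ht h8
        have ht0 : 0 < t := by linarith [ht.1]
        have h6 : 0 < t / (2 * Real.pi) := by positivity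
        have := norm_cpow_neg_I h6 η
        rw [h8, norm_zero] at this
        exact zero_ne_one this
    have hi1 : IntervalIntegrable (fun t : ℝ => A * (t : ℂ) ^ (-(I * ((ω i + η : ℝ) : ℂ)))) volume
        T₁ T := by
      refine ContinuousOn.intervalIntegrable ?_
      rw [hicc]
      exact (continuousOn_cpow_neg_I (ω i + η) hT₁0).const_mul _ |>.congr fun t _ => rfl
    have hi2 : IntervalIntegrable (fun t : ℝ => A * ((t : ℂ) ^ (-(I * ((ω i + η : ℝ) : ℂ))) *
        (h t - 1))) volume T₁ T := by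
      refine ContinuousOn.intervalIntegrable ?_
      rw [hicc]
      exact hhc.const_mul _ |>.congr fun t _ => rfl
    have hsplit : (∫ t in T₁..T, G t * (b i * ((1 - I * ω i) * (t : ℂ) ^ (-(I * ω i))))) =
        A * ((mono (ω i + η) T - mono (ω i + η) T₁) / (1 - I * (ω i + η : ℝ))) +
          A * ∫ t in T₁..T, (t : ℂ) ^ (-(I * ((ω i + η : ℝ) : ℂ))) * (h t - 1) := by
      rw [intervalIntegral.integral_congr (g := fun t => A * (t : ℂ) ^ (-(I * ((ω i + η : ℝ) : ℂ))) +
          A * ((t : ℂ) ^ (-(I * ((ω i + η : ℝ) : ℂ))) * (h t - 1))) (fun t ht => ?_),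
        intervalIntegral.integral_add hi1 hi2, intervalIntegral.integral_const_mul,
        intervalIntegral.integral_const_mul, integral_cpow_neg_I (ω i + η) hT₁0 hT]
      rw [hicc] at ht
      exact heq t ht
    have hsm : ‖∫ t in T₁..T, (t : ℂ) ^ (-(I * ((ω i + η : ℝ) : ℂ))) * (h t - 1)‖ ≤
        C * (1 / a) * T ^ a := by
      have hle : ∀ t ∈ Set.Ioc T₁ T, ‖(t : ℂ) ^ (-(I * ((ω i + η : ℝ) : ℂ))) * (h t - 1)‖ ≤
          C * t ^ (a - 1) := by
        intro t ht
        have ht0 : 0 < t := by linarith [ht.1]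
        have ht1 : 1 ≤ t := by linarith [ht.1]
        rw [norm_mul, norm_cpow_neg_I ht0, one_mul]
        refine (h2 t (by linarith [ht.1])).trans ?_
        rw [div_eq_mul_inv]
        have h6 : t⁻¹ ≤ t ^ (a - 1) := by
          rw [← Real.rpow_neg_one]
          exact Real.rpow_le_rpow_of_exponent_le ht1 (by linarith)
        gcongr
      have hint : IntervalIntegrable (fun t : ℝ => C * t ^ (a - 1)) volume T₁ T :=
        (intervalIntegral.intervalIntegrable_rpow' (by linarith)).const_mul _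
      have h6 := intervalIntegral.norm_integral_le_of_norm_le hT
        (f := fun t : ℝ => (t : ℂ) ^ (-(I * ((ω i + η : ℝ) : ℂ))) * (h t - 1))
        (g := fun t => C * t ^ (a - 1)) (Eventually.of_forall fun t ht => hle t ht) hint
      refine h6.trans ?_
      rw [intervalIntegral.integral_const_mul]
      have h7 := integral_rpow_sub_one_le ha hT₁0 hT
      calc C * ∫ t in T₁..T, t ^ (a - 1) ≤ C * (T ^ a / a) := by gcongr
        _ = _ := by ring
    rw [hsplit]
    have e4 : A * ((mono (ω i + η) T - mono (ω i + η) T₁) / (1 - I * (ω i + η : ℝ))) +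
          A * (∫ t in T₁..T, (t : ℂ) ^ (-(I * ((ω i + η : ℝ) : ℂ))) * (h t - 1)) -
        A / (1 - I * (ω i + η : ℝ)) * mono (ω i + η) T =
        A * ((∫ t in T₁..T, (t : ℂ) ^ (-(I * ((ω i + η : ℝ) : ℂ))) * (h t - 1)) -
          mono (ω i + η) T₁ / (1 - I * (ω i + η : ℝ))) := by ring
    rw [e4, norm_mul]
    have hone : 1 ≤ ‖(1 - I * (ω i + η : ℝ) : ℂ)‖ := by
      have := Complex.abs_re_le_norm (1 - I * ((ω i + η : ℝ) : ℂ))
      simpa using this
    have hlast : ‖(∫ t in T₁..T, (t : ℂ) ^ (-(I * ((ω i + η : ℝ) : ℂ))) * (h t - 1)) -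
          mono (ω i + η) T₁ / (1 - I * (ω i + η : ℝ))‖ ≤ (T₁ + C * (1 / a)) * T ^ a := by
      refine (norm_sub_le _ _).trans ?_
      have h8 : ‖mono (ω i + η) T₁ / (1 - I * ((ω i + η : ℝ) : ℂ))‖ ≤ T₁ * T ^ a := by
        rw [norm_div, norm_mono hT₁0]
        calc T₁ / ‖(1 - I * ((ω i + η : ℝ) : ℂ))‖ ≤ T₁ := div_le_self hT₁0.le hone
          _ ≤ T₁ * T ^ a := le_mul_of_one_le_right hT₁0.le hTa
      linarith
    calc ‖A‖ * _ ≤ (‖b i‖ * (1 + |ω i|)) * ((T₁ + C * (1 / a)) * T ^ a) := by gcongr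
      _ = _ := by ring
  have hsum : ‖(∫ t in T₁..T, G t * F0' t) -
      ∑ i ∈ s, (b i * ((2 * Real.pi : ℝ) : ℂ) ^ (I * η) * (1 - I * ω i) /
        (1 - I * (ω i + η : ℝ))) * mono (ω i + η) T‖ ≤ K2 * T ^ a := by
    have e5 : ∫ t in T₁..T, G t * F0' t =
        ∑ i ∈ s, ∫ t in T₁..T, G t * (b i * ((1 - I * ω i) * (t : ℂ) ^ (-(I * ω i)))) := by
      rw [← intervalIntegral.integral_finsetSum]
      · congr 1
        funext t
        rw [hF0', Finset.mul_sum]
      · intro i _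
        refine ContinuousOn.intervalIntegrable ?_
        rw [hicc]
        exact hG.continuousOn.mul
          (((continuousOn_cpow_neg_I (ω i) hT₁0).const_mul _).const_mul _ |>.congr fun t _ => rfl)
    rw [e5, ← Finset.sum_sub_distrib, hK2, Finset.sum_mul]
    exact (norm_sum_le _ _).trans (Finset.sum_le_sum hmain)
  have hadd : ∫ t in (0:ℝ)..T, G t * f t =
      (∫ t in (0:ℝ)..T₁, G t * f t) + ∫ t in T₁..T, G t * f t :=
    (intervalIntegral.integral_add_adjacent_intervals ((hG.mul hf).intervalIntegrable _ _)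
      ((hG.mul hf).intervalIntegrable _ _)).symm
  rw [Real.norm_of_nonneg (by positivity : 0 ≤ T ^ a), hadd]
  calc _ = ‖(∫ t in (0:ℝ)..T₁, G t * f t) + (((∫ t in T₁..T, G t * f t) -
          (∫ t in T₁..T, G t * F0' t)) + ((∫ t in T₁..T, G t * F0' t) -
          ∑ i ∈ s, (b i * ((2 * Real.pi : ℝ) : ℂ) ^ (I * η) * (1 - I * ω i) /
          (1 - I * (ω i + η : ℝ))) * mono (ω i + η) T))‖ := by congr 1; ring
    _ ≤ K1 + (K3 * T ^ a + K2 * T ^ a) := by
        refine (norm_add_le _ _).trans ?_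
        gcongr
        exact (norm_add_le _ _).trans (by gcongr)
    _ ≤ K1 * T ^ a + (K3 * T ^ a + K2 * T ^ a) := by
        have : K1 ≤ K1 * T ^ a := le_mul_of_one_le_right (norm_nonneg _) hTa
        linarith
    _ = _ := by ring

end Pool.Agent.H26
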