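import Pool.Agent.H26.RG.PS
import Pool.Agent.H26.RG.Stir

/-!
The expansion of the integral of the main term, and the passage between the charts.
-/

namespace Pool.Agent.H26

open Complex Finset MeasureTheory Filter Asymptotics Topology

variable {k : ℕ}

lemma continuous_G (S : Finset (Ix k)) (hS : S.card = k) (γ : Ix k → ℝ) :
    Continuous (fun t : ℝ => G S (fun i => (γ i : ℂ)) (t : ℂ)) := by
  obtain ⟨h, g, C, t₀, -, -, -, -, -, -, -, h8⟩ := exists_G_asymp S hS γ
  exact h8

theorem Q_expand {γ : Ix k → ℝ} (hγ : Function.Injective γ) {a : ℝ} (ha : 0 < a) :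
    (fun T : ℝ => (∫ t in (0:ℝ)..T, Q (fun j => γ (Sum.inl j)) (fun j => γ (Sum.inr j)) t) -
      ∑ S ∈ (univ : Finset (Ix k)).powersetCard k, qc S γ * mono (pairing (corner S) γ) T)
      =O[atTop] fun T : ℝ => T ^ a := by
  have hG : ∀ S ∈ (univ : Finset (Ix k)).powersetCard k,
      (fun T : ℝ => (∫ t in (0:ℝ)..T, G S (fun i => (γ i : ℂ)) (t : ℂ)) -
        ((2 * Real.pi : ℝ) : ℂ) ^ (I * pairing (corner S) γ) /
          (1 - I * pairing (corner S) γ) * mono (pairing (corner S) γ) T) =O[atTop]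
      fun T : ℝ => T ^ a := by
    intro S hS
    have hSc := (Finset.mem_powersetCard.1 hS).2
    obtain ⟨h, g, C, t₀, ht₀, hC, h1, h2, h3, h4, h5, h6⟩ := exists_G_asymp S hSc γ
    have h7 := partial_sum (f := fun _ => (1:ℂ)) continuous_const h6 ht₀ hC ha h1 h2 h3 h4 h5
      ({()} : Finset Unit) (fun _ => 0) (fun _ => 1) (by
        have : (fun T : ℝ => (∫ _t in (0:ℝ)..T, (1:ℂ)) -
            ∑ _i ∈ ({()} : Finset Unit), (1:ℂ) * mono 0 T) = fun _ => 0 := by
          funext T
          simp [mono]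
        rw [this]
        exact Asymptotics.isBigO_zero _ _)
    refine h7.congr_left fun T => ?_
    simp
  have hsum : (fun T : ℝ => ∑ S ∈ (univ : Finset (Ix k)).powersetCard k,
      zetaAB S (fun i => (γ i : ℂ)) * ((∫ t in (0:ℝ)..T,
      G S (fun i => (γ i : ℂ)) (t : ℂ)) - ((2 * Real.pi : ℝ) : ℂ) ^ (I * pairing (corner S) γ) /
          (1 - I * pairing (corner S) γ) * mono (pairing (corner S) γ) T)) =O[atTop]
      fun T : ℝ => T ^ a :=
    Asymptotics.IsBigO.fun_sum fun S hS => (hG S hS).const_mul_left _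
  refine hsum.congr_left fun T => ?_
  have e1 : (∫ t in (0:ℝ)..T, Q (fun j => γ (Sum.inl j)) (fun j => γ (Sum.inr j)) t) =
      ∑ S ∈ (univ : Finset (Ix k)).powersetCard k, zetaAB S (fun i => (γ i : ℂ)) *
        ∫ t in (0:ℝ)..T, G S (fun i => (γ i : ℂ)) (t : ℂ) := by
    have e2 : (fun t : ℝ => Q (fun j => γ (Sum.inl j)) (fun j => γ (Sum.inr j)) t) =
        fun t : ℝ => ∑ S ∈ (univ : Finset (Ix k)).powersetCard k,
          zetaAB S (fun i => (γ i : ℂ)) * G S (fun i => (γ i : ℂ)) (t : ℂ) := by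
      funext t
      rw [Q_eq_Qsum hγ, Qsum]
      exact Finset.sum_congr rfl fun S _ => mul_comm _ _
    rw [e2, intervalIntegral.integral_finsetSum]
    · exact Finset.sum_congr rfl fun S _ => intervalIntegral.integral_const_mul _ _
    · intro S hS
      exact ((continuous_G S (Finset.mem_powersetCard.1 hS).2 γ).const_mul _ |>.intervalIntegrable
        _ _)
  rw [e1, ← Finset.sum_sub_distrib]
  refine Finset.sum_congr rfl fun S _ => ?_
  rw [qc]
  ring

end Pool.Agent.H26
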