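import Pool.Agent.H26.RG.Cocycle
import Pool.Agent.H26.RG.QExp
import Pool.Agent.H26.RG.Neg

/-!
Expansions of the moment and of the error at generic shifts, and the transfer between the charts.
-/

namespace Pool.Agent.H26

open Complex Finset MeasureTheory Filter Asymptotics Topology

variable {k : ℕ}

/-- Uniqueness of one coefficient of an expansion whose frequency is different from the others. -/
theorem unique_one {ι : Type*} [DecidableEq ι] (s : Finset ι) {ω : ι → ℝ} {b : ι → ℂ} {a : ℝ}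
    (ha : a < 1) (h : (fun T : ℝ => ∑ i ∈ s, b i * mono (ω i) T) =O[atTop] fun T : ℝ => T ^ a)
    {i₀ : ι} (hi₀ : i₀ ∈ s) (hne : ∀ i ∈ s, i ≠ i₀ → ω i ≠ ω i₀) : b i₀ = 0 := by
  classical
  have h1 : ∀ T : ℝ, ∑ w ∈ s.image ω, (∑ i ∈ s with ω i = w, b i) * mono w T =
      ∑ i ∈ s, b i * mono (ω i) T := by
    intro T
    rw [← Finset.sum_fiberwise_of_maps_to (g := ω) (t := s.image ω)
      (fun i hi => Finset.mem_image_of_mem _ hi)]
    refine Finset.sum_congr rfl fun w _ => ?_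
    rw [Finset.sum_mul]
    refine Finset.sum_congr rfl fun i hi => ?_
    rw [(Finset.mem_filter.1 hi).2]
  have h2 := unique_exp (s.image ω) (ω := fun w => w) (fun _ _ _ _ h => h)
    (b := fun w => ∑ i ∈ s with ω i = w, b i) ha (by
      refine h.congr_left fun T => (h1 T).symm) (ω i₀) (Finset.mem_image_of_mem _ hi₀)
  have h3 : (s.filter fun i => ω i = ω i₀) = {i₀} := by
    ext i
    rw [Finset.mem_filter, Finset.mem_singleton]
    constructor
    · rintro ⟨h4, h5⟩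
      by_contra h6
      exact hne i h4 h6 h5
    · rintro rfl
      exact ⟨hi₀, rfl⟩
  rw [h3, Finset.sum_singleton] at h2
  exact h2

lemma pairing_eq_sum (θ γ : Ix k → ℝ) : pairing θ γ = ∑ i, sg i * θ i * γ i := by
  rw [Fintype.sum_sum_type]
  unfold pairing
  have e1 : ∀ j : Fin k, (sg (Sum.inl j : Ix k) : ℝ) = 1 := fun _ => rfl
  have e2 : ∀ j : Fin k, (sg (Sum.inr j : Ix k) : ℝ) = -1 := fun _ => rfl
  simp only [e1, e2]
  rw [sub_eq_add_neg, ← Finset.sum_neg_distrib]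
  congr 1
  · exact Finset.sum_congr rfl fun j _ => by ring
  · exact Finset.sum_congr rfl fun j _ => by ring

lemma sg_mul_self (i : Ix k) : (sg i : ℝ) * sg i = 1 := by
  rcases i with j | j
  · show (1:ℝ) * 1 = 1
    ring
  · show (-1:ℝ) * (-1) = 1
    ring

lemma pairing_add (θ γ δ : Ix k → ℝ) : pairing θ (γ + δ) = pairing θ γ + pairing θ δ := by
  simp only [pairing_eq_sum, Pi.add_apply, mul_add, Finset.sum_add_distrib]

/-- Distinct frequency vectors give frequencies at a generic shift which are not in a given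
relation. -/
lemma ae_pairing_ne {θ θ' : Ix k → ℝ} (hne : θ ≠ θ') (c : ℝ) :
    ∀ᵐ γ : Ix k → ℝ, pairing θ γ ≠ pairing θ' γ + c := by
  set L : (Ix k → ℝ) →ₗ[ℝ] ℝ := ∑ i, (sg i * (θ i - θ' i)) • LinearMap.proj i with hLdef
  have hLap : ∀ γ, L γ = pairing θ γ - pairing θ' γ := by
    intro γ
    rw [pairing_eq_sum, pairing_eq_sum, ← Finset.sum_sub_distrib, hLdef]
    simp only [LinearMap.sum_apply, LinearMap.smul_apply, LinearMap.proj_apply, smul_eq_mul]
    exact Finset.sum_congr rfl fun i _ => by ring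
  have hker : LinearMap.ker L ≠ ⊤ := by
    intro h
    apply hne
    funext i
    have h2 : L (Pi.single i (sg i)) = 0 := by
      have : Pi.single i (sg i) ∈ LinearMap.ker L := by rw [h]; trivial
      exact LinearMap.mem_ker.1 this
    rw [hLdef] at h2
    simp only [LinearMap.sum_apply, LinearMap.smul_apply, LinearMap.proj_apply, smul_eq_mul] at h2
    rw [Finset.sum_eq_single i (fun j _ hj => by rw [Pi.single_eq_of_ne hj, mul_zero])
      (fun h => absurd (Finset.mem_univ i) h), Pi.single_eq_same] at h2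
    have h3 : θ i - θ' i = 0 := by
      have := sg_mul_self i
      linear_combination h2 - (θ i - θ' i) * this
    linarith
  have hk0 : volume (LinearMap.ker L : Set (Ix k → ℝ)) = 0 :=
    Measure.addHaar_submodule (volume : Measure (Ix k → ℝ)) _ hker
  by_cases hex : ∃ γ₁ : Ix k → ℝ, L γ₁ = c
  · obtain ⟨γ₁, hγ₁⟩ := hex
    have h3 : volume ((fun γ => γ + (-γ₁)) ⁻¹' (LinearMap.ker L : Set (Ix k → ℝ))) = 0 := by
      rw [measure_preimage_add_right]
      exact hk0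
    refine measure_mono_null ?_ h3
    intro γ hγ
    simp only [Set.mem_compl_iff, Set.mem_ofPred_eq, not_not] at hγ
    show γ + (-γ₁) ∈ LinearMap.ker L
    rw [LinearMap.mem_ker, map_add, map_neg, hγ₁, hLap, hγ]
    ring
  · refine Eventually.of_forall fun γ h => hex ⟨γ, ?_⟩
    rw [hLap, h]
    ring

lemma ae_add {p : (Ix k → ℝ) → Prop} (h : ∀ᵐ γ : Ix k → ℝ, p γ) (δ : Ix k → ℝ) :
    ∀ᵐ γ : Ix k → ℝ, p (γ + δ) :=
  (measurePreserving_add_right (volume : Measure (Ix k → ℝ)) δ).quasiMeasurePreserving.ae h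

lemma ae_perm {p : (Ix k → ℝ) → Prop} (h : ∀ᵐ γ : Ix k → ℝ, p γ) (σ : Equiv.Perm (Ix k)) :
    ∀ᵐ γ : Ix k → ℝ, p (fun i => γ (σ i)) := by
  have h1 := (volume_measurePreserving_piCongrLeft (fun _ : Ix k => ℝ)
    σ.symm).quasiMeasurePreserving.ae h
  filter_upwards [h1] with γ hγ
  convert hγ using 1
  funext i
  have h2 := Equiv.piCongrLeft_apply_apply (P := fun _ : Ix k => ℝ) (e := σ.symm) γ (σ i)
  rw [Equiv.symm_apply_apply] at h2
  exact h2.symm

lemma continuous_Z_t (γ : Ix k → ℝ) :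
    Continuous fun t : ℝ => Z (fun j => γ (Sum.inl j)) (fun j => γ (Sum.inr j)) t := by
  have e : (fun t : ℝ => Z (fun j => γ (Sum.inl j)) (fun j => γ (Sum.inr j)) t) =
      fun t : ℝ => ∏ i, zf i (γ i) t := by
    funext t
    exact Z_eq_prod γ t
  rw [e]
  refine continuous_finsetProd _ fun i _ => ?_
  exact Continuous.comp (f := fun t : ℝ => (γ i, t)) (continuous_zf i) (by fun_prop)

lemma continuous_Q_t {γ : Ix k → ℝ} (hγ : Function.Injective γ) :
    Continuous fun t : ℝ => Q (fun j => γ (Sum.inl j)) (fun j => γ (Sum.inr j)) t := by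
  have e : (fun t : ℝ => Q (fun j => γ (Sum.inl j)) (fun j => γ (Sum.inr j)) t) =
      fun t : ℝ => ∑ S ∈ (univ : Finset (Ix k)).powersetCard k,
        G S (fun i => (γ i : ℂ)) (t : ℂ) * zetaAB S (fun i => (γ i : ℂ)) := by
    funext t
    rw [Q_eq_Qsum hγ, Qsum]
  rw [e]
  exact continuous_finsetSum _ fun S hS =>
    (continuous_G S (Finset.mem_powersetCard.1 hS).2 γ).mul_const _

lemma Er_eq_sub {γ : Ix k → ℝ} (hγ : Function.Injective γ) (T : ℝ) :
    Er γ T = Mr γ T - ∫ t in (0:ℝ)..T, Q (fun j => γ (Sum.inl j)) (fun j => γ (Sum.inr j)) t := by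
  unfold Er E Mr
  exact intervalIntegral.integral_sub ((continuous_Z_t γ).intervalIntegrable _ _)
    ((continuous_Q_t hγ).intervalIntegrable _ _)

/-- The corners. -/
noncomputable def corners (k : ℕ) : Finset (Ix k → ℝ) := by
  classical exact ((univ : Finset (Ix k)).powersetCard k).image corner

lemma mem_corners {θ : Ix k → ℝ} : θ ∈ corners k ↔ ∃ S : Finset (Ix k), S.card = k ∧
    corner S = θ := by
  unfold corners
  simp [Finset.mem_powersetCard]

/-- The coefficient of the recipe. -/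
noncomputable def qcs (γ θ : Ix k → ℝ) : ℂ := by
  classical exact ∑ S ∈ (univ : Finset (Ix k)).powersetCard k with corner S = θ, qc S γ

lemma qcs_eq_zero {γ θ : Ix k → ℝ} (h : θ ∉ corners k) : qcs γ θ = 0 := by
  classical
  unfold qcs
  refine Finset.sum_eq_zero fun S hS => ?_
  exfalso
  rw [Finset.mem_filter, Finset.mem_powersetCard] at hS
  exact h (mem_corners.2 ⟨S, hS.1.2, hS.2⟩)

lemma sum_qcs {Λ : Finset (Ix k → ℝ)} (hΛ : corners k ⊆ Λ) (γ : Ix k → ℝ) (T : ℝ) :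
    ∑ θ ∈ Λ, qcs γ θ * mono (pairing θ γ) T =
      ∑ S ∈ (univ : Finset (Ix k)).powersetCard k, qc S γ * mono (pairing (corner S) γ) T := by
  classical
  rw [← Finset.sum_fiberwise_of_maps_to (g := corner) (t := Λ) (fun S hS => hΛ (mem_corners.2
    ⟨S, (Finset.mem_powersetCard.1 hS).2, rfl⟩))]
  refine Finset.sum_congr rfl fun θ _ => ?_
  unfold qcs
  rw [Finset.sum_mul]
  refine Finset.sum_congr rfl fun S hS => ?_
  rw [(Finset.mem_filter.1 hS).2]

/-- From an expansion of the moment to an expansion of the error. -/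
lemma Expn.error {Λ : Finset (Ix k → ℝ)} (hΛ : corners k ⊆ Λ) {a : ℝ} (ha : 0 < a)
    {γ : Ix k → ℝ} (hγ : Function.Injective γ) {c : (Ix k → ℝ) → ℂ}
    (h : Expn Λ a γ c (Mr γ)) : Expn Λ a γ (fun θ => c θ - qcs γ θ) (Er γ) := by
  have h1 := h.sub (Q_expand hγ ha)
  refine h1.congr_left fun T => ?_
  rw [Er_eq_sub hγ, ← sum_qcs hΛ]
  have : ∑ θ ∈ Λ, (c θ - qcs γ θ) * mono (pairing θ γ) T =
      ∑ θ ∈ Λ, c θ * mono (pairing θ γ) T - ∑ θ ∈ Λ, qcs γ θ * mono (pairing θ γ) T := by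
    rw [← Finset.sum_sub_distrib]
    exact Finset.sum_congr rfl fun θ _ => by ring
  rw [this]
  ring

/-- Enlarging the set of frequencies. -/
lemma Expn.mono_set {Λ Λ' : Finset (Ix k → ℝ)} (hΛ : Λ ⊆ Λ') {a : ℝ} {γ : Ix k → ℝ}
    {c : (Ix k → ℝ) → ℂ} {F : ℝ → ℂ} (h : Expn Λ a γ c F) :
    ∃ c' : (Ix k → ℝ) → ℂ, Expn Λ' a γ c' F := by
  classical
  refine ⟨fun θ => if θ ∈ Λ then c θ else 0, ?_⟩
  refine h.congr_left fun T => ?_
  congr 1
  simp only [ite_mul, zero_mul]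
  rw [← Finset.sum_filter]
  refine Finset.sum_congr ?_ fun _ _ => rfl
  ext θ
  rw [Finset.mem_filter]
  exact ⟨fun h => ⟨hΛ h, h⟩, fun h => h.2⟩

lemma Expn.mono_exp {Λ : Finset (Ix k → ℝ)} {a a' : ℝ} (haa : a ≤ a') {γ : Ix k → ℝ}
    {c : (Ix k → ℝ) → ℂ} {F : ℝ → ℂ} (h : Expn Λ a γ c F) : Expn Λ a' γ c F := by
  refine Asymptotics.IsBigO.trans h (Asymptotics.IsBigO.of_bound 1 ?_)
  filter_upwards [eventually_ge_atTop 1] with T hT
  have hT0 : 0 < T := by linarith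
  rw [Real.norm_of_nonneg (by positivity), Real.norm_of_nonneg (by positivity), one_mul]
  exact Real.rpow_le_rpow_of_exponent_le hT haa

lemma Expn.unique {Λ : Finset (Ix k → ℝ)} {a : ℝ} (ha : a < 1) {γ : Ix k → ℝ} (hg : Gen Λ γ)
    {c c' : (Ix k → ℝ) → ℂ} {F : ℝ → ℂ} (h : Expn Λ a γ c F) (h' : Expn Λ a γ c' F) :
    ∀ θ ∈ Λ, c θ = c' θ := by
  classical
  have h1 := h'.sub h
  have h2 := unique_exp Λ hg.injOn (b := fun θ => c θ - c' θ) ha (by
    refine h1.congr_left fun T => ?_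
    have : ∑ θ ∈ Λ, (c θ - c' θ) * mono (pairing θ γ) T =
        ∑ θ ∈ Λ, c θ * mono (pairing θ γ) T - ∑ θ ∈ Λ, c' θ * mono (pairing θ γ) T := by
      rw [← Finset.sum_sub_distrib]
      exact Finset.sum_congr rfl fun θ _ => by ring
    rw [this]
    ring)
  exact fun θ hθ => sub_eq_zero.1 (h2 θ hθ)

lemma LExpn.expn {Λ : Finset (Ix k → ℝ)} {γ₀ : Ix k → ℝ}
    {b : (Ix k → ℝ) → (Ix k → ℝ) → ℂ} {F : (Ix k → ℝ) → ℝ → ℂ} (h : LExpn Λ γ₀ b F) :
    ∃ a : ℝ, a < 1 ∧ Expn Λ a γ₀ (fun θ => b θ γ₀) (F γ₀) := by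
  obtain ⟨r, hr, a, ha, C, -, hC⟩ := h
  refine ⟨a, ha, Asymptotics.IsBigO.of_bound C ?_⟩
  filter_upwards [eventually_ge_atTop 1] with T hT
  have hT0 : 0 < T := by linarith
  rw [Real.norm_of_nonneg (by positivity : 0 ≤ T ^ a)]
  exact hC γ₀ (Metric.mem_ball_self hr) T hT

lemma LExpn.congr {Λ : Finset (Ix k → ℝ)} {γ₀ : Ix k → ℝ}
    {b : (Ix k → ℝ) → (Ix k → ℝ) → ℂ} {F F' : (Ix k → ℝ) → ℝ → ℂ} (h : LExpn Λ γ₀ b F)
    {r : ℝ} (hr : 0 < r) (hF : ∀ γ ∈ Metric.ball γ₀ r, ∀ T : ℝ, F γ T = F' γ T) :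
    LExpn Λ γ₀ b F' := by
  obtain ⟨r', hr', a, ha, C, h1, hC⟩ := h
  refine ⟨min r r', lt_min hr hr', a, ha, C, fun θ hθ => (h1 θ hθ).mono
    (Metric.ball_subset_ball (min_le_right _ _)), fun γ hγ T hT => ?_⟩
  rw [← hF γ (Metric.ball_subset_ball (min_le_left _ _) hγ) T]
  exact hC γ (Metric.ball_subset_ball (min_le_right _ _) hγ) T hT

lemma Expn.isBigO_one {Λ : Finset (Ix k → ℝ)} {a : ℝ} (ha : a < 1) {γ : Ix k → ℝ}
    {c : (Ix k → ℝ) → ℂ} {F : ℝ → ℂ} (h : Expn Λ a γ c F) :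
    F =O[atTop] fun T : ℝ => T ^ (1 : ℝ) := by
  have h1 : (fun T : ℝ => ∑ θ ∈ Λ, c θ * mono (pairing θ γ) T) =O[atTop]
      fun T : ℝ => T ^ (1 : ℝ) := by
    refine Asymptotics.IsBigO.of_bound (∑ θ ∈ Λ, ‖c θ‖) ?_
    filter_upwards [eventually_gt_atTop 0] with T hT
    rw [Real.norm_of_nonneg (by positivity), Finset.sum_mul]
    refine (norm_sum_le _ _).trans (Finset.sum_le_sum fun θ _ => ?_)
    rw [norm_mul, norm_mono hT, Real.rpow_one]
  have h2 : (fun T : ℝ => T ^ a) =O[atTop] fun T : ℝ => T ^ (1:ℝ) := by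
    refine Asymptotics.IsBigO.of_bound 1 ?_
    filter_upwards [eventually_ge_atTop 1] with T hT
    have hT0 : 0 < T := by linarith
    rw [Real.norm_of_nonneg (by positivity), Real.norm_of_nonneg (by positivity), one_mul]
    exact Real.rpow_le_rpow_of_exponent_le hT ha.le
  refine ((h.trans h2).add h1).congr_left fun T => ?_
  ring

end Pool.Agent.H26
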